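import Mathlib

/-!
# Supermodular functions on the finite elements of a modular lattice: the join of the tight elements
-/

set_option autoImplicit false
set_option linter.unusedSectionVars false

open Set

namespace Pool.Agent.Q280.ML

variable {X : Type*} [CompleteLattice X] [IsModularLattice X]

/-- a supermodular function `f` on the finite elements, bounded by a height `h` -/
structure Sm (fin : X → Prop) (f : X → ℤ) (h : X → ℕ) : Prop where
  bot : fin ⊥
  sup : ∀ {a b : X}, fin a → fin b → fin (a ⊔ b)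
  le : ∀ {a b : X}, fin b → a ≤ b → fin a
  lt : ∀ {a b : X}, fin b → a < b → h a < h b
  fle : ∀ {a : X}, fin a → f a ≤ h a
  sm : ∀ {a b : X}, fin a → fin b → f a + f b ≤ f (a ⊓ b) + f (a ⊔ b)
  cpt : ∀ (D : Set X), D.Nonempty → DirectedOn (· ≤ ·) D → ∀ {a : X}, fin a → a ≤ sSup D → ∃ d ∈ D, a ≤ d

/-- a finite element all of whose proper parts have a smaller value -/
def Tight (fin : X → Prop) (f : X → ℤ) (V : X) : Prop := fin V ∧ ∀ W, W < V → f W < f V

/-- the join of the tight elements -/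
def Core (fin : X → Prop) (f : X → ℤ) : X := sSup {T | Tight fin f T}

variable {fin : X → Prop} {f : X → ℤ} {h : X → ℕ}

theorem Tight.le {V W : X} (hV : Tight fin f V) (hW : W ≤ V) : f W ≤ f V := by
  rcases hW.eq_or_lt with h1 | h1
  · rw [h1]
  · exact (hV.2 W h1).le

theorem Tight.le_core {T : X} (hT : Tight fin f T) : T ≤ Core fin f := le_sSup hT

variable (S : Sm fin f h)

include S

theorem tight_bot : Tight fin f ⊥ := ⟨S.bot, fun _ hX => absurd hX not_lt_bot⟩

theorem h_mono {a b : X} (hb : fin b) (hab : a ≤ b) : h a ≤ h b := by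
  rcases hab.eq_or_lt with h1 | h1
  · rw [h1]
  · exact (S.lt hb h1).le

theorem exists_tight {V : X} (hV : fin V) : ∃ T ≤ V, Tight fin f T ∧ ∀ W ≤ V, f W ≤ f T := by
  -- the largest value
  obtain ⟨d, ⟨T₀, hT₀, hd⟩, hmax⟩ := Int.exists_greatest_of_bdd
    (P := fun d : ℤ => ∃ T : X, T ≤ V ∧ f T = d)
    ⟨h V, by
      rintro z ⟨T, hT, rfl⟩
      refine (S.fle (S.le hV hT)).trans ?_
      exact_mod_cast h_mono S hV hT⟩ ⟨f V, V, le_rfl, rfl⟩
  -- the smallest height
  classical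
  have hex : ∃ m : ℕ, ∃ T : X, T ≤ V ∧ f T = d ∧ h T = m := ⟨h T₀, T₀, hT₀, hd, rfl⟩
  obtain ⟨T, hT, hTd, hTm⟩ := Nat.find_spec hex
  refine ⟨T, hT, ⟨S.le hV hT, fun W hW => ?_⟩, fun W hW => ?_⟩
  · by_contra hcon
    push Not at hcon
    have h1 : f W ≤ d := hmax _ ⟨W, hW.le.trans hT, rfl⟩
    have h2 : f W = d := by omega
    have h3 := Nat.find_min hex (m := h W) (by
      have := S.lt (S.le hV hT) hW
      omega)
    exact h3 ⟨W, hW.le.trans hT, h2, rfl⟩
  · rw [hTd]
    exact hmax _ ⟨W, hW, rfl⟩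

theorem Tight.sup {V W : X} (hV : Tight fin f V) (hW : Tight fin f W) : Tight fin f (V ⊔ W) := by
  have key : ∀ {T Y : X}, Tight fin f T → fin Y → ¬ T ≤ Y → f Y < f (T ⊔ Y) := by
    intro T Y hT hY hTY
    have h1 := S.sm hT.1 hY
    have h2 : f (T ⊓ Y) < f T := hT.2 _ (lt_of_le_of_ne inf_le_left fun h => hTY (inf_eq_left.mp h))
    omega
  have key' : ∀ {T Y : X}, Tight fin f T → fin Y → f Y ≤ f (T ⊔ Y) := by
    intro T Y hT hY
    by_cases h : T ≤ Y
    · rw [sup_eq_right.mpr h]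
    · exact (key hT hY h).le
  refine ⟨S.sup hV.1 hW.1, fun X hX => ?_⟩
  have hXf : fin X := S.le (S.sup hV.1 hW.1) hX.le
  have h3 : W ⊔ (V ⊔ X) = V ⊔ W := by
    rw [← sup_assoc, sup_comm W V]
    exact sup_eq_left.mpr hX.le
  by_cases h1 : V ≤ X
  · have h2 : V ⊔ X = X := sup_eq_right.mpr h1
    have h4 : ¬ W ≤ V ⊔ X := by
      intro h
      rw [h2] at h
      exact hX.not_ge (sup_le h1 h)
    have h5 := key hW (S.sup hV.1 hXf) h4
    rw [h3, h2] at h5
    exact h5
  · have h4 := key hV hXf h1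
    have h5 := key' hW (S.sup hV.1 hXf)
    rw [h3] at h5
    omega

theorem exists_tight_ge {a : X} (ha : fin a) (hac : a ≤ Core fin f) : ∃ T, Tight fin f T ∧ a ≤ T := by
  obtain ⟨T, hT, h1⟩ := S.cpt {T | Tight fin f T} ⟨⊥, tight_bot S⟩
    (fun T hT T' hT' => ⟨T ⊔ T', hT.sup S hT', le_sup_left, le_sup_right⟩) ha hac
  exact ⟨T, hT, h1⟩

theorem le_of_inf_core {T V : X} (hT : Tight fin f T) (hV : fin V) (h1 : V ⊓ Core fin f ≤ T) : f V ≤ f T := by
  obtain ⟨T', h2, h3, h4⟩ := exists_tight S hV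
  have h5 : T' ≤ T := (le_inf h2 h3.le_core).trans h1
  exact (h4 V le_rfl).trans (hT.le h5)

/-- **Concentration on the core.** -/
theorem le_inf_core {V : X} (hV : fin V) : f V ≤ f (V ⊓ Core fin f) := by
  obtain ⟨T, h1, h2⟩ := exists_tight_ge S (S.le hV inf_le_left) (inf_le_right : V ⊓ Core fin f ≤ _)
  have h3 := S.sm hV h1.1
  have h4 : V ⊓ T = V ⊓ Core fin f :=
    le_antisymm (inf_le_inf_left _ h1.le_core) (le_inf inf_le_left h2)
  have h5 : f (V ⊔ T) ≤ f T := by
    refine le_of_inf_core S h1 (S.sup hV h1.1) ?_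
    rw [sup_comm, sup_inf_assoc_of_le _ h1.le_core]
    exact sup_le le_rfl h2
  rw [h4] at h3
  omega

omit S in
/-- the core is the smallest element with this property -/
theorem core_min {B : X} (hB : ∀ V, fin V → f V ≤ f (V ⊓ B)) : Core fin f ≤ B := by
  refine sSup_le fun T hT => ?_
  by_contra hcon
  have h1 : T ⊓ B < T := lt_of_le_of_ne inf_le_left fun h => hcon (inf_eq_left.mp h)
  have := hT.2 _ h1
  have := hB T hT.1
  omega

theorem core_bot_iff : Core fin f = ⊥ ↔ ∀ V, fin V → f V ≤ f ⊥ := by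
  constructor
  · intro h1 V hV
    have h2 := le_inf_core S hV
    rwa [h1, inf_bot_eq] at h2
  · intro h1
    exact le_bot_iff.mp (core_min fun V hV => by
      rw [inf_bot_eq]
      exact h1 V hV)

theorem core_fin_iff : fin (Core fin f) ↔ ∃ C : ℤ, ∀ V, fin V → f V ≤ C := by
  constructor
  · intro h1
    obtain ⟨T, h2, h3⟩ := exists_tight_ge S h1 le_rfl
    exact ⟨f T, fun V hV => le_of_inf_core S h2 hV (inf_le_right.trans h3)⟩
  · rintro ⟨C, hC⟩
    obtain ⟨d, ⟨T, hT, hd⟩, hmax⟩ := Int.exists_greatest_of_bdd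
      (P := fun d : ℤ => ∃ T : X, Tight fin f T ∧ f T = d)
      ⟨C, by rintro z ⟨V, hV, rfl⟩; exact hC V hV.1⟩ ⟨f ⊥, ⊥, tight_bot S, rfl⟩
    refine S.le hT.1 (sSup_le fun T' hT' => ?_)
    have h1 := hT.sup S hT'
    by_contra hcon
    have h2 : T < T ⊔ T' := lt_of_le_of_ne le_sup_left fun h => hcon (by rw [h]; exact le_sup_right)
    have h3 := h1.2 _ h2
    have h4 := hmax _ ⟨_, h1, rfl⟩
    omega

/-- if the core is finite then it is tight, and it has the largest value -/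
theorem core_tight (h1 : fin (Core fin f)) : Tight fin f (Core fin f) := by
  obtain ⟨T, h2, h3⟩ := exists_tight_ge S h1 le_rfl
  rwa [le_antisymm h2.le_core h3] at h2

theorem le_core (h1 : fin (Core fin f)) {V : X} (hV : fin V) : f V ≤ f (Core fin f) :=
  le_of_inf_core S (core_tight S h1) hV inf_le_right

end Pool.Agent.Q280.ML
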