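import Mathlib

/-!
# Finite dimensional subspaces
-/

set_option autoImplicit false

open Set Module

namespace Pool.Agent.Q280.ML

variable {K E : Type*} [Field K] [AddCommGroup E] [Module K E]

theorem fd_bot : FiniteDimensional K (⊥ : Submodule K E) := inferInstance

theorem fd_sup {a b : Submodule K E} (ha : FiniteDimensional K a) (hb : FiniteDimensional K b) :
    FiniteDimensional K (a ⊔ b : Submodule K E) := Submodule.finiteDimensional_sup _ _

theorem fd_le {a b : Submodule K E} (hb : FiniteDimensional K b) (hab : a ≤ b) : FiniteDimensional K a :=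
  Submodule.finiteDimensional_of_le hab

theorem fr_lt {a b : Submodule K E} (_hb : FiniteDimensional K b) (hab : a < b) : finrank K a < finrank K b :=
  Submodule.finrank_lt_finrank_of_lt hab

theorem fr_le {a b : Submodule K E} (_hb : FiniteDimensional K b) (hab : a ≤ b) : finrank K a ≤ finrank K b :=
  Submodule.finrank_mono hab

theorem fr_mod {a b : Submodule K E} (ha : FiniteDimensional K a) (hb : FiniteDimensional K b) :
    finrank K a + finrank K b = finrank K (a ⊓ b : Submodule K E) + finrank K (a ⊔ b : Submodule K E) := by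
  rw [← Submodule.finrank_sup_add_finrank_inf_eq a b, add_comm]

theorem fd_cpt (D : Set (Submodule K E)) (hD : D.Nonempty) (hdir : DirectedOn (· ≤ ·) D) {a : Submodule K E}
    (ha : FiniteDimensional K a) (h : a ≤ sSup D) : ∃ d ∈ D, a ≤ d := by
  have h1 : a.FG := Module.Finite.iff_fg.mp ha
  have h2 := (Submodule.fg_iff_compact a).mp h1
  exact (CompleteLattice.isCompactElement_iff_le_of_directed_sSup_le _ _).mp h2 D hD hdir h

/-- a finite set of elements lies in a finite dimensional subspace -/
theorem fd_span {s : Set E} (hs : s.Finite) : FiniteDimensional K (Submodule.span K s) :=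
  FiniteDimensional.span_of_finite K hs

/-- a family which is linearly independent modulo a subspace -/
theorem inf_span_eq_bot {B : Submodule K E} {n : ℕ} {p : Fin n → E}
    (hp : LinearIndependent K (fun i => B.mkQ (p i))) : Submodule.span K (range p) ⊓ B = ⊥ := by
  rw [eq_bot_iff]
  rintro x ⟨hx, hxB⟩
  obtain ⟨c, rfl⟩ := (Submodule.mem_span_range_iff_exists_fun K).mp hx
  have h1 : ∑ i, c i • B.mkQ (p i) = 0 := by
    have h2 : B.mkQ (∑ i, c i • p i) = 0 := (Submodule.Quotient.mk_eq_zero B).mpr hxB
    rw [map_sum] at h2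
    simpa only [map_smul] using h2
  have h2 := Fintype.linearIndependent_iff.mp hp c h1
  simp [h2]

theorem li_of_inf_bot {B : Submodule K E} {n : ℕ} {p : Fin n → E} (hp : LinearIndependent K p)
    (h : Submodule.span K (range p) ⊓ B = ⊥) : LinearIndependent K (fun i => B.mkQ (p i)) := by
  rw [Fintype.linearIndependent_iff] at hp ⊢
  intro c hc
  apply hp c
  have h1 : ∑ i, c i • p i ∈ B := by
    rw [← Submodule.Quotient.mk_eq_zero B, ← Submodule.mkQ_apply, map_sum]
    simpa only [map_smul] using hc
  have h2 : ∑ i, c i • p i ∈ Submodule.span K (range p) ⊓ B :=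
    ⟨Submodule.sum_mem _ fun i _ => Submodule.smul_mem _ _ (Submodule.subset_span ⟨i, rfl⟩), h1⟩
  rw [h, Submodule.mem_bot] at h2
  exact h2

theorem li_of_mod {B : Submodule K E} {n : ℕ} {p : Fin n → E}
    (hp : LinearIndependent K (fun i => B.mkQ (p i))) : LinearIndependent K p := by
  have h1 : LinearIndependent K (B.mkQ ∘ p) := hp
  exact h1.of_comp

/-- a complement of `A` in `X` -/
theorem exists_cpl {A X : Submodule K E} (hX : FiniteDimensional K X) (hA : A ≤ X) :
    ∃ Y ≤ X, Y ⊓ A = ⊥ ∧ finrank K A + finrank K Y = finrank K X := by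
  obtain ⟨Y, hY⟩ := (A.comap X.subtype).exists_isCompl
  refine ⟨Y.map X.subtype, ?_, ?_, ?_⟩
  · rintro _ ⟨y, -, rfl⟩
    exact y.2
  · rw [eq_bot_iff]
    rintro _ ⟨⟨y, hy, rfl⟩, hyA⟩
    have h4 : y ∈ (A.comap X.subtype) ⊓ Y := ⟨hyA, hy⟩
    rw [hY.inf_eq_bot, Submodule.mem_bot] at h4
    rw [h4, map_zero]
    exact Submodule.zero_mem _
  · have hfin : finrank K (A.comap X.subtype) + finrank K Y = finrank K X :=
      Submodule.finrank_add_eq_of_isCompl hY
    have h2 : finrank K (A.comap X.subtype) = finrank K A :=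
      (Submodule.comapSubtypeEquivOfLe hA).finrank_eq
    have h3 : finrank K (Y.map X.subtype) = finrank K Y :=
      (Submodule.equivMapOfInjective X.subtype X.injective_subtype Y).finrank_eq.symm
    omega

end Pool.Agent.Q280.ML
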