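import Pool.Agent.Q280.ML.Sys
import Pool.Agent.Q280.ML.Vec
import Pool.Agent.Q88.ETO.C

/-!
# The numbers attached to spaces of elliptic logarithms
-/

set_option autoImplicit false

open Matroid Set Module
open scoped PeriodPair ComplexConjugate

noncomputable section

namespace Pool.Agent.Q280.ML

open H667R3 Pool.Agent.W245.EB Pool.Agent.TH813.Ell
open Pool.Agent.W252 Pool.Agent.W669.Gel
open Pool.Agent.TH813.Core
open Pool.Agent.Y776.Et (ζ)
open Q88.ETO (mem_clQ kill_NK kill_sup kill_spanP NK_sup_sub)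

variable {L : PeriodPair}

theorem M_eq : (Q88.ETO.M : Matroid ℂ) = Q241.SX.M := rfl

/-- the numbers `v`, `ζ(v)`, `℘(v)` with `v` in `V`, and `g₂`, `g₃` -/
def Nums (L : PeriodPair) (V : Set ℂ) : Set ℂ :=
  {L.g₂, L.g₃} ∪ (V ∪ (ζ L '' (V \ (L.lattice : Set ℂ)) ∪ ℘[L] '' (V \ (L.lattice : Set ℂ))))

theorem Nums_sub_NK (V : Submodule (kL L) ℂ) : Nums L V ⊆ NK L ⊥ ⊥ V V := by
  rintro x (hx | hx)
  · exact Or.inl hx
  · exact Or.inr (Or.inr hx)

theorem NK_sub_cl (V : Submodule (kL L) ℂ) : NK L ⊥ ⊥ V V ⊆ Q241.SX.M.closure (Nums L V) := by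
  rintro x (hx | ((hx | ⟨w, hw, rfl⟩) | hx))
  · exact Q88.ETO.M.mem_closure_of_mem (Or.inl hx) (by simp)
  · rw [SetLike.mem_coe, Submodule.mem_bot] at hx
    rw [hx]
    exact Q88.ETO.cl_alg (isAlgebraic_zero)
  · rw [SetLike.mem_coe, Submodule.mem_bot] at hw
    rw [hw, Complex.exp_zero]
    exact Q88.ETO.cl_alg (isAlgebraic_one)
  · exact Q88.ETO.M.mem_closure_of_mem (Or.inr hx) (by simp)

theorem Nums_mono {V W : Set ℂ} (h : V ⊆ W) : Nums L V ⊆ Nums L W :=
  union_subset_union_right _ (union_subset_union h (union_subset_union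
    (image_mono (sdiff_subset_sdiff_left h)) (image_mono (sdiff_subset_sdiff_left h))))

theorem Nums_sup (V W : Submodule (kL L) ℂ) :
    Nums L (V ⊔ W : Submodule (kL L) ℂ) ⊆ Q241.SX.M.closure (Nums L V ∪ Nums L W) := by
  have h1 := NK_sup_sub (L := L) (⊥ : Submodule ℚ ℂ) ⊥ V W
  rw [bot_sup_eq] at h1
  refine (Nums_sub_NK _).trans (h1.trans ?_)
  refine Q88.ETO.M.closure_subset_closure_of_subset_closure (union_subset ?_ ?_)
  · exact (NK_sub_cl V).trans (Q88.ETO.M.closure_subset_closure subset_union_left)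
  · exact (NK_sub_cl W).trans (Q88.ETO.M.closure_subset_closure subset_union_right)

/-- the numbers `p i`, `℘ (p i)`, `ζ (p i)` -/
def pts (L : PeriodPair) {n : ℕ} (p : Fin n → ℂ) : Set ℂ := ⋃ i, {p i, ℘[L] (p i), ζ L (p i)}

theorem pts_finite {n : ℕ} (p : Fin n → ℂ) : (pts L p).Finite := finite_iUnion fun i => by simp

/-- the numbers of the span of points outside the lattice -/
theorem Nums_span {n : ℕ} {p : Fin n → ℂ} (hp : ∀ i, p i ∉ L.lattice) :
    Nums L (Submodule.span (kL L) (range p)) ⊆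
      Q241.SX.M.closure (pts L p ∪ Nums L ((⊥ : Submodule (kL L) ℂ) : Set ℂ)) := by
  refine (Nums_sub_NK _).trans fun x hx => ?_
  refine (mem_clQ (S := pts L p ∪ Nums L ((⊥ : Submodule (kL L) ℂ) : Set ℂ))).mpr fun D hD => ?_
  have h2 : D L.g₂ = 0 := hD _ (Or.inr (Or.inl (Or.inl rfl)))
  have h3 : D L.g₃ = 0 := hD _ (Or.inr (Or.inl (Or.inr rfl)))
  obtain ⟨κ, hE⟩ := exists_eig L
  have h6 : Submodule.span (kL L) (range p) ≤ ZK hE D h2 h3 := by
    rw [Submodule.span_le]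
    rintro _ ⟨i, rfl⟩
    have hom : om L D (p i) = 0 := om_of_killed (fun _ =>
      hD _ (Or.inl (mem_iUnion.mpr ⟨i, Or.inr (Or.inl rfl)⟩)))
    refine ⟨hD _ (Or.inl (mem_iUnion.mpr ⟨i, Or.inl rfl⟩)), hom, ?_⟩
    unfold et
    rw [hom, mul_zero, add_zero, zt_of_notMem (hp i)]
    exact hD _ (Or.inl (mem_iUnion.mpr ⟨i, Or.inr (Or.inr rfl)⟩))
  refine kill_NK.mpr ⟨h2, h3, fun t ht => ?_, fun u hu => h6 hu⟩ x hx
  rw [Submodule.mem_bot] at ht
  rw [ht, map_zero, map_zero]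
  exact ⟨rfl, rfl⟩

theorem Nums_bot_fin : (Nums L ((⊥ : Submodule (kL L) ℂ) : Set ℂ)).Finite := by
  have h1 : (((⊥ : Submodule (kL L) ℂ) : Set ℂ)).Finite := by
    rw [Submodule.bot_coe]
    exact finite_singleton 0
  exact (toFinite _).union (h1.union (((h1.subset sdiff_subset).image _).union ((h1.subset sdiff_subset).image _)))

/-- the span of a basis -/
theorem span_eq {V : Submodule (kL L) ℂ} (hV : FiniteDimensional (kL L) V)
    {p : Fin (finrank (kL L) V) → ℂ} (hp : LinearIndependent (kL L) p) (hpV : ∀ i, p i ∈ V) :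
    Submodule.span (kL L) (range p) = V := by
  apply Submodule.eq_of_le_of_finrank_eq
  · rw [Submodule.span_le]
    rintro _ ⟨i, rfl⟩
    exact hpV i
  · rw [finrank_span_eq_card hp, Fintype.card_fin]

theorem Nums_rk {V : Submodule (kL L) ℂ} (hV : FiniteDimensional (kL L) V) :
    Q241.SX.M.eRk (Nums L V) ≠ ⊤ := by
  obtain ⟨p, h1, h2, h3⟩ := exists_basis_off (L := L) V
  have h4 := Nums_span h3
  rw [span_eq hV h1 h2] at h4
  have h5 : Q241.SX.M.eRk (Nums L V) ≤ (pts L p ∪ Nums L ((⊥ : Submodule (kL L) ℂ) : Set ℂ)).encard := by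
    refine (Q241.SX.M.eRk_mono h4).trans ?_
    rw [Matroid.eRk_closure_eq]
    exact Matroid.eRk_le_encard _ _
  exact ne_top_of_le_ne_top (encard_ne_top_iff.mpr ((pts_finite p).union Nums_bot_fin)) h5

theorem Nums_loc {B : Submodule (kL L) ℂ} {T : Set ℂ} (hT : T.Finite) (hTB : T ⊆ Nums L B) :
    ∃ V ≤ B, FiniteDimensional (kL L) V ∧ T ⊆ Nums L V := by
  have key : ∀ a ∈ Nums L B, ∃ V ≤ B, FiniteDimensional (kL L) V ∧ a ∈ Nums L V := by
    rintro a (ha | (ha | (⟨w, hw, rfl⟩ | ⟨w, hw, rfl⟩)))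
    · exact ⟨⊥, bot_le, fd_bot, Or.inl ha⟩
    · exact ⟨Submodule.span (kL L) {a}, (Submodule.span_singleton_le_iff_mem _ _).mpr ha,
        fd_span (finite_singleton _), Or.inr (Or.inl (Submodule.mem_span_singleton_self a))⟩
    · exact ⟨Submodule.span (kL L) {w}, (Submodule.span_singleton_le_iff_mem _ _).mpr hw.1,
        fd_span (finite_singleton _),
        Or.inr (Or.inr (Or.inl ⟨w, ⟨Submodule.mem_span_singleton_self w, hw.2⟩, rfl⟩))⟩
    · exact ⟨Submodule.span (kL L) {w}, (Submodule.span_singleton_le_iff_mem _ _).mpr hw.1,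
        fd_span (finite_singleton _),
        Or.inr (Or.inr (Or.inr ⟨w, ⟨Submodule.mem_span_singleton_self w, hw.2⟩, rfl⟩))⟩
  induction T, hT using Set.Finite.induction_on with
  | empty => exact ⟨⊥, bot_le, fd_bot, empty_subset _⟩
  | insert _ _ ih =>
    obtain ⟨V, h1, h2, h3⟩ := ih ((subset_insert _ _).trans hTB)
    obtain ⟨W, h4, h5, h6⟩ := key _ (hTB (mem_insert _ _))
    refine ⟨V ⊔ W, sup_le h1 h4, fd_sup h2 h5, insert_subset ?_ ?_⟩
    · exact Nums_mono (SetLike.coe_subset_coe.mpr (le_sup_right : W ≤ V ⊔ W)) h6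
    · exact h3.trans (Nums_mono (SetLike.coe_subset_coe.mpr (le_sup_left : V ≤ V ⊔ W)))

/-- the system of the spaces of elliptic logarithms -/
@[reducible] def EllSys (L : PeriodPair) : LSys where
  X := Submodule (kL L) ℂ
  fin V := FiniteDimensional (kL L) V
  w V := 2 * finrank (kL L) V
  P V := Nums L V
  bot := fd_bot
  sup := fd_sup
  le := fd_le
  lt hb hab := by
    have := fr_lt hb hab
    omega
  wmod ha hb := by
    have := fr_mod ha hb
    omega
  cpt D hD hdir _ ha h := fd_cpt D hD hdir ha h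
  mono h := Nums_mono (SetLike.coe_subset_coe.mpr h)
  Psup {a b} := Nums_sup a b
  Pfin ha := Nums_rk ha
  Ploc hT hTB := by
    obtain ⟨V, h1, h2, h3⟩ := Nums_loc hT hTB
    exact ⟨V, h1, h2, h3.trans (Matroid.subset_closure_of_subset' _ (Subset.refl _) (by simp))⟩

end Pool.Agent.Q280.ML
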