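import Pool.Agent.Q280.ML.SysB
import Pool.Agent.Q280.ML.Ell

/-!
# The numbers attached to pairs of spaces of logarithms and elliptic logarithms
-/

set_option autoImplicit false

open Matroid Set Module
open scoped PeriodPair ComplexConjugate

noncomputable section

namespace Pool.Agent.Q280.ML

open H667R3 Pool.Agent.W245.EB Pool.Agent.TH813.Ell
open Pool.Agent.W252 Pool.Agent.W669.Gel
open Pool.Agent.TH813.Core
open Pool.Agent.Y776.Et (ζ)
open Q88.ETO (mem_clQ kill_NK kill_sup NK_sup_sub NK_subset)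

variable {L : PeriodPair}

/-- pairs of spaces -/
abbrev Pr (L : PeriodPair) : Type := Submodule ℚ ℂ × Submodule (kL L) ℂ

instance prod_mod {α β : Type*} [Lattice α] [Lattice β] [IsModularLattice α] [IsModularLattice β] :
    IsModularLattice (α × β) where
  sup_inf_le_assoc_of_le := fun {_} y {_} h =>
    ⟨IsModularLattice.sup_inf_le_assoc_of_le y.1 h.1, IsModularLattice.sup_inf_le_assoc_of_le y.2 h.2⟩

/-- the numbers of a pair -/
def NN (L : PeriodPair) (V : Pr L) : Set ℂ := NK L V.1 V.1 V.2 V.2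

/-- the numbers `t`, `exp t` -/
def ex {s : ℕ} (t : Fin s → ℂ) : Set ℂ := ⋃ i, {t i, Complex.exp (t i)}

theorem ex_finite {s : ℕ} (t : Fin s → ℂ) : (ex t).Finite := finite_iUnion fun i => by simp

theorem NN_mono {V W : Pr L} (h : V ≤ W) : NN L V ⊆ NN L W := NK_subset h.1 h.2

theorem NN_sup (V W : Pr L) : NN L (V ⊔ W) ⊆ Q241.SX.M.closure (NN L V ∪ NN L W) :=
  NK_sup_sub V.1 W.1 V.2 W.2

/-- the numbers of the span of exponents and points outside the lattice -/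
theorem NN_span {s n : ℕ} {t : Fin s → ℂ} {p : Fin n → ℂ} (hp : ∀ i, p i ∉ L.lattice) :
    NN L (Submodule.span ℚ (range t), Submodule.span (kL L) (range p)) ⊆
      Q241.SX.M.closure ({L.g₂, L.g₃} ∪ (ex t ∪ pts L p)) := by
  intro x hx
  refine (mem_clQ (S := {L.g₂, L.g₃} ∪ (ex t ∪ pts L p))).mpr fun D hD => ?_
  have h2 : D L.g₂ = 0 := hD _ (Or.inl (Or.inl rfl))
  have h3 : D L.g₃ = 0 := hD _ (Or.inl (Or.inr rfl))
  obtain ⟨κ, hE⟩ := exists_eig L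
  have h6 : Submodule.span (kL L) (range p) ≤ ZK hE D h2 h3 := by
    rw [Submodule.span_le]
    rintro _ ⟨i, rfl⟩
    have hom : om L D (p i) = 0 := om_of_killed (fun _ =>
      hD _ (Or.inr (Or.inr (mem_iUnion.mpr ⟨i, Or.inr (Or.inl rfl)⟩))))
    refine ⟨hD _ (Or.inr (Or.inr (mem_iUnion.mpr ⟨i, Or.inl rfl⟩))), hom, ?_⟩
    unfold et
    rw [hom, mul_zero, add_zero, zt_of_notMem (hp i)]
    exact hD _ (Or.inr (Or.inr (mem_iUnion.mpr ⟨i, Or.inr (Or.inr rfl)⟩)))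
  have h4 : Submodule.span ℚ (Set.range t) ≤ LinearMap.ker (D : ℂ →ₗ[ℚ] ℂ) := by
    rw [Submodule.span_le]
    rintro _ ⟨i, rfl⟩
    exact hD _ (Or.inr (Or.inl (mem_iUnion.mpr ⟨i, Or.inl rfl⟩)))
  have h5 : Submodule.span ℚ (Set.range t) ≤ LinearMap.ker (dl D) := by
    rw [Submodule.span_le]
    rintro _ ⟨i, rfl⟩
    exact dlog_eq_zero.2 (hD _ (Or.inr (Or.inl (mem_iUnion.mpr ⟨i, Or.inr rfl⟩))))
  exact kill_NK.mpr ⟨h2, h3, fun t ht => ⟨h4 ht, h5 ht⟩, fun u hu => h6 hu⟩ x hx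

/-- the numbers of the pair of the spans lie in the numbers of a pair -/
theorem ex_pts_sub {s n : ℕ} {t : Fin s → ℂ} {p : Fin n → ℂ} (hp : ∀ i, p i ∉ L.lattice) {V : Pr L}
    (ht : ∀ i, t i ∈ V.1) (hp' : ∀ i, p i ∈ V.2) : {L.g₂, L.g₃} ∪ (ex t ∪ pts L p) ⊆ NN L V := by
  rintro x (hx | hx | hx)
  · exact Or.inl hx
  · obtain ⟨i, rfl | hx⟩ := mem_iUnion.mp hx
    · exact Or.inr (Or.inl (Or.inl (ht i)))
    · rw [mem_singleton_iff.mp hx]
      exact Or.inr (Or.inl (Or.inr ⟨_, ht i, rfl⟩))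
  · obtain ⟨i, rfl | rfl | hx⟩ := mem_iUnion.mp hx
    · exact Or.inr (Or.inr (Or.inl (hp' i)))
    · exact Or.inr (Or.inr (Or.inr (Or.inr ⟨p i, ⟨hp' i, hp i⟩, rfl⟩)))
    · rw [mem_singleton_iff.mp hx]
      exact Or.inr (Or.inr (Or.inr (Or.inl ⟨p i, ⟨hp' i, hp i⟩, rfl⟩)))

/-- a basis of a finite dimensional rational space -/
theorem exists_basis_Q (T : Submodule ℚ ℂ) [FiniteDimensional ℚ T] :
    ∃ t : Fin (finrank ℚ T) → ℂ, LinearIndependent ℚ t ∧ (∀ i, t i ∈ T) ∧ Submodule.span ℚ (range t) = T := by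
  let b := finBasis ℚ T
  have hb : LinearIndependent ℚ (fun i => (b i : ℂ)) :=
    b.linearIndependent.map' T.subtype (Submodule.ker_subtype _)
  refine ⟨fun i => (b i : ℂ), hb, fun i => (b i).2, ?_⟩
  have h3 : Set.range (fun i => (b i : ℂ)) = T.subtype '' Set.range b := by
    rw [← Set.range_comp]
    rfl
  rw [h3, Submodule.span_image, b.span_eq, Submodule.map_top, Submodule.range_subtype]

theorem NN_rk {V : Pr L} (hT : FiniteDimensional ℚ V.1) (hP : FiniteDimensional (kL L) V.2) :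
    Q241.SX.M.eRk (NN L V) ≠ ⊤ := by
  obtain ⟨t, -, -, ht⟩ := exists_basis_Q V.1
  obtain ⟨p, h1, h2, h3⟩ := exists_basis_off (L := L) V.2
  have h4 := NN_span (t := t) h3
  rw [span_eq hP h1 h2, ht] at h4
  have h5 : Q241.SX.M.eRk (NN L V) ≤ ({L.g₂, L.g₃} ∪ (ex t ∪ pts L p)).encard := by
    refine (Q241.SX.M.eRk_mono h4).trans ?_
    rw [Matroid.eRk_closure_eq]
    exact Matroid.eRk_le_encard _ _
  exact ne_top_of_le_ne_top (encard_ne_top_iff.mpr ((toFinite _).union ((ex_finite t).union (pts_finite p)))) h5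

/-- the pair of the periods -/
def base (L : PeriodPair) : Pr L := (P₁, P₂ L)

/-- finite dimensional pairs which contain the periods -/
def fin₂ (L : PeriodPair) (V : Pr L) : Prop :=
  base L ≤ V ∧ FiniteDimensional ℚ V.1 ∧ FiniteDimensional (kL L) V.2

instance fin_kL : FiniteDimensional ℚ (kL L) := (finrank_kL L).1

theorem fd_P₂ : FiniteDimensional (kL L) (P₂ L) := by
  have h : FiniteDimensional ℚ ((P₂ L).restrictScalars ℚ) := by
    rw [P₂_restrict]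
    exact FiniteDimensional.span_of_finite ℚ (Set.finite_range _)
  have h2 : Module.Finite ℚ (P₂ L) := h
  exact Module.Finite.of_restrictScalars_finite ℚ (kL L) (P₂ L)

theorem fin₂_base : fin₂ L (base L) := ⟨le_rfl, fd_P₁, fd_P₂⟩

theorem NN_loc {B : Pr L} {T : Set ℂ} (hB : base L ≤ B) (hT : T.Finite) (hTB : T ⊆ NN L B) :
    ∃ V ≤ B, fin₂ L V ∧ T ⊆ NN L V := by
  have key : ∀ a ∈ NN L B, ∃ V ≤ B, fin₂ L V ∧ a ∈ NN L V := by
    have k1 : ∀ w ∈ B.1, ∃ V ≤ B, fin₂ L V ∧ w ∈ V.1 := fun w hw =>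
      ⟨base L ⊔ (Submodule.span ℚ {w}, ⊥),
        sup_le hB ⟨(Submodule.span_singleton_le_iff_mem _ _).mpr hw, bot_le⟩,
        ⟨le_sup_left, fd_sup fd_P₁ (fd_span (finite_singleton w)), fd_sup fd_P₂ fd_bot⟩,
        (le_sup_right : Submodule.span ℚ {w} ≤ _) (Submodule.mem_span_singleton_self w)⟩
    have k2 : ∀ w ∈ B.2, ∃ V ≤ B, fin₂ L V ∧ w ∈ V.2 := fun w hw =>
      ⟨base L ⊔ (⊥, Submodule.span (kL L) {w}),
        sup_le hB ⟨bot_le, (Submodule.span_singleton_le_iff_mem _ _).mpr hw⟩,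
        ⟨le_sup_left, fd_sup fd_P₁ fd_bot, fd_sup fd_P₂ (fd_span (finite_singleton w))⟩,
        (le_sup_right : Submodule.span (kL L) {w} ≤ _) (Submodule.mem_span_singleton_self w)⟩
    rintro a (ha | ((ha | ⟨w, hw, rfl⟩) | (ha | (⟨w, hw, rfl⟩ | ⟨w, hw, rfl⟩))))
    · exact ⟨base L, hB, fin₂_base, Or.inl ha⟩
    · obtain ⟨V, h1, h2, h3⟩ := k1 a ha
      exact ⟨V, h1, h2, Or.inr (Or.inl (Or.inl h3))⟩
    · obtain ⟨V, h1, h2, h3⟩ := k1 w hw
      exact ⟨V, h1, h2, Or.inr (Or.inl (Or.inr ⟨w, h3, rfl⟩))⟩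
    · obtain ⟨V, h1, h2, h3⟩ := k2 a ha
      exact ⟨V, h1, h2, Or.inr (Or.inr (Or.inl h3))⟩
    · obtain ⟨V, h1, h2, h3⟩ := k2 w hw.1
      exact ⟨V, h1, h2, Or.inr (Or.inr (Or.inr (Or.inl ⟨w, ⟨h3, hw.2⟩, rfl⟩)))⟩
    · obtain ⟨V, h1, h2, h3⟩ := k2 w hw.1
      exact ⟨V, h1, h2, Or.inr (Or.inr (Or.inr (Or.inr ⟨w, ⟨h3, hw.2⟩, rfl⟩)))⟩
  induction T, hT using Set.Finite.induction_on with
  | empty => exact ⟨base L, hB, fin₂_base, empty_subset _⟩
  | insert _ _ ih =>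
    obtain ⟨V, h1, h2, h3⟩ := ih ((subset_insert _ _).trans hTB)
    obtain ⟨W, h4, h5, h6⟩ := key _ (hTB (mem_insert _ _))
    refine ⟨V ⊔ W, sup_le h1 h4, ⟨h2.1.trans le_sup_left, fd_sup h2.2.1 h5.2.1, fd_sup h2.2.2 h5.2.2⟩,
      insert_subset ?_ ?_⟩
    · exact NN_mono (le_sup_right : W ≤ V ⊔ W) h6
    · exact h3.trans (NN_mono (le_sup_left : V ≤ V ⊔ W))

/-- the weight -/
def ww (L : PeriodPair) (V : Pr L) : ℕ := finrank ℚ V.1 + 2 * finrank (kL L) V.2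

theorem ww_lt {a b : Pr L} (h1 : FiniteDimensional ℚ b.1) (h2 : FiniteDimensional (kL L) b.2) (hab : a < b) :
    ww L a < ww L b := by
  have h3 := fr_le h1 hab.le.1
  have h4 := fr_le h2 hab.le.2
  rcases Prod.lt_iff.mp hab with h | h
  · have := fr_lt h1 h.1
    unfold ww
    omega
  · have := fr_lt h2 h.2
    unfold ww
    omega

/-- the system of the pairs -/
@[reducible] def ETSys (L : PeriodPair) : Bs.LSys where
  X := Pr L
  o := base L
  fin := fin₂ L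
  w := ww L
  P := NN L
  base := fin₂_base
  ge h := h.1
  sup ha hb := ⟨ha.1.trans le_sup_left, fd_sup ha.2.1 hb.2.1, fd_sup ha.2.2 hb.2.2⟩
  le hb h1 h2 := ⟨h1, fd_le hb.2.1 h2.1, fd_le hb.2.2 h2.2⟩
  lt hb _ hab := ww_lt hb.2.1 hb.2.2 hab
  wmod ha hb := by
    have h1 := fr_mod ha.2.1 hb.2.1
    have h2 := fr_mod ha.2.2 hb.2.2
    unfold ww
    simp only [Prod.fst_inf, Prod.fst_sup, Prod.snd_inf, Prod.snd_sup]
    omega
  cpt D hD hdir a ha h := by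
    obtain ⟨_, ⟨d₁, h1, rfl⟩, h2⟩ := fd_cpt (Prod.fst '' D) (hD.image _)
      (hdir.mono_comp (fun _ _ h => h.1)) ha.2.1 (by
        have := h.1
        rwa [Prod.fst_sSup] at this)
    obtain ⟨_, ⟨d₂, h3, rfl⟩, h4⟩ := fd_cpt (Prod.snd '' D) (hD.image _)
      (hdir.mono_comp (fun _ _ h => h.2)) ha.2.2 (by
        have := h.2
        rwa [Prod.snd_sSup] at this)
    obtain ⟨d, h5, h6, h7⟩ := hdir d₁ h1 d₂ h3
    exact ⟨d, h5, h2.trans h6.1, h4.trans h7.2⟩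
  mono h := NN_mono h
  Psup {a b} := NN_sup a b
  Pfin ha := NN_rk ha.2.1 ha.2.2
  Ploc hB hT hTB := by
    obtain ⟨V, h1, h2, h3⟩ := NN_loc hB hT hTB
    exact ⟨V, h1, h2, h3.trans (Matroid.subset_closure_of_subset' _ (Subset.refl _) (by simp))⟩

end Pool.Agent.Q280.ML
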