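import Pool.Agent.Q280.ML.EllX

/-!
# Conjugation, and the elements of the canonical subspace
-/

set_option autoImplicit false

open Matroid Set Module
open scoped PeriodPair ComplexConjugate

noncomputable section

namespace Pool.Agent.Q280.ML

open H667R3 Pool.Agent.W245.EB Pool.Agent.TH813.Ell
open Pool.Agent.TH813.Core
open Pool.Agent.Y776.Et (ζ)
open Q88.ETO (cj cj_apply conj_G conj_zeta conj_wp conj_notMem bar mem_bar fin_bar finrank_bar eRk_image_le)

variable {L : PeriodPair}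

instance : FiniteDimensional ℚ (kL L) := (finrank_kL L).1

theorem ckL : ∀ a ∈ kL L, conj a ∈ kL L := fun _ h => conj_mem_kL h

theorem Nums_bar (hL : ∀ w ∈ L.lattice, conj w ∈ L.lattice) (V : Submodule (kL L) ℂ) :
    cj '' Nums L (bar ckL V) ⊆ Nums L V := by
  rintro _ ⟨x, hx, rfl⟩
  rw [cj_apply]
  rcases hx with (rfl | rfl) | (hx | (⟨y, ⟨hy, hyL⟩, rfl⟩ | ⟨y, ⟨hy, hyL⟩, rfl⟩))
  · left; left
    rw [PeriodPair.g₂, map_mul, conj_G hL, map_ofNat (starRingEnd ℂ) 60]
  · left; right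
    rw [PeriodPair.g₃, map_mul, conj_G hL, map_ofNat (starRingEnd ℂ) 140]
    rfl
  · exact Or.inr (Or.inl hx)
  · rw [← conj_zeta hL]
    exact Or.inr (Or.inr (Or.inl ⟨_, ⟨hy, conj_notMem hL hyL⟩, rfl⟩))
  · rw [← conj_wp hL]
    exact Or.inr (Or.inr (Or.inr ⟨_, ⟨hy, conj_notMem hL hyL⟩, rfl⟩))

theorem bar_bar (V : Submodule (kL L) ℂ) : bar ckL (bar ckL V) = V := by
  ext x
  rw [mem_bar, mem_bar, Complex.conj_conj]

theorem bar_inf (V W : Submodule (kL L) ℂ) : bar ckL (V ⊓ W) = bar ckL V ⊓ bar ckL W := rfl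

theorem rk_bar (hL : ∀ w ∈ L.lattice, conj w ∈ L.lattice) (V : Submodule (kL L) ℂ) :
    Q241.SX.M.eRk (Nums L (bar ckL V)) = Q241.SX.M.eRk (Nums L V) := by
  have key : ∀ V : Submodule (kL L) ℂ, Q241.SX.M.eRk (Nums L (bar ckL V)) ≤ Q241.SX.M.eRk (Nums L V) :=
    fun V => (eRk_image_le _).trans (Q241.SX.M.eRk_mono (Nums_bar hL V))
  apply le_antisymm (key V)
  have h1 := key (bar ckL V)
  rwa [bar_bar] at h1

theorem dfc_bar (hL : ∀ w ∈ L.lattice, conj w ∈ L.lattice) {V : Submodule (kL L) ℂ}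
    (hV : FiniteDimensional (kL L) V) :
    LSys.dfc (A := EllSys L) (bar ckL V) = LSys.dfc (A := EllSys L) V := by
  have h1 := finrank_bar ckL V
  have h2 := rk_bar hL V
  unfold LSys.dfc LSys.rk
  change ((2 * finrank (kL L) (bar ckL V) : ℕ) : ℤ) - ((Q241.SX.M.eRk (Nums L (bar ckL V))).toNat : ℤ) =
    ((2 * finrank (kL L) V : ℕ) : ℤ) - ((Q241.SX.M.eRk (Nums L V)).toNat : ℤ)
  rw [h1, h2]

/-- **The canonical subspace of a lattice stable under complex conjugation is stable under complex conjugation.** -/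
theorem conj_CB (hL : ∀ w ∈ L.lattice, conj w ∈ L.lattice) {z : ℂ} (hz : z ∈ CB L) : conj z ∈ CB L := by
  have h1 : CB L ≤ bar ckL (CB L) := by
    refine CB_le (exact_iff.mpr fun V hV => ?_)
    have hV' : FiniteDimensional (kL L) (bar ckL V) := fin_bar ckL V
    have h2 := exact_iff.mp (exact_CB (L := L)) (bar ckL V) hV'
    rw [dfc_bar hL hV] at h2
    have h3 : bar ckL V ⊓ CB L = bar ckL (V ⊓ bar ckL (CB L)) := by
      rw [bar_inf, bar_bar]
    have h4 : FiniteDimensional (kL L) (V ⊓ bar ckL (CB L) : Submodule (kL L) ℂ) := fd_le hV inf_le_left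
    rw [h3, dfc_bar hL h4] at h2
    exact h2
  exact h1 hz

/-- the elements of the canonical subspace -/
theorem mem_CB {z : ℂ} : z ∈ CB L ↔ ∃ V : Submodule (kL L) ℂ, FiniteDimensional (kL L) V ∧
    (∀ W, W < V → LSys.dfc (A := EllSys L) W < LSys.dfc (A := EllSys L) V) ∧ z ∈ V := by
  constructor
  · intro hz
    obtain ⟨T, h1, h2⟩ := exists_tight_ge (LSys.sm (A := EllSys L)) (a := Submodule.span (kL L) {z})
      (fd_span (finite_singleton z)) ((Submodule.span_singleton_le_iff_mem _ _).mpr hz)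
    exact ⟨T, h1.1, h1.2, h2 (Submodule.mem_span_singleton_self z)⟩
  · rintro ⟨V, h1, h2, h3⟩
    exact Tight.le_core (X := (EllSys L).X) (T := V) ⟨h1, h2⟩ h3

/-- the bounds in terms of the canonical subspace -/
theorem bound_CB (C : ℤ) : (∀ V : Submodule (kL L) ℂ, FiniteDimensional (kL L) V →
    LSys.dfc (A := EllSys L) V ≤ C) ↔
    FiniteDimensional (kL L) (CB L) ∧ LSys.dfc (A := EllSys L) (CB L) ≤ C := by
  constructor
  · intro h
    have h1 : FiniteDimensional (kL L) (CB L) := (core_fin_iff (LSys.sm (A := EllSys L))).mpr ⟨C, h⟩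
    exact ⟨h1, h _ h1⟩
  · rintro ⟨h1, h2⟩ V hV
    exact (le_core (LSys.sm (A := EllSys L)) h1 hV).trans h2

theorem CB_bot : CB L = ⊥ ↔ ∀ V : Submodule (kL L) ℂ, FiniteDimensional (kL L) V →
    LSys.dfc (A := EllSys L) V ≤ LSys.dfc (A := EllSys L) (⊥ : Submodule (kL L) ℂ) :=
  core_bot_iff (LSys.sm (A := EllSys L))

end Pool.Agent.Q280.ML
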