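import Pool.Agent.Q280.ML.ETX
import Pool.Agent.Q280.ML.EllC

/-!
# The canonical pair and complex conjugation
-/

set_option autoImplicit false

open Matroid Set Module
open scoped PeriodPair ComplexConjugate

noncomputable section

namespace Pool.Agent.Q280.ML

open H667R3 Pool.Agent.W245.EB Pool.Agent.TH813.Ell
open Pool.Agent.W252 Pool.Agent.W669.Gel
open Pool.Agent.TH813.Core
open Pool.Agent.Y776.Et (ζ)
open Q88.ETO (cj cj_apply cj_cj conj_G conj_zeta conj_wp conj_notMem bar mem_bar fin_bar finrank_bar eRk_image_le)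

variable {L : PeriodPair}

/-- the conjugate rational space -/
def barQ (T : Submodule ℚ ℂ) : Submodule ℚ ℂ := T.map cj.toLinearEquiv.toLinearMap

theorem mem_barQ {T : Submodule ℚ ℂ} {x : ℂ} : x ∈ barQ T ↔ conj x ∈ T := by
  constructor
  · rintro ⟨y, hy, rfl⟩
    have h1 : conj (cj.toLinearEquiv.toLinearMap y) = y := cj_cj y
    rw [h1]
    exact hy
  · intro hx
    exact ⟨conj x, hx, cj_cj x⟩

theorem finrank_barQ (T : Submodule ℚ ℂ) : finrank ℚ (barQ T) = finrank ℚ T :=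
  LinearEquiv.finrank_map_eq cj.toLinearEquiv T

theorem fd_barQ {T : Submodule ℚ ℂ} (hT : FiniteDimensional ℚ T) : FiniteDimensional ℚ (barQ T) := by
  unfold barQ
  infer_instance

/-- the conjugate pair -/
def barP (V : Pr L) : Pr L := (barQ V.1, bar ckL V.2)

theorem barP_barP (V : Pr L) : barP (barP V) = V := by
  refine Prod.ext ?_ (bar_bar V.2)
  ext x
  change x ∈ barQ (barQ V.1) ↔ _
  rw [mem_barQ, mem_barQ, Complex.conj_conj]

theorem barP_mono {V W : Pr L} (h : V ≤ W) : barP V ≤ barP W :=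
  ⟨fun _ hx => mem_barQ.mpr (h.1 (mem_barQ.mp hx)), fun _ hx => h.2 hx⟩

theorem barP_inf (V W : Pr L) : barP (V ⊓ W) = barP V ⊓ barP W := by
  refine Prod.ext ?_ rfl
  ext x
  change x ∈ barQ (V.1 ⊓ W.1) ↔ x ∈ barQ V.1 ∧ x ∈ barQ W.1
  rw [mem_barQ, mem_barQ, mem_barQ]
  rfl

theorem base_le_barP (hL : ∀ w ∈ L.lattice, conj w ∈ L.lattice) : base L ≤ barP (base L) := by
  constructor
  · change P₁ ≤ barQ P₁
    unfold P₁
    rw [Submodule.span_singleton_le_iff_mem, mem_barQ, Submodule.mem_span_singleton]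
    refine ⟨-1, ?_⟩
    have h2 : (starRingEnd ℂ) 2 = 2 := map_ofNat (starRingEnd ℂ) 2
    unfold per
    simp [h2]
  · change P₂ L ≤ bar ckL (P₂ L)
    rintro x ⟨m, hm, hx⟩
    rw [mem_bar]
    refine ⟨m, hm, ?_⟩
    have h1 := hL _ hx
    rwa [map_mul, map_natCast] at h1

theorem NN_bar (hL : ∀ w ∈ L.lattice, conj w ∈ L.lattice) (V : Pr L) : cj '' NN L (barP V) ⊆ NN L V := by
  rintro _ ⟨x, hx, rfl⟩
  rw [cj_apply]
  rcases hx with (rfl | rfl) | ((hx | ⟨y, hy, rfl⟩) | (hx | (⟨y, ⟨hy, hyL⟩, rfl⟩ | ⟨y, ⟨hy, hyL⟩, rfl⟩)))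
  · left; left
    rw [PeriodPair.g₂, map_mul, conj_G hL, map_ofNat (starRingEnd ℂ) 60]
  · left; right
    rw [PeriodPair.g₃, map_mul, conj_G hL, map_ofNat (starRingEnd ℂ) 140]
    rfl
  · exact Or.inr (Or.inl (Or.inl (mem_barQ.mp hx)))
  · rw [← Complex.exp_conj]
    exact Or.inr (Or.inl (Or.inr ⟨_, mem_barQ.mp hy, rfl⟩))
  · exact Or.inr (Or.inr (Or.inl hx))
  · change (starRingEnd ℂ) (ζ L y) ∈ _
    rw [← conj_zeta hL]
    exact Or.inr (Or.inr (Or.inr (Or.inl ⟨_, ⟨hy, conj_notMem hL hyL⟩, rfl⟩)))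
  · rw [← conj_wp hL]
    exact Or.inr (Or.inr (Or.inr (Or.inr ⟨_, ⟨hy, conj_notMem hL hyL⟩, rfl⟩)))

theorem rk_barP (hL : ∀ w ∈ L.lattice, conj w ∈ L.lattice) (V : Pr L) :
    Q241.SX.M.eRk (NN L (barP V)) = Q241.SX.M.eRk (NN L V) := by
  have key : ∀ V : Pr L, Q241.SX.M.eRk (NN L (barP V)) ≤ Q241.SX.M.eRk (NN L V) :=
    fun V => (eRk_image_le _).trans (Q241.SX.M.eRk_mono (NN_bar hL V))
  apply le_antisymm (key V)
  have h1 := key (barP V)
  rwa [barP_barP] at h1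

theorem fin_barP (hL : ∀ w ∈ L.lattice, conj w ∈ L.lattice) {V : Pr L} (hV : fin₂ L V) : fin₂ L (barP V) := by
  have h2 := hV.2.2
  exact ⟨(base_le_barP hL).trans (barP_mono hV.1), fd_barQ hV.2.1, fin_bar ckL V.2⟩

theorem dfc_barP (hL : ∀ w ∈ L.lattice, conj w ∈ L.lattice) {V : Pr L} (hV : fin₂ L V) :
    Bs.LSys.dfc (A := ETSys L) (barP V) = Bs.LSys.dfc (A := ETSys L) V := by
  have h0 := hV.2.2
  have h1 := finrank_bar ckL V.2
  have h2 := rk_barP hL V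
  have h3 := finrank_barQ V.1
  unfold Bs.LSys.dfc Bs.LSys.rk
  change ((finrank ℚ (barQ V.1) + 2 * finrank (kL L) (bar ckL V.2) : ℕ) : ℤ) -
    ((Q241.SX.M.eRk (NN L (barP V))).toNat : ℤ) =
    ((finrank ℚ V.1 + 2 * finrank (kL L) V.2 : ℕ) : ℤ) - ((Q241.SX.M.eRk (NN L V)).toNat : ℤ)
  rw [h1, h2, h3]

/-- **The canonical pair of a lattice stable under complex conjugation is stable under complex conjugation.** -/
theorem conj_CP (hL : ∀ w ∈ L.lattice, conj w ∈ L.lattice) :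
    (∀ t ∈ (CP L).1, conj t ∈ (CP L).1) ∧ ∀ z ∈ (CP L).2, conj z ∈ (CP L).2 := by
  have h0 : base L ≤ barP (CP L) := (base_le_barP hL).trans (barP_mono base_le_CP)
  have h1 : CP L ≤ barP (CP L) := by
    refine CP_le h0 ((exact₂_iff h0).mpr fun V hV => ?_)
    have h2 := conc_CP (barP V) (fin_barP hL hV)
    rw [dfc_barP hL hV] at h2
    have h3 : barP V ⊓ CP L = barP (V ⊓ barP (CP L)) := by
      rw [barP_inf, barP_barP]
    have h4 : fin₂ L (V ⊓ barP (CP L)) :=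
      ⟨le_inf hV.1 h0, fd_le hV.2.1 inf_le_left, fd_le hV.2.2 inf_le_left⟩
    rw [h3, dfc_barP hL h4] at h2
    exact h2
  exact ⟨fun t ht => mem_barQ.mp (h1.1 ht), fun z hz => h1.2 hz⟩

end Pool.Agent.Q280.ML
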