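import Pool.Agent.Q280.ML.EllX
import Pool.Agent.Y685.G9
import Pool.Agent.H340R2.LW

/-!
# Exactness over the points of a closed field
-/

set_option autoImplicit false

open Matroid Set Module
open scoped PeriodPair ComplexConjugate

noncomputable section

namespace Pool.Agent.Q280.ML

open H667R3 Pool.Agent.W245.EB Pool.Agent.TH813.Ell
open Pool.Agent.TH813.Core
open Pool.Agent.TH813.Rel (DF MK subset_cl rk_le_of_subset_cl mem_cl)
open Pool.Agent.Y776.Et (ζ)
open Pool.Agent.Y685 (Fld LK Hm IFd EP EP_finite clo mem_clo rank_add rank_mono_base)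

variable {L L' : PeriodPair} {c : ℂ} {K : Subfield ℂ}

/-- the points which lie in a closed field after a scaling -/
def inF (h : Hm L L' c) (hL' : L' ∈ LK K) : Submodule (kL L) ℂ where
  carrier := {x | c * x ∈ K}
  add_mem' := fun {a b} ha hb => by
    rw [Set.mem_ofPred_eq] at ha hb ⊢
    rw [mul_add]; exact add_mem ha hb
  zero_mem' := by
    rw [Set.mem_ofPred_eq, mul_zero]; exact zero_mem K
  smul_mem' := fun a x hx => by
    rw [Set.mem_ofPred_eq] at hx ⊢
    have e : c * (a • x) = (a : ℂ) * (c * x) := by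
      change c * ((a : ℂ) * x) = _
      ring
    rw [e]
    exact mul_mem (Pool.Agent.Y685.kL_mem hL' (h.kL.2 a.2)) hx

theorem mem_inF (h : Hm L L' c) (hL' : L' ∈ LK K) {x : ℂ} : x ∈ inF h hL' ↔ c * x ∈ K := Iff.rfl

theorem zeta_eq {z : ℂ} (hz : z ∉ L.lattice) : ζ L z = zt L z := (zt_of_notMem hz).symm

theorem pts_eq {n : ℕ} {p : Fin n → ℂ} (hp : ∀ i, p i ∉ L.lattice) : pts L p = EP L p := by
  ext x
  constructor
  · intro hx
    obtain ⟨i, rfl | rfl | hx⟩ := mem_iUnion.mp hx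
    · exact Or.inl ⟨i, rfl⟩
    · exact Or.inr (Or.inr ⟨i, rfl⟩)
    · rw [mem_singleton_iff.mp hx, zeta_eq (hp i)]
      exact Or.inr (Or.inl ⟨i, rfl⟩)
  · rintro (⟨i, rfl⟩ | ⟨i, rfl⟩ | ⟨i, rfl⟩)
    · exact mem_iUnion.mpr ⟨i, Or.inl rfl⟩
    · exact mem_iUnion.mpr ⟨i, Or.inr (Or.inr (mem_singleton_iff.mpr (zeta_eq (hp i)).symm))⟩
    · exact mem_iUnion.mpr ⟨i, Or.inr (Or.inl rfl)⟩

theorem der_mul {D : Derivation ℚ ℂ ℂ} {a b : ℂ} (ha : D a = 0) (hb : D b = 0) : D (a * b) = 0 := by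
  rw [Derivation.leibniz, ha, hb, smul_zero, smul_zero, add_zero]

theorem der_pow {D : Derivation ℚ ℂ ℂ} {a : ℂ} (ha : D a = 0) (m : ℕ) : D (a ^ m) = 0 := by
  rw [Derivation.leibniz_pow, ha, smul_zero, smul_zero]

theorem der_div {D : Derivation ℚ ℂ ℂ} {a b : ℂ} (ha : D a = 0) (hb : D b = 0) : D (a / b) = 0 := by
  rw [Derivation.leibniz_div, ha, hb]
  simp

/-- **Exactness over the points of a closed field.** -/
theorem exact_inF (hK : Fld K) (h : Hm L L' c) (hL' : L' ∈ LK K) : Exact L (inF h hL') := by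
  intro n p hp hi
  have hc0 := h.c0
  have key : ((2 * n : ℕ) : ℕ∞) ≤ (MK (clo (IFd K) {c})).eRk (EP L p) := by
    rcases Nat.eq_zero_or_pos n with hn | hn
    · have h0 : ((2 * n : ℕ) : ℕ∞) = 0 := by rw [hn]; rfl
      rw [h0]
      exact bot_le
    · have hz : ∀ a : Fin n → ℂ, (∀ i, a i ∈ kL L') → ∑ i, a i * (c * p i) ∈ K → a = 0 := by
        intro a ha hs
        have h1 : ∑ i, (⟨a i, h.kL.1 (ha i)⟩ : kL L) • (inF h hL').mkQ (p i) = 0 := by
          have h2 : (inF h hL').mkQ (∑ i, (⟨a i, h.kL.1 (ha i)⟩ : kL L) • p i) = 0 := by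
            refine (Submodule.Quotient.mk_eq_zero _).mpr ((mem_inF h hL').mpr ?_)
            have h3 : c * ∑ i, (⟨a i, h.kL.1 (ha i)⟩ : kL L) • p i = ∑ i, a i * (c * p i) := by
              rw [Finset.mul_sum]
              refine Finset.sum_congr rfl fun i _ => ?_
              change c * (a i * p i) = _
              ring
            rw [h3]
            exact hs
          rw [map_sum] at h2
          simpa only [map_smul] using h2
        have h2 := Fintype.linearIndependent_iff.mp hi _ h1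
        funext i
        exact congrArg Subtype.val (h2 i)
      have h1 := hK.fix (s := 0) hL' (z := fun i => c * p i) (t := ![]) hz
        (fun _ _ => Subsingleton.elim _ _) (by omega)
      have h2 : (Pool.Agent.Y776.ET (![] : Fin 0 → ℂ) ∪ EP L' (fun i => c * p i)) = EP L' (fun i => c * p i) := by
        apply Set.union_eq_self_of_subset_left
        rintro x (⟨i, -⟩ | ⟨i, -⟩) <;> exact i.elim0
      rw [h2] at h1
      have h3 : (MK (IFd K)).eRk (EP L' (fun i => c * p i)) ≤ (MK (IFd K)).eRk ({c} ∪ EP L p) := by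
        apply rk_le_of_subset_cl
        intro x hx
        rw [mem_cl_iff]
        intro D _ hS
        have hDc : D c = 0 := hS _ (Or.inl rfl)
        rcases hx with ⟨i, rfl⟩ | ⟨i, rfl⟩ | ⟨i, rfl⟩
        · exact der_mul hDc (hS _ (Or.inr (Or.inl ⟨i, rfl⟩)))
        · change D (zt L' (c * p i)) = 0
          rw [h.zt]
          exact der_div (hS _ (Or.inr (Or.inr (Or.inl ⟨i, rfl⟩)))) hDc
        · change D (℘[L'] (c * p i)) = 0
          rw [h.wp]
          exact der_div (hS _ (Or.inr (Or.inr (Or.inr ⟨i, rfl⟩)))) (der_pow hDc 2)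
      rw [rank_add (finite_singleton c) (EP_finite p)] at h3
      have h4 : (MK (IFd K)).eRk {c} ≤ 1 := Matroid.eRk_singleton_le _ _
      have h5 := h1.trans (h3.trans (add_le_add_left h4 _))
      have h6 : ((0 + 2 * n + 1 : ℕ) : ℕ∞) = 1 + ((2 * n : ℕ) : ℕ∞) := by
        push_cast
        ring
      rw [h6] at h5
      exact (ENat.add_le_add_iff_left (by simp)).mp h5
  have sub : IntermediateField.adjoin ℚ (Nums L (inF h hL')) ≤ clo (IFd K) {c} := by
    rw [IntermediateField.adjoin_le_iff]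
    intro x hx
    refine mem_clo.mpr fun D hD hS => ?_
    have hDc : D c = 0 := hS c rfl
    have hDK : ∀ y ∈ K, D y = 0 := fun y hy => hD y hy
    rcases hx with (rfl | rfl) | hx | ⟨w, ⟨hw, hwL⟩, rfl⟩ | ⟨w, ⟨hw, hwL⟩, rfl⟩
    · have e : L.g₂ = L'.g₂ * c ^ 4 := by
        rw [h.g₂]
        field_simp
      rw [e]
      exact der_mul (hDK _ (hK.g₂ _ hL')) (der_pow hDc 4)
    · have e : L.g₃ = L'.g₃ * c ^ 6 := by
        rw [h.g₃]
        field_simp
      rw [e]
      exact der_mul (hDK _ (hK.g₃ _ hL')) (der_pow hDc 6)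
    · have e : x = (c * x) / c := by field_simp
      rw [e]
      exact der_div (hDK _ hx) hDc
    · have e : ζ L w = zt L' (c * w) * c := by
        rw [h.zt, zeta_eq hwL]
        field_simp
      rw [e]
      exact der_mul (hDK _ (hK.zt _ hL' _ hw)) hDc
    · have e : ℘[L] w = ℘[L'] (c * w) * c ^ 2 := by
        rw [h.wp]
        field_simp
      rw [e]
      exact der_mul (hDK _ (hK.wp _ hL' _ hw)) (der_pow hDc 2)
  have h1 := key.trans (rank_mono_base sub (EP_finite (L := L) p))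
  rw [← pts_eq hp] at h1
  exact Pool.Agent.Q280.MD.exists_of_le_eRk_MO h1

theorem CB_le_inF (hK : Fld K) (h : Hm L L' c) (hL' : L' ∈ LK K) {z : ℂ} (hz : z ∈ CB L) : c * z ∈ K :=
  CB_le (exact_inF hK h hL') hz

/-- **The canonical subspace is countable.** -/
theorem countable_CB (L : PeriodPair) : (CB L : Set ℂ).Countable := by
  obtain ⟨K, hK, hS⟩ := Pool.Agent.Y685.exists_Fld (S := {L.ω₁, L.ω₂}) (Set.toFinite _).countable
  have h := Pool.Agent.Y685.Hm_scl L (one_ne_zero (α := ℂ))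
  have hL' : Pool.Agent.Y685.scl L 1 one_ne_zero ∈ LK K := by
    refine ⟨?_, ?_⟩
    · change 1 * L.ω₁ ∈ K
      rw [one_mul]
      exact hS (Or.inl rfl)
    · change 1 * L.ω₂ ∈ K
      rw [one_mul]
      exact hS (Or.inr rfl)
  refine hK.cnt.mono fun z hz => ?_
  have := CB_le_inF hK h hL' hz
  rwa [one_mul] at this

/-- **A countable set for all lattices.** -/
theorem uniform_CB : ∃ F : Set ℂ, F.Countable ∧ ∀ L : PeriodPair,
    (Pool.Agent.Y685.jv L ∈ F → ∃ c : ℂ, c ≠ 0 ∧ c * L.ω₁ ∈ F ∧ c * L.ω₂ ∈ F ∧ ∀ z ∈ CB L, c * z ∈ F) ∧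
    (Pool.Agent.Y685.jv L ∉ F → ∀ (n : ℕ) (p : Fin n → ℂ), (∀ i, p i ∉ L.lattice) → LinearIndependent ℚ p →
      ((2 * n + 1 : ℕ) : ℕ∞) ≤ Q241.SX.M.eRk ({L.g₂, L.g₃} ∪ pts L p)) := by
  obtain ⟨J, hJ, hJ2⟩ := Pool.Agent.Y685.main_trdeg ℚ
  obtain ⟨K, hK, hS⟩ := Pool.Agent.Y685.exists_Fld hJ
  refine ⟨K, hK.cnt, fun L => ⟨fun hj => ?_, fun hj n p hp hi => ?_⟩⟩
  · obtain ⟨L', c, h, hL', -⟩ := Pool.Agent.Y685.exists_norm hK hj
    have hω : ∀ w ∈ L.lattice, c * w ∈ K := fun w hw => Pool.Agent.Y685.lat_mem hL' ((h.mem w).2 hw)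
    exact ⟨c, h.c0, hω _ L.ω₁_mem_lattice, hω _ L.ω₂_mem_lattice, fun z hz => CB_le_inF hK h hL' hz⟩
  · have h1 := hJ2 L (fun h => hj (hS h)) n p hp hi
    rw [← Pool.Agent.Y685.Numb_eq hp, ← pts_eq hp] at h1
    have h2 : (1 : Cardinal) ≤ Algebra.trdeg ℚ (IntermediateField.adjoin ℚ {(Real.pi : ℂ)}) := by
      have h3 : AlgebraicIndependent ℚ (fun _ : Unit =>
          (⟨(Real.pi : ℂ), IntermediateField.subset_adjoin ℚ _ rfl⟩ :
            IntermediateField.adjoin ℚ {(Real.pi : ℂ)})) := by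
        rw [algebraicIndependent_unique_type_iff]
        intro h4
        have h5 : IsAlgebraic ℚ (Real.pi : ℂ) := by
          have := h4.algHom (IntermediateField.adjoin ℚ {(Real.pi : ℂ)}).val
          exact this
        exact Pool.Agent.H340R2.LW.transcendental_pi_complex h5
      simpa using h3.cardinalMk_le_trdeg
    have h3 := (add_le_add_right h2 _).trans h1
    have h4 : ((2 * n + 1 : ℕ) : Cardinal) ≤
        Algebra.trdeg ℚ (IntermediateField.adjoin ℚ ({L.g₂, L.g₃} ∪ pts L p)) := by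
      refine le_trans ?_ h3
      push_cast
      exact le_rfl
    have h5 := Cardinal.natCast_le_toENat.mpr h4
    exact h5.trans_eq (Pool.Agent.TH813.Rel.toENat_trdeg (k := ℚ) ({L.g₂, L.g₃} ∪ pts L p))

end Pool.Agent.Q280.ML
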