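import Pool.Agent.Q280.ML.ETX
import Pool.Agent.Q280.ML.EllF

/-!
# Exactness over the pairs of a closed field; conjugation
-/

set_option autoImplicit false

open Matroid Set Module
open scoped PeriodPair ComplexConjugate

noncomputable section

namespace Pool.Agent.Q280.ML

open H667R3 Pool.Agent.W245.EB Pool.Agent.TH813.Ell
open Pool.Agent.W252 Pool.Agent.W669.Gel
open Pool.Agent.TH813.Core
open Pool.Agent.TH813.Rel (DF MK subset_cl rk_le_of_subset_cl mem_cl)
open Pool.Agent.Y776.Et (ζ)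
open Pool.Agent.Y685 (Fld LK Hm IFd EP EP_finite clo mem_clo rank_add rank_mono_base)

variable {L L' : PeriodPair} {c : ℂ} {K : Subfield ℂ}

/-- the closed field as a rational space -/
def inT (K : Subfield ℂ) : Submodule ℚ ℂ where
  carrier := K
  add_mem' := fun ha hb => K.add_mem ha hb
  zero_mem' := K.zero_mem
  smul_mem' := fun q x hx => by
    rw [Rat.smul_def]
    exact K.mul_mem (SubfieldClass.ratCast_mem K q) hx

theorem base_le_in (hK : Fld K) (h : Hm L L' c) (hL' : L' ∈ LK K) : base L ≤ (inT K, inF h hL') := by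
  constructor
  · change P₁ ≤ inT K
    unfold P₁
    rw [Submodule.span_singleton_le_iff_mem]
    exact hK.pi
  · change P₂ L ≤ inF h hL'
    rintro x ⟨m, hm, hx⟩
    rw [mem_inF]
    have hm0 : (m : ℂ) ≠ 0 := by exact_mod_cast hm.ne'
    have h1 := Pool.Agent.Y685.lat_mem hL' ((h.mem _).2 hx)
    have h2 : c * x = (c * (m * x)) / m := by field_simp
    rw [h2]
    exact div_mem h1 (natCast_mem K m)

theorem ex_eq {s : ℕ} (t : Fin s → ℂ) : ex t = Pool.Agent.Y776.ET t := by
  ext x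
  constructor
  · intro hx
    obtain ⟨i, rfl | hx⟩ := mem_iUnion.mp hx
    · exact Or.inl ⟨i, rfl⟩
    · exact Or.inr ⟨i, (mem_singleton_iff.mp hx).symm⟩
  · rintro (⟨i, rfl⟩ | ⟨i, rfl⟩)
    · exact mem_iUnion.mpr ⟨i, Or.inl rfl⟩
    · exact mem_iUnion.mpr ⟨i, Or.inr rfl⟩

/-- **Exactness over the pairs of a closed field.** -/
theorem exact_in (hK : Fld K) (h : Hm L L' c) (hL' : L' ∈ LK K) : Exact₂ L (inT K, inF h hL') := by
  intro s n t p hp hti hpi
  have hc0 := h.c0
  have hfin : (ex t ∪ pts L p).Finite := (ex_finite t).union (pts_finite p)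
  have key : ((s + 2 * n : ℕ) : ℕ∞) ≤ (MK (clo (IFd K) {c})).eRk (ex t ∪ pts L p) := by
    rcases Nat.eq_zero_or_pos (s + n) with hn | hn
    · have h0 : ((s + 2 * n : ℕ) : ℕ∞) = 0 := by
        have : s + 2 * n = 0 := by omega
        rw [this]; rfl
      rw [h0]
      exact bot_le
    · have hz : ∀ a : Fin n → ℂ, (∀ i, a i ∈ kL L') → ∑ i, a i * (c * p i) ∈ K → a = 0 := by
        intro a ha hs
        have h1 : ∑ i, (⟨a i, h.kL.1 (ha i)⟩ : kL L) • (inF h hL').mkQ (p i) = 0 := by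
          have h2 : (inF h hL').mkQ (∑ i, (⟨a i, h.kL.1 (ha i)⟩ : kL L) • p i) = 0 := by
            refine (Submodule.Quotient.mk_eq_zero _).mpr ((mem_inF h hL').mpr ?_)
            have h3 : c * ∑ i, (⟨a i, h.kL.1 (ha i)⟩ : kL L) • p i = ∑ i, a i * (c * p i) := by
              rw [Finset.mul_sum]
              refine Finset.sum_congr rfl fun i _ => ?_
              change c * (a i * p i) = _
              ring
            rw [h3]
            exact hs
          rw [map_sum] at h2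
          simpa only [map_smul] using h2
        have h2 := Fintype.linearIndependent_iff.mp hpi _ h1
        funext i
        exact congrArg Subtype.val (h2 i)
      have ht : ∀ q : Fin s → ℚ, ∑ l, q l • t l ∈ K → q = 0 := by
        intro q hs
        have h1 : ∑ i, q i • (inT K).mkQ (t i) = 0 := by
          have h2 : (inT K).mkQ (∑ i, q i • t i) = 0 := (Submodule.Quotient.mk_eq_zero _).mpr hs
          rw [map_sum] at h2
          simpa only [map_smul] using h2
        have h2 := Fintype.linearIndependent_iff.mp hti _ h1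
        exact funext h2
      have h1 := hK.fix (s := s) hL' (z := fun i => c * p i) (t := t) hz ht hn
      have h3 : (MK (IFd K)).eRk (Pool.Agent.Y776.ET t ∪ EP L' (fun i => c * p i)) ≤
          (MK (IFd K)).eRk ({c} ∪ (ex t ∪ pts L p)) := by
        apply rk_le_of_subset_cl
        intro x hx
        rw [mem_cl_iff]
        intro D _ hS
        have hDc : D c = 0 := hS _ (Or.inl rfl)
        have hE : ∀ y ∈ EP L p, D y = 0 := fun y hy => hS y (Or.inr (Or.inr (by rw [pts_eq hp]; exact hy)))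
        rcases hx with hx | ⟨i, rfl⟩ | ⟨i, rfl⟩ | ⟨i, rfl⟩
        · exact hS _ (Or.inr (Or.inl (by rw [ex_eq]; exact hx)))
        · exact der_mul hDc (hE _ (Or.inl ⟨i, rfl⟩))
        · change D (zt L' (c * p i)) = 0
          rw [h.zt]
          exact der_div (hE _ (Or.inr (Or.inl ⟨i, rfl⟩))) hDc
        · change D (℘[L'] (c * p i)) = 0
          rw [h.wp]
          exact der_div (hE _ (Or.inr (Or.inr ⟨i, rfl⟩))) (der_pow hDc 2)
      rw [rank_add (finite_singleton c) hfin] at h3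
      have h4 : (MK (IFd K)).eRk {c} ≤ 1 := Matroid.eRk_singleton_le _ _
      have h5 := h1.trans (h3.trans (add_le_add_left h4 _))
      have h6 : ((s + 2 * n + 1 : ℕ) : ℕ∞) = 1 + ((s + 2 * n : ℕ) : ℕ∞) := by
        push_cast
        ring
      rw [h6] at h5
      exact (ENat.add_le_add_iff_left (by simp)).mp h5
  have sub : IntermediateField.adjoin ℚ (NN L (inT K, inF h hL')) ≤ clo (IFd K) {c} := by
    rw [IntermediateField.adjoin_le_iff]
    intro x hx
    refine mem_clo.mpr fun D hD hS => ?_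
    have hDc : D c = 0 := hS c rfl
    have hDK : ∀ y ∈ K, D y = 0 := fun y hy => hD y hy
    rcases hx with (rfl | rfl) | (hx | ⟨w, hw, rfl⟩) | hx | ⟨w, ⟨hw, hwL⟩, rfl⟩ | ⟨w, ⟨hw, hwL⟩, rfl⟩
    · have e : L.g₂ = L'.g₂ * c ^ 4 := by
        rw [h.g₂]
        field_simp
      rw [e]
      exact der_mul (hDK _ (hK.g₂ _ hL')) (der_pow hDc 4)
    · have e : L.g₃ = L'.g₃ * c ^ 6 := by
        rw [h.g₃]
        field_simp
      rw [e]
      exact der_mul (hDK _ (hK.g₃ _ hL')) (der_pow hDc 6)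
    · exact hDK _ hx
    · exact hDK _ (hK.exp _ hw)
    · have e : x = (c * x) / c := by field_simp
      rw [e]
      exact der_div (hDK _ hx) hDc
    · have e : ζ L w = zt L' (c * w) * c := by
        rw [h.zt, zeta_eq hwL]
        field_simp
      change D (ζ L w) = 0
      rw [e]
      exact der_mul (hDK _ (hK.zt _ hL' _ hw)) hDc
    · have e : ℘[L] w = ℘[L'] (c * w) * c ^ 2 := by
        rw [h.wp]
        field_simp
      rw [e]
      exact der_mul (hDK _ (hK.wp _ hL' _ hw)) (der_pow hDc 2)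
  exact Pool.Agent.Q280.MD.exists_of_le_eRk_MO (key.trans (rank_mono_base sub hfin))

theorem CP_le_in (hK : Fld K) (h : Hm L L' c) (hL' : L' ∈ LK K) :
    (∀ t ∈ (CP L).1, t ∈ K) ∧ ∀ z ∈ (CP L).2, c * z ∈ K := by
  have h1 := CP_le (base_le_in hK h hL') (exact_in hK h hL')
  exact ⟨fun t ht => h1.1 ht, fun z hz => h1.2 hz⟩

/-- **The canonical pair is countable.** -/
theorem countable_CP (L : PeriodPair) : ((CP L).1 : Set ℂ).Countable ∧ ((CP L).2 : Set ℂ).Countable := by
  obtain ⟨K, hK, hS⟩ := Pool.Agent.Y685.exists_Fld (S := {L.ω₁, L.ω₂}) (Set.toFinite _).countable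
  have h := Pool.Agent.Y685.Hm_scl L (one_ne_zero (α := ℂ))
  have hL' : Pool.Agent.Y685.scl L 1 one_ne_zero ∈ LK K := by
    refine ⟨?_, ?_⟩
    · change 1 * L.ω₁ ∈ K
      rw [one_mul]
      exact hS (Or.inl rfl)
    · change 1 * L.ω₂ ∈ K
      rw [one_mul]
      exact hS (Or.inr rfl)
  have h1 := CP_le_in hK h hL'
  refine ⟨hK.cnt.mono fun t ht => h1.1 t ht, hK.cnt.mono fun z hz => ?_⟩
  have := h1.2 z hz
  rwa [one_mul] at this

/-- **A countable set for all lattices.** -/
theorem uniform_CP : ∃ F : Set ℂ, F.Countable ∧ ∀ L : PeriodPair, Pool.Agent.Y685.jv L ∈ F →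
    (∀ t ∈ (CP L).1, t ∈ F) ∧
    ∃ c : ℂ, c ≠ 0 ∧ c * L.ω₁ ∈ F ∧ c * L.ω₂ ∈ F ∧ ∀ z ∈ (CP L).2, c * z ∈ F := by
  obtain ⟨K, hK, -⟩ := Pool.Agent.Y685.exists_Fld (S := ∅) Set.countable_empty
  refine ⟨K, hK.cnt, fun L hj => ?_⟩
  obtain ⟨L', c, h, hL', -⟩ := Pool.Agent.Y685.exists_norm hK hj
  have hω : ∀ w ∈ L.lattice, c * w ∈ K := fun w hw => Pool.Agent.Y685.lat_mem hL' ((h.mem w).2 hw)
  have h1 := CP_le_in hK h hL'
  exact ⟨h1.1, c, h.c0, hω _ L.ω₁_mem_lattice, hω _ L.ω₂_mem_lattice, h1.2⟩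

end Pool.Agent.Q280.ML
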