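import Pool.Agent.Q280.ML.Ell
import Pool.Agent.Q280.SD.B

/-!
# Exactness over a space of elliptic logarithms
-/

set_option autoImplicit false

open Matroid Set Module
open scoped PeriodPair ComplexConjugate

noncomputable section

namespace Pool.Agent.Q280.ML

open H667R3 Pool.Agent.W245.EB Pool.Agent.TH813.Ell
open Pool.Agent.TH813.Core
open Pool.Agent.Y776.Et (ζ)

variable {L : PeriodPair}

/-- exactness over a subspace -/
def Exact (L : PeriodPair) (B : Submodule (kL L) ℂ) : Prop :=
  ∀ (n : ℕ) (p : Fin n → ℂ), (∀ i, p i ∉ L.lattice) → LinearIndependent (kL L) (fun i => B.mkQ (p i)) →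
    ∃ w : Fin (2 * n) → ℂ, (∀ l, w l ∈ pts L p) ∧
      AlgebraicIndependent (IntermediateField.adjoin ℚ (Nums L B)) w

/-- concentration of the defect -/
def Conc (L : PeriodPair) (B : Submodule (kL L) ℂ) : Prop :=
  ∀ V : Submodule (kL L) ℂ, FiniteDimensional (kL L) V →
    LSys.dfc (A := EllSys L) V ≤ LSys.dfc (A := EllSys L) (V ⊓ B)

theorem pts_sub {n : ℕ} {p : Fin n → ℂ} (hp : ∀ i, p i ∉ L.lattice) {V : Submodule (kL L) ℂ} (hV : ∀ i, p i ∈ V) :
    pts L p ⊆ Nums L V := by
  intro x hx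
  obtain ⟨i, rfl | rfl | hx⟩ := mem_iUnion.mp hx
  · exact Or.inr (Or.inl (hV i))
  · exact Or.inr (Or.inr (Or.inr ⟨p i, ⟨hV i, hp i⟩, rfl⟩))
  · rw [mem_singleton_iff.mp hx]
    exact Or.inr (Or.inr (Or.inl ⟨p i, ⟨hV i, hp i⟩, rfl⟩))

theorem exact_iff {B : Submodule (kL L) ℂ} : Exact L B ↔ Conc L B := by
  constructor
  · intro h V hV
    obtain ⟨Y, hY1, hY2, hY3⟩ := exists_cpl hV (inf_le_left : V ⊓ B ≤ V)
    have hYf : FiniteDimensional (kL L) Y := fd_le hV hY1
    obtain ⟨p, h1, h2, h3⟩ := exists_basis_off (L := L) Y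
    have h4 := span_eq hYf h1 h2
    have h5 : Submodule.span (kL L) (range p) ⊓ B = ⊥ := by
      rw [h4, eq_bot_iff, ← hY2]
      exact le_inf inf_le_left (le_inf (inf_le_left.trans hY1) inf_le_right)
    obtain ⟨w, h6, h7⟩ := h _ p h3 (li_of_inf_bot h1 h5)
    refine LSys.concentrated_of_family (A := EllSys L) hV (m := 2 * finrank (kL L) Y) ?_ w (fun k => ?_) h7
    · change 2 * finrank (kL L) V = 2 * finrank (kL L) (V ⊓ B : Submodule (kL L) ℂ) + 2 * finrank (kL L) Y
      omega
    · exact Matroid.mem_closure_of_mem _ (pts_sub h3 (fun i => hY1 (h2 i)) (h6 k)) (by simp)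
  · intro h n p hp hi
    have h1 := inf_span_eq_bot hi
    have h2 : LinearIndependent (kL L) p := li_of_mod hi
    have h3 : finrank (kL L) (Submodule.span (kL L) (range p)) = n := by
      rw [finrank_span_eq_card h2, Fintype.card_fin]
    obtain ⟨v, h4, h5⟩ := LSys.family_of_concentrated (A := EllSys L) (B := B) h
      (Q := Submodule.span (kL L) (range p)) (fd_span (finite_range p)) h1
      (show 2 * finrank (kL L) (⊥ : Submodule (kL L) ℂ) = 0 by rw [finrank_bot]) (pts_finite (L := L) p) (Nums_span hp)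
    have h6 : LSys.w (EllSys L) (Submodule.span (kL L) (range p)) = 2 * n := by
      change 2 * finrank (kL L) (Submodule.span (kL L) (range p)) = 2 * n
      rw [h3]
    exact ⟨v ∘ Fin.cast h6.symm, fun l => h4 _, h5.comp _ (Fin.cast_injective _)⟩

/-- the canonical subspace -/
def CB (L : PeriodPair) : Submodule (kL L) ℂ :=
  Core (X := (EllSys L).X) (EllSys L).fin (LSys.dfc (A := EllSys L))

theorem exact_CB : Exact L (CB L) :=
  exact_iff.mpr fun _ hV => le_inf_core (LSys.sm (A := EllSys L)) hV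

theorem CB_le {B : Submodule (kL L) ℂ} (hB : Exact L B) : CB L ≤ B :=
  core_min (X := (EllSys L).X) (exact_iff.mp hB)

/-- the numbers of the zero space -/
theorem Nums_bot : Nums L ((⊥ : Submodule (kL L) ℂ) : Set ℂ) = {L.g₂, L.g₃} ∪ {0} := by
  have h1 : ({0} : Set ℂ) \ (L.lattice : Set ℂ) = ∅ := by
    rw [sdiff_eq_empty, singleton_subset_iff]
    exact L.lattice.zero_mem
  unfold Nums
  rw [Submodule.bot_coe, h1, image_empty, image_empty, union_empty, union_empty]

/-- the rank of the numbers of points -/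
theorem rk_span {n : ℕ} {p : Fin n → ℂ} (hp : ∀ i, p i ∉ L.lattice) :
    Q241.SX.M.eRk (Nums L (Submodule.span (kL L) (range p))) = Q241.SX.M.eRk ({L.g₂, L.g₃} ∪ pts L p) := by
  apply le_antisymm
  · rw [← Q241.SX.M.eRk_closure_eq ({L.g₂, L.g₃} ∪ pts L p)]
    refine Q241.SX.M.eRk_mono ((Nums_span hp).trans (Q241.SX.M.closure_subset_closure_of_subset_closure ?_))
    rw [Nums_bot]
    rintro x (hx | (hx | hx))
    · exact Matroid.mem_closure_of_mem _ (Or.inr hx) (by simp)
    · exact Matroid.mem_closure_of_mem _ (Or.inl hx) (by simp)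
    · rw [mem_singleton_iff.mp hx]
      exact Q88.ETO.cl_alg isAlgebraic_zero
  · refine Q241.SX.M.eRk_mono (union_subset (fun x hx => Or.inl hx) (pts_sub hp fun i => ?_))
    exact Submodule.subset_span ⟨i, rfl⟩

/-- the bound for all points in terms of spaces -/
theorem bound_iff (C : ℕ) :
    (∀ (n : ℕ) (p : Fin n → ℂ), (∀ i, p i ∉ L.lattice) → LinearIndependent (kL L) p →
      ((2 * n : ℕ) : ℕ∞) ≤ Q241.SX.M.eRk ({L.g₂, L.g₃} ∪ pts L p) + C) ↔
    ∀ V : Submodule (kL L) ℂ, FiniteDimensional (kL L) V → LSys.dfc (A := EllSys L) V ≤ C := by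
  constructor
  · intro h V hV
    obtain ⟨p, h1, h2, h3⟩ := exists_basis_off (L := L) V
    have h4 := h _ p h3 h1
    rw [← rk_span h3, span_eq hV h1 h2] at h4
    have h5 := LSys.coe_rk (A := EllSys L) (V := V) hV
    rw [← h5] at h4
    have h6 : 2 * finrank (kL L) V ≤ LSys.rk (A := EllSys L) V + C := by exact_mod_cast h4
    unfold LSys.dfc
    change ((2 * finrank (kL L) V : ℕ) : ℤ) - _ ≤ _
    omega
  · intro h n p hp hi
    have hV : FiniteDimensional (kL L) (Submodule.span (kL L) (range p)) := fd_span (finite_range p)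
    have h1 := h _ hV
    have h3 : finrank (kL L) (Submodule.span (kL L) (range p)) = n := by
      rw [finrank_span_eq_card hi, Fintype.card_fin]
    have h5 := LSys.coe_rk (A := EllSys L) (V := Submodule.span (kL L) (range p)) hV
    unfold LSys.dfc at h1
    change ((2 * finrank (kL L) (Submodule.span (kL L) (range p)) : ℕ) : ℤ) - _ ≤ _ at h1
    rw [h3] at h1
    rw [← rk_span hp]
    change ((2 * n : ℕ) : ℕ∞) ≤ Q241.SX.M.eRk ((EllSys L).P (Submodule.span (kL L) (range p))) + C
    rw [← h5]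
    have h6 : 2 * n ≤ LSys.rk (A := EllSys L) (Submodule.span (kL L) (range p)) + C := by omega
    exact_mod_cast h6

end Pool.Agent.Q280.ML
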