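import Pool.Agent.Q280.ML.ET
import Pool.Agent.Q280.ML.EllX
import Pool.Agent.Q88.ETO.C

/-!
# Exactness over a pair of spaces of logarithms and elliptic logarithms
-/

set_option autoImplicit false

open Matroid Set Module
open scoped PeriodPair ComplexConjugate

noncomputable section

namespace Pool.Agent.Q280.ML

open H667R3 Pool.Agent.W245.EB Pool.Agent.TH813.Ell
open Pool.Agent.W252 Pool.Agent.W669.Gel
open Pool.Agent.TH813.Core
open Pool.Agent.Y776.Et (ζ gen dimMod T₀ P₀)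
open Q88.ETO (mem_clQ kill_NK kill_sup NK_sup_sub NK_subset finrank_mod half_mem)

variable {L : PeriodPair}

/-- exactness over a pair -/
def Exact₂ (L : PeriodPair) (B : Pr L) : Prop :=
  ∀ (s n : ℕ) (t : Fin s → ℂ) (p : Fin n → ℂ), (∀ i, p i ∉ L.lattice) →
    LinearIndependent ℚ (fun i => B.1.mkQ (t i)) → LinearIndependent (kL L) (fun i => B.2.mkQ (p i)) →
    ∃ w : Fin (s + 2 * n) → ℂ, (∀ l, w l ∈ ex t ∪ pts L p) ∧
      AlgebraicIndependent (IntermediateField.adjoin ℚ (NN L B)) w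

/-- the pair generated by the periods, exponents and points -/
def QQ (L : PeriodPair) {s n : ℕ} (t : Fin s → ℂ) (p : Fin n → ℂ) : Pr L :=
  base L ⊔ (Submodule.span ℚ (range t), Submodule.span (kL L) (range p))

theorem fin_QQ {s n : ℕ} (t : Fin s → ℂ) (p : Fin n → ℂ) : fin₂ L (QQ L t p) :=
  ⟨le_sup_left, fd_sup fd_P₁ (fd_span (finite_range t)), fd_sup fd_P₂ (fd_span (finite_range p))⟩

theorem finrank_sup_span {K : Type*} [Field K] [Module K ℂ] {A B : Submodule K ℂ} (hA : FiniteDimensional K A)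
    (hAB : A ≤ B) {n : ℕ} {t : Fin n → ℂ} (hi : LinearIndependent K (fun i => B.mkQ (t i))) :
    finrank K (A ⊔ Submodule.span K (range t) : Submodule K ℂ) = finrank K A + n := by
  have h1 := inf_span_eq_bot hi
  have h2 : A ⊓ Submodule.span K (range t) = ⊥ := by
    rw [eq_bot_iff, ← h1]
    exact le_inf inf_le_right (inf_le_left.trans hAB)
  have h3 := fr_mod hA (fd_span (K := K) (finite_range t))
  rw [h2, finrank_bot, zero_add, finrank_span_eq_card (li_of_mod hi), Fintype.card_fin] at h3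
  exact h3.symm

theorem QQ_inf {B : Pr L} (hB : base L ≤ B) {s n : ℕ} {t : Fin s → ℂ} {p : Fin n → ℂ}
    (ht : LinearIndependent ℚ (fun i => B.1.mkQ (t i)))
    (hp : LinearIndependent (kL L) (fun i => B.2.mkQ (p i))) : QQ L t p ⊓ B = base L := by
  have h1 : P₁ ≤ B.1 := hB.1
  have h2 : P₂ L ≤ B.2 := hB.2
  refine Prod.ext ?_ ?_
  · change (P₁ ⊔ Submodule.span ℚ (range t)) ⊓ B.1 = P₁
    rw [sup_inf_assoc_of_le _ h1, inf_span_eq_bot ht, sup_bot_eq]
  · change (P₂ L ⊔ Submodule.span (kL L) (range p)) ⊓ B.2 = P₂ L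
    rw [sup_inf_assoc_of_le _ h2, inf_span_eq_bot hp, sup_bot_eq]

theorem NN_QQ {s n : ℕ} {t : Fin s → ℂ} {p : Fin n → ℂ} (hp : ∀ i, p i ∉ L.lattice) :
    NN L (QQ L t p) ⊆ Q241.SX.M.closure ((ex t ∪ pts L p) ∪ NN L (base L)) := by
  refine (NN_sup _ _).trans (Q241.SX.M.closure_subset_closure_of_subset_closure (union_subset ?_ ?_))
  · intro x hx
    exact Matroid.mem_closure_of_mem _ (Or.inr hx) (by simp)
  · refine (NN_span hp).trans (Q241.SX.M.closure_subset_closure (union_subset (fun x hx => ?_) subset_union_left))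
    exact Or.inr (Or.inl hx)

theorem exact₂_iff {B : Pr L} (hB : base L ≤ B) : Exact₂ L B ↔ ∀ V, fin₂ L V →
    Bs.LSys.dfc (A := ETSys L) V ≤ Bs.LSys.dfc (A := ETSys L) (V ⊓ B) := by
  constructor
  · intro h V hV
    obtain ⟨Y₁, a1, a2, a3⟩ := exists_cpl hV.2.1 (inf_le_left : V.1 ⊓ B.1 ≤ V.1)
    obtain ⟨Y₂, b1, b2, b3⟩ := exists_cpl hV.2.2 (inf_le_left : V.2 ⊓ B.2 ≤ V.2)
    have f1 : FiniteDimensional ℚ Y₁ := fd_le hV.2.1 a1
    have f2 : FiniteDimensional (kL L) Y₂ := fd_le hV.2.2 b1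
    obtain ⟨t, t1, t2, t3⟩ := exists_basis_Q Y₁
    obtain ⟨p, h1, h2, h3⟩ := exists_basis_off (L := L) Y₂
    have h4 := span_eq f2 h1 h2
    have h5 : Submodule.span (kL L) (range p) ⊓ B.2 = ⊥ := by
      rw [h4, eq_bot_iff, ← b2]
      exact le_inf inf_le_left (le_inf (inf_le_left.trans b1) inf_le_right)
    have h6 : Submodule.span ℚ (range t) ⊓ B.1 = ⊥ := by
      rw [t3, eq_bot_iff, ← a2]
      exact le_inf inf_le_left (le_inf (inf_le_left.trans a1) inf_le_right)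
    obtain ⟨w, h7, h8⟩ := h _ _ t p h3 (li_of_inf_bot t1 h6) (li_of_inf_bot h1 h5)
    refine Bs.LSys.concentrated_of_family (A := ETSys L) hB hV (m := finrank ℚ Y₁ + 2 * finrank (kL L) Y₂) ?_ w
      (fun k => ?_) h8
    · change ww L V = ww L (V ⊓ B) + _
      unfold ww
      simp only [Prod.fst_inf, Prod.snd_inf]
      omega
    · refine Matroid.mem_closure_of_mem _ (ex_pts_sub h3 (fun i => a1 (t2 i)) (fun i => b1 (h2 i)) (Or.inr (h7 k)))
        (by simp)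
  · intro h s n t p hpL ht hp
    have h1 : ww L (QQ L t p) = ww L (base L) + (s + 2 * n) := by
      have e1 := finrank_sup_span fd_P₁ (hB.1 : P₁ ≤ B.1) ht
      have e2 := finrank_sup_span fd_P₂ (hB.2 : P₂ L ≤ B.2) hp
      change finrank ℚ (P₁ ⊔ Submodule.span ℚ (range t) : Submodule ℚ ℂ) +
        2 * finrank (kL L) (P₂ L ⊔ Submodule.span (kL L) (range p) : Submodule (kL L) ℂ) =
        (finrank ℚ P₁ + 2 * finrank (kL L) (P₂ L)) + (s + 2 * n)
      omega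
    exact Bs.LSys.family_of_concentrated (A := ETSys L) (B := B) hB h (fin_QQ t p) (QQ_inf hB ht hp) h1
      ((ex_finite t).union (pts_finite p)) (NN_QQ hpL)

/-- the canonical pair -/
def CP (L : PeriodPair) : Pr L := Bs.Core (X := (ETSys L).X) (ETSys L).o (ETSys L).fin (Bs.LSys.dfc (A := ETSys L))

theorem base_le_CP : base L ≤ CP L := Bs.base_le_core (Bs.LSys.sm (A := ETSys L))

theorem conc_CP : ∀ V, fin₂ L V → Bs.LSys.dfc (A := ETSys L) V ≤ Bs.LSys.dfc (A := ETSys L) (V ⊓ CP L) :=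
  fun _ hV => Bs.le_inf_core (Bs.LSys.sm (A := ETSys L)) hV

theorem exact_CP : Exact₂ L (CP L) := (exact₂_iff base_le_CP).mpr conc_CP

theorem CP_le {B : Pr L} (hB : base L ≤ B) (h : Exact₂ L B) : CP L ≤ B :=
  Bs.core_min (Bs.LSys.sm (A := ETSys L)) hB ((exact₂_iff hB).mp h)

/-- the numbers of the conjecture generate the numbers of the pair -/
theorem gen_cl {s n : ℕ} {t : Fin s → ℂ} {p : Fin n → ℂ} (hp : ∀ i, p i ∉ L.lattice) :
    Q241.SX.M.eRk (gen L t p) = Q241.SX.M.eRk (NN L (QQ L t p)) := by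
  apply le_antisymm
  · rw [← Q241.SX.M.eRk_closure_eq (NN L (QQ L t p))]
    refine Q241.SX.M.eRk_mono fun x hx => ?_
    refine (mem_clQ (S := NN L (QQ L t p))).mpr fun D hD => ?_
    have hz : ∀ w ∈ (QQ L t p).2, w ∉ L.lattice → D (ζ L w) = 0 := fun w hw hw' =>
      hD _ (Or.inr (Or.inr (Or.inr (Or.inl ⟨w, ⟨hw, hw'⟩, rfl⟩))))
    have hPl : ∀ w ∈ L.lattice, w ∈ (QQ L t p).2 := fun w hw =>
      (le_sup_left : P₂ L ≤ P₂ L ⊔ Submodule.span (kL L) (range p)) (lattice_le_P₂ hw)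
    have hhalf : ∀ w ∈ L.lattice, w / 2 ∈ (QQ L t p).2 := fun w hw =>
      half_mem (le_sup_left : P₂ L ≤ P₂ L ⊔ Submodule.span (kL L) (range p)) hw
    have ht : ∀ i, t i ∈ (QQ L t p).1 := fun i =>
      (le_sup_right : _ ≤ P₁ ⊔ Submodule.span ℚ (range t)) (Submodule.subset_span ⟨i, rfl⟩)
    have hp' : ∀ i, p i ∈ (QQ L t p).2 := fun i =>
      (le_sup_right : _ ≤ P₂ L ⊔ Submodule.span (kL L) (range p)) (Submodule.subset_span ⟨i, rfl⟩)
    have h2 : ∀ x, D x = 0 → D (2 * x) = 0 := fun x hx => by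
      rw [two_mul, map_add, hx, add_zero]
    rcases hx with ((rfl | rfl) | (rfl | rfl | rfl | rfl)) |
      ((⟨i, rfl⟩ | ⟨_, ⟨i, rfl⟩, rfl⟩) | (⟨i, rfl⟩ | ⟨_, ⟨i, rfl⟩, rfl⟩ | ⟨_, ⟨i, rfl⟩, rfl⟩))
    · exact hD _ (Or.inl (Or.inl rfl))
    · exact hD _ (Or.inl (Or.inr rfl))
    · exact hD _ (Or.inr (Or.inr (Or.inl (hPl _ L.ω₁_mem_lattice))))
    · exact hD _ (Or.inr (Or.inr (Or.inl (hPl _ L.ω₂_mem_lattice))))
    · exact h2 _ (hz _ (hhalf _ L.ω₁_mem_lattice) (half₁ L))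
    · exact h2 _ (hz _ (hhalf _ L.ω₂_mem_lattice) (half₂ L))
    · exact hD _ (Or.inr (Or.inl (Or.inl (ht i))))
    · exact hD _ (Or.inr (Or.inl (Or.inr ⟨_, ht i, rfl⟩)))
    · exact hD _ (Or.inr (Or.inr (Or.inl (hp' i))))
    · exact hD _ (Or.inr (Or.inr (Or.inr (Or.inr ⟨_, ⟨hp' i, hp i⟩, rfl⟩))))
    · exact hz _ (hp' i) (hp i)
  · rw [← Q241.SX.M.eRk_closure_eq (gen L t p)]
    refine Q241.SX.M.eRk_mono ((NN_sup _ _).trans
      (Q241.SX.M.closure_subset_closure_of_subset_closure (union_subset ?_ ?_)))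
    · intro x hx
      refine (mem_clQ (S := gen L t p)).mpr fun D hD => ?_
      have h2 : D L.g₂ = 0 := hD _ (Or.inl (Or.inl (Or.inl rfl)))
      have h3 : D L.g₃ = 0 := hD _ (Or.inl (Or.inl (Or.inr rfl)))
      obtain ⟨k1, k2⟩ := per_killed h2 h3
        (hD _ (Or.inl (Or.inr (Or.inl rfl)))) (hD _ (Or.inl (Or.inr (Or.inr (Or.inl rfl)))))
        (hD _ (Or.inl (Or.inr (Or.inr (Or.inr (Or.inl rfl))))))
        (hD _ (Or.inl (Or.inr (Or.inr (Or.inr (Or.inr rfl))))))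
      exact kill_NK.mpr ⟨h2, h3, k1, k2⟩ x hx
    · refine (NN_span hp).trans (Q241.SX.M.closure_subset_closure ?_)
      rintro x (hx | hx | hx)
      · exact Or.inl (Or.inl hx)
      · obtain ⟨i, rfl | hx⟩ := mem_iUnion.mp hx
        · exact Or.inr (Or.inl (Or.inl ⟨i, rfl⟩))
        · rw [mem_singleton_iff.mp hx]
          exact Or.inr (Or.inl (Or.inr ⟨_, ⟨i, rfl⟩, rfl⟩))
      · obtain ⟨i, rfl | rfl | hx⟩ := mem_iUnion.mp hx
        · exact Or.inr (Or.inr (Or.inl ⟨i, rfl⟩))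
        · exact Or.inr (Or.inr (Or.inr (Or.inl ⟨_, ⟨i, rfl⟩, rfl⟩)))
        · rw [mem_singleton_iff.mp hx]
          exact Or.inr (Or.inr (Or.inr (Or.inr ⟨_, ⟨i, rfl⟩, rfl⟩)))

theorem ww_QQ {s n : ℕ} (t : Fin s → ℂ) (p : Fin n → ℂ) :
    ww L (QQ L t p) = (dimMod T₀ t + 4 / finrank ℚ (kL L) + 2 * dimMod (P₀ L) p) + 1 := by
  have e1 := finrank_mod P₁ t
  have : FiniteDimensional (kL L) (P₂ L) := fd_P₂
  have e2 := finrank_mod (P₂ L) p
  rw [finrank_P₁] at e1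
  have e1' : dimMod T₀ t + 1 = finrank ℚ (P₁ ⊔ Submodule.span ℚ (Set.range t) : Submodule ℚ ℂ) := e1
  have e2' : dimMod (P₀ L) p + finrank (kL L) (P₂ L) = finrank (kL L) (P₂ L ⊔
    Submodule.span (kL L) (Set.range p) : Submodule (kL L) ℂ) := e2
  change finrank ℚ (P₁ ⊔ Submodule.span ℚ (range t) : Submodule ℚ ℂ) +
        2 * finrank (kL L) (P₂ L ⊔ Submodule.span (kL L) (range p) : Submodule (kL L) ℂ) = _
  rw [four_div]
  omega

/-- every finite pair is generated by the periods, exponents and points -/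
theorem exists_QQ {V : Pr L} (hV : fin₂ L V) : ∃ (s n : ℕ) (t : Fin s → ℂ) (p : Fin n → ℂ),
    (∀ i, p i ∉ L.lattice) ∧ V = QQ L t p := by
  have f1 := hV.2.1
  have f2 := hV.2.2
  obtain ⟨t, t1, t2, t3⟩ := exists_basis_Q V.1
  obtain ⟨p, h1, h2, h3⟩ := exists_basis_off (L := L) V.2
  have h4 := span_eq f2 h1 h2
  refine ⟨_, _, t, p, h3, ?_⟩
  unfold QQ
  rw [t3, h4]
  exact (sup_eq_right.mpr hV.1).symm

/-- the bound for all tuples in terms of pairs -/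
theorem bound₂_iff (C : ℕ) :
    (∀ (s n : ℕ) (t : Fin s → ℂ) (p : Fin n → ℂ), (∀ i, p i ∉ L.lattice) →
      ((dimMod T₀ t + 4 / finrank ℚ (kL L) + 2 * dimMod (P₀ L) p : ℕ) : ℕ∞) ≤ Q241.SX.M.eRk (gen L t p) + C) ↔
    ∀ V, fin₂ L V → Bs.LSys.dfc (A := ETSys L) V ≤ C + 1 := by
  have key : ∀ (s n : ℕ) (t : Fin s → ℂ) (p : Fin n → ℂ), (∀ i, p i ∉ L.lattice) →
      (((dimMod T₀ t + 4 / finrank ℚ (kL L) + 2 * dimMod (P₀ L) p : ℕ) : ℕ∞) ≤ Q241.SX.M.eRk (gen L t p) + C ↔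
        Bs.LSys.dfc (A := ETSys L) (QQ L t p) ≤ C + 1) := by
    intro s n t p hp
    have h1 := Bs.LSys.coe_rk (A := ETSys L) (fin_QQ t p)
    have h2 : Bs.LSys.w (ETSys L) (QQ L t p) = _ := ww_QQ t p
    rw [gen_cl hp]
    change ((dimMod T₀ t + 4 / finrank ℚ (kL L) + 2 * dimMod (P₀ L) p : ℕ) : ℕ∞) ≤
      Q241.SX.M.eRk ((ETSys L).P (QQ L t p)) + C ↔ _
    rw [← h1]
    unfold Bs.LSys.dfc
    rw [h2]
    constructor
    · intro h
      have h3 : dimMod T₀ t + 4 / finrank ℚ (kL L) + 2 * dimMod (P₀ L) p ≤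
        Bs.LSys.rk (A := ETSys L) (QQ L t p) + C := by exact_mod_cast h
      omega
    · intro h
      have h3 : dimMod T₀ t + 4 / finrank ℚ (kL L) + 2 * dimMod (P₀ L) p ≤
        Bs.LSys.rk (A := ETSys L) (QQ L t p) + C := by omega
      exact_mod_cast h3
  constructor
  · intro h V hV
    obtain ⟨s, n, t, p, hp, rfl⟩ := exists_QQ hV
    exact (key s n t p hp).mp (h s n t p hp)
  · intro h s n t p hp
    exact (key s n t p hp).mpr (h _ (fin_QQ t p))

/-- the bounds in terms of the canonical pair -/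
theorem bound_CP (C : ℤ) : (∀ V, fin₂ L V → Bs.LSys.dfc (A := ETSys L) V ≤ C) ↔
    (FiniteDimensional ℚ (CP L).1 ∧ FiniteDimensional (kL L) (CP L).2) ∧
      Bs.LSys.dfc (A := ETSys L) (CP L) ≤ C := by
  constructor
  · intro h
    have h1 : fin₂ L (CP L) := (Bs.core_fin_iff (Bs.LSys.sm (A := ETSys L))).mpr ⟨C, h⟩
    exact ⟨h1.2, h _ h1⟩
  · rintro ⟨h1, h2⟩ V hV
    exact (Bs.le_core (Bs.LSys.sm (A := ETSys L)) (V := V) ⟨base_le_CP, h1⟩ hV).trans h2

theorem CP_base : CP L = base L ↔ ∀ V, fin₂ L V →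
    Bs.LSys.dfc (A := ETSys L) V ≤ Bs.LSys.dfc (A := ETSys L) (base L) :=
  Bs.core_base_iff (Bs.LSys.sm (A := ETSys L))

/-- the elements of the canonical pair -/
theorem mem_CP {a b : ℂ} : (a ∈ (CP L).1 ∧ b ∈ (CP L).2) ↔ ∃ V : Pr L, fin₂ L V ∧
    (∀ W, base L ≤ W → W < V → Bs.LSys.dfc (A := ETSys L) W < Bs.LSys.dfc (A := ETSys L) V) ∧
    a ∈ V.1 ∧ b ∈ V.2 := by
  constructor
  · rintro ⟨ha, hb⟩
    obtain ⟨T, h1, h2⟩ := Bs.exists_tight_ge (Bs.LSys.sm (A := ETSys L))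
      (a := base L ⊔ (Submodule.span ℚ {a}, Submodule.span (kL L) {b}))
      ⟨le_sup_left, fd_sup fd_P₁ (fd_span (finite_singleton a)), fd_sup fd_P₂ (fd_span (finite_singleton b))⟩
      (sup_le base_le_CP ⟨(Submodule.span_singleton_le_iff_mem _ _).mpr ha,
        (Submodule.span_singleton_le_iff_mem _ _).mpr hb⟩)
    exact ⟨T, h1.1, h1.2, h2.1 ((le_sup_right : Submodule.span ℚ {a} ≤ _) (Submodule.mem_span_singleton_self a)),
      h2.2 ((le_sup_right : Submodule.span (kL L) {b} ≤ _) (Submodule.mem_span_singleton_self b))⟩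
  · rintro ⟨V, h1, h2, h3, h4⟩
    have h5 : V ≤ CP L := Bs.Tight.le_core (X := (ETSys L).X) (T := V) ⟨h1, h2⟩
    exact ⟨h5.1 h3, h5.2 h4⟩

/-- for algebraic invariants the numbers of the periods have small rank -/
theorem rk_base (h2 : IsAlgebraic ℚ L.g₂) (h3 : IsAlgebraic ℚ L.g₃) :
    Bs.LSys.dfc (A := ETSys L) (base L) ≥ 1 := by
  have : FiniteDimensional (kL L) (P₂ L) := fd_P₂
  obtain ⟨p, p1, p2, p3⟩ := exists_basis_off (L := L) (P₂ L)
  obtain ⟨κ, hE⟩ := exists_eig L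
  have h1 : NN L (base L) ⊆ Q241.SX.M.closure (range p ∪ range (fun i => ζ L (p i))) := by
    intro x hx
    refine (mem_clQ (S := range p ∪ range (fun i => ζ L (p i)))).mpr fun D hD => ?_
    have e2 : D L.g₂ = 0 := (mem_clQ (S := ∅)).mp (Q88.ETO.cl_alg h2) D (fun _ h => absurd h (notMem_empty _))
    have e3 : D L.g₃ = 0 := (mem_clQ (S := ∅)).mp (Q88.ETO.cl_alg h3) D (fun _ h => absurd h (notMem_empty _))
    have h6 : P₂ L ≤ ZK hE D e2 e3 := by
      rw [← span_eq fd_P₂ p1 p2, Submodule.span_le]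
      rintro _ ⟨i, rfl⟩
      obtain ⟨m, hm, hml⟩ := p2 i
      have hom : om L D (p i) = 0 := by
        have h7 := om_nat (L := L) D e2 e3 m (p i)
        rw [om_of_mem L D hml] at h7
        exact (mul_eq_zero.mp h7.symm).resolve_left (by exact_mod_cast hm.ne')
      refine ⟨hD _ (Or.inl ⟨i, rfl⟩), hom, ?_⟩
      unfold et
      rw [hom, mul_zero, add_zero, zt_of_notMem (p3 i)]
      exact hD _ (Or.inr ⟨i, rfl⟩)
    have hz : ∀ w ∈ L.lattice, w / 2 ∉ L.lattice → D (2 * zeta L (w / 2)) = 0 := by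
      intro w hw hw'
      have h7 := h6 (lattice_le_P₂ hw)
      have h8 := h7.2.2
      unfold et at h8
      rw [h7.2.1, mul_zero, add_zero, zt_of_mem hw] at h8
      rw [← eta_half hw hw']
      exact h8
    obtain ⟨k1, k2⟩ := per_killed e2 e3 (h6 (lattice_le_P₂ L.ω₁_mem_lattice)).1
      (h6 (lattice_le_P₂ L.ω₂_mem_lattice)).1 (hz _ L.ω₁_mem_lattice (half₁ L)) (hz _ L.ω₂_mem_lattice (half₂ L))
    exact kill_NK.mpr ⟨e2, e3, k1, k2⟩ x hx
  have h4 : Q241.SX.M.eRk (NN L (base L)) ≤ ((2 * finrank (kL L) (P₂ L) : ℕ) : ℕ∞) := by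
    refine (Q241.SX.M.eRk_mono h1).trans ?_
    rw [Matroid.eRk_closure_eq]
    refine (Matroid.eRk_le_encard _ _).trans ((encard_union_le _ _).trans ?_)
    have h5 : (range p).encard ≤ (finrank (kL L) (P₂ L) : ℕ∞) := by
      rw [← image_univ]
      exact (encard_image_le _ _).trans (by simp)
    have h6 : (range (fun i => ζ L (p i))).encard ≤ (finrank (kL L) (P₂ L) : ℕ∞) := by
      rw [← image_univ]
      exact (encard_image_le _ _).trans (by simp)
    refine (add_le_add h5 h6).trans ?_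
    rw [two_mul, Nat.cast_add]
  have h5 := Bs.LSys.coe_rk (A := ETSys L) (fin₂_base (L := L))
  change _ = Q241.SX.M.eRk (NN L (base L)) at h5
  rw [← h5] at h4
  have h6 : Bs.LSys.rk (A := ETSys L) (base L) ≤ 2 * finrank (kL L) (P₂ L) := by exact_mod_cast h4
  unfold Bs.LSys.dfc
  have h7 : Bs.LSys.w (ETSys L) (base L) = finrank ℚ P₁ + 2 * finrank (kL L) (P₂ L) := rfl
  rw [h7, finrank_P₁]
  push_cast
  omega

end Pool.Agent.Q280.ML
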