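import Pool.Agent.Q280.ML.SysU
import Pool.Agent.Q280.ML.Vec
import Pool.Agent.Q280.ML.ET
import Pool.Agent.H327R2.SC.ExpLat

/-!
# Exponentials of algebraic numbers and logarithms of algebraic numbers
-/

set_option autoImplicit false

open Matroid Set Module

noncomputable section

namespace Pool.Agent.Q280.ML

open Pool.Agent.W252 Pool.Agent.W669.Gel
open Pool.Agent.TH813.Core
open Q88.ETO (mem_clQ)

/-- the algebraic numbers as a rational space -/
def AlgQ : Submodule ℚ ℂ where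
  carrier := {x | IsAlgebraic ℚ x}
  add_mem' := fun ha hb => IsAlgebraic.add ha hb
  zero_mem' := isAlgebraic_zero
  smul_mem' := fun q x hx => by
    rw [Set.mem_ofPred_eq] at hx ⊢
    rw [Rat.smul_def]
    exact (isAlgebraic_algebraMap (R := ℚ) (A := ℂ) q).mul hx

theorem mem_AlgQ {x : ℂ} : x ∈ AlgQ ↔ IsAlgebraic ℚ x := Iff.rfl

theorem der_alg {D : Derivation ℚ ℂ ℂ} {x : ℂ} (hx : IsAlgebraic ℚ x) : D x = 0 :=
  (mem_clQ (S := ∅)).mp (Q88.ETO.cl_alg hx) D (fun _ h => absurd h (notMem_empty _))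

theorem alg_of_der {x : ℂ} (hx : ∀ D : Derivation ℚ ℂ ℂ, D x = 0) : IsAlgebraic ℚ x := by
  have h1 : x ∈ Q241.SX.M.closure ∅ := (mem_clQ (S := ∅)).mpr fun D _ => hx D
  rw [Q241.SX.mem_cl, Algebra.adjoin_empty] at h1
  obtain ⟨p, hp0, hp⟩ := h1
  have hs : Function.Surjective (algebraMap ℚ (⊥ : Subalgebra ℚ ℂ)) := fun y => by
    obtain ⟨q, hq⟩ := Algebra.mem_bot.mp y.2
    exact ⟨q, Subtype.ext hq⟩
  obtain ⟨p', rfl⟩ := Polynomial.map_surjective _ hs p
  refine ⟨p', fun h => hp0 (by rw [h, Polynomial.map_zero]), ?_⟩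
  rw [Polynomial.aeval_def, Polynomial.eval₂_map] at hp
  exact hp

/-- the logarithms of the algebraic numbers as a rational space -/
def LogQ : Submodule ℚ ℂ where
  carrier := {x | IsAlgebraic ℚ (Complex.exp x)}
  add_mem' := fun {a b} ha hb => by
    rw [Set.mem_ofPred_eq] at ha hb ⊢
    rw [Complex.exp_add]
    exact ha.mul hb
  zero_mem' := by
    rw [Set.mem_ofPred_eq, Complex.exp_zero]
    exact isAlgebraic_one
  smul_mem' := fun q x hx => by
    rw [Set.mem_ofPred_eq] at hx ⊢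
    refine alg_of_der fun D => ?_
    have h1 : dl D x = 0 := dlog_eq_zero.2 (der_alg hx)
    refine dlog_eq_zero.1 ?_
    change dl D (q • x) = 0
    rw [map_smul, h1, smul_zero]

theorem mem_LogQ {x : ℂ} : x ∈ LogQ ↔ IsAlgebraic ℚ (Complex.exp x) := Iff.rfl

/-- the numbers of a pair -/
def GG (V : Submodule ℚ ℂ × Submodule ℚ ℂ) : Set ℂ := Complex.exp '' (V.1 : Set ℂ) ∪ (V.2 : Set ℂ)

theorem kill_GG {D : Derivation ℚ ℂ ℂ} {V : Submodule ℚ ℂ × Submodule ℚ ℂ} :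
    (∀ x ∈ GG V, D x = 0) ↔ V.1 ≤ LinearMap.ker (dl D) ∧ V.2 ≤ LinearMap.ker (D : ℂ →ₗ[ℚ] ℂ) := by
  constructor
  · intro h
    exact ⟨fun t ht => dlog_eq_zero.2 (h _ (Or.inl ⟨t, ht, rfl⟩)), fun t ht => h _ (Or.inr ht)⟩
  · rintro ⟨h1, h2⟩ x (⟨t, ht, rfl⟩ | hx)
    · exact dlog_eq_zero.1 (h1 ht)
    · exact h2 hx

theorem GG_mono {V W : Submodule ℚ ℂ × Submodule ℚ ℂ} (h : V ≤ W) : GG V ⊆ GG W :=
  union_subset_union (image_mono h.1) h.2

theorem GG_sup (V W : Submodule ℚ ℂ × Submodule ℚ ℂ) : GG (V ⊔ W) ⊆ Q241.SX.M.closure (GG V ∪ GG W) := by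
  intro x hx
  refine (mem_clQ (S := GG V ∪ GG W)).mpr fun D hD => ?_
  obtain ⟨h1, h2⟩ := kill_GG.mp fun x hx => hD x (Or.inl hx)
  obtain ⟨h3, h4⟩ := kill_GG.mp fun x hx => hD x (Or.inr hx)
  exact kill_GG.mpr ⟨sup_le h1 h3, sup_le h2 h4⟩ x hx

/-- the numbers `exp (a i)`, `l i` -/
def gl {s n : ℕ} (a : Fin s → ℂ) (l : Fin n → ℂ) : Set ℂ := range (fun i => Complex.exp (a i)) ∪ range l

theorem gl_finite {s n : ℕ} (a : Fin s → ℂ) (l : Fin n → ℂ) : (gl a l).Finite :=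
  (finite_range _).union (finite_range _)

theorem GG_span {s n : ℕ} (a : Fin s → ℂ) (l : Fin n → ℂ) :
    GG (Submodule.span ℚ (range a), Submodule.span ℚ (range l)) ⊆ Q241.SX.M.closure (gl a l) := by
  intro x hx
  refine (mem_clQ (S := gl a l)).mpr fun D hD => ?_
  refine kill_GG.mpr ⟨?_, ?_⟩ x hx
  · change Submodule.span ℚ (range a) ≤ _
    rw [Submodule.span_le]
    rintro _ ⟨i, rfl⟩
    exact dlog_eq_zero.2 (hD _ (Or.inl ⟨i, rfl⟩))
  · change Submodule.span ℚ (range l) ≤ _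
    rw [Submodule.span_le]
    rintro _ ⟨i, rfl⟩
    exact hD _ (Or.inr ⟨i, rfl⟩)

theorem gl_sub {s n : ℕ} {a : Fin s → ℂ} {l : Fin n → ℂ} {V : Submodule ℚ ℂ × Submodule ℚ ℂ}
    (ha : ∀ i, a i ∈ V.1) (hl : ∀ i, l i ∈ V.2) : gl a l ⊆ GG V := by
  rintro _ (⟨i, rfl⟩ | ⟨i, rfl⟩)
  · exact Or.inl ⟨_, ha i, rfl⟩
  · exact Or.inr (hl i)

theorem GG_rk {V : Submodule ℚ ℂ × Submodule ℚ ℂ} (h1 : FiniteDimensional ℚ V.1) (h2 : FiniteDimensional ℚ V.2) :
    Q241.SX.M.eRk (GG V) ≠ ⊤ := by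
  obtain ⟨a, -, -, ha⟩ := exists_basis_Q V.1
  obtain ⟨l, -, -, hl⟩ := exists_basis_Q V.2
  have h4 := GG_span a l
  rw [ha, hl] at h4
  have h5 : Q241.SX.M.eRk (GG V) ≤ (gl a l).encard := by
    refine (Q241.SX.M.eRk_mono h4).trans ?_
    rw [Matroid.eRk_closure_eq]
    exact Matroid.eRk_le_encard _ _
  exact ne_top_of_le_ne_top (encard_ne_top_iff.mpr (gl_finite a l)) h5

/-- finite dimensional pairs -/
def finG (V : Submodule ℚ ℂ × Submodule ℚ ℂ) : Prop :=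
  V ≤ (AlgQ, LogQ) ∧ FiniteDimensional ℚ V.1 ∧ FiniteDimensional ℚ V.2

theorem GG_loc {B : Submodule ℚ ℂ × Submodule ℚ ℂ} {T : Set ℂ} (hB : B ≤ (AlgQ, LogQ)) (hT : T.Finite)
    (hTB : T ⊆ GG B) : ∃ V ≤ B, finG V ∧ T ⊆ GG V := by
  have key : ∀ a ∈ GG B, ∃ V ≤ B, finG V ∧ a ∈ GG V := by
    rintro a (⟨w, hw, rfl⟩ | ha)
    · have h1 : (Submodule.span ℚ {w}, (⊥ : Submodule ℚ ℂ)) ≤ B :=
        ⟨(Submodule.span_singleton_le_iff_mem _ _).mpr hw, bot_le⟩
      exact ⟨_, h1, ⟨h1.trans hB, fd_span (finite_singleton w), fd_bot⟩,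
        Or.inl ⟨w, Submodule.mem_span_singleton_self w, rfl⟩⟩
    · have h1 : ((⊥ : Submodule ℚ ℂ), Submodule.span ℚ {a}) ≤ B :=
        ⟨bot_le, (Submodule.span_singleton_le_iff_mem _ _).mpr ha⟩
      exact ⟨_, h1, ⟨h1.trans hB, fd_bot, fd_span (finite_singleton a)⟩,
        Or.inr (Submodule.mem_span_singleton_self a)⟩
  induction T, hT using Set.Finite.induction_on with
  | empty => exact ⟨⊥, bot_le, ⟨bot_le, fd_bot, fd_bot⟩, empty_subset _⟩
  | insert _ _ ih =>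
    obtain ⟨V, h1, h2, h3⟩ := ih ((subset_insert _ _).trans hTB)
    obtain ⟨W, h4, h5, h6⟩ := key _ (hTB (mem_insert _ _))
    refine ⟨V ⊔ W, sup_le h1 h4, ⟨sup_le h2.1 h5.1, fd_sup h2.2.1 h5.2.1, fd_sup h2.2.2 h5.2.2⟩,
      insert_subset ?_ ?_⟩
    · exact GG_mono (le_sup_right : W ≤ V ⊔ W) h6
    · exact h3.trans (GG_mono (le_sup_left : V ≤ V ⊔ W))

/-- the weight -/
def wG (V : Submodule ℚ ℂ × Submodule ℚ ℂ) : ℕ := finrank ℚ V.1 + finrank ℚ V.2

/-- the system of the pairs -/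
@[reducible] def GSys : Us.LSys where
  X := Submodule ℚ ℂ × Submodule ℚ ℂ
  o := ⊥
  u := (AlgQ, LogQ)
  fin := finG
  w := wG
  P := GG
  base := ⟨bot_le, fd_bot, fd_bot⟩
  ge _ := bot_le
  top h := h.1
  sup ha hb := ⟨sup_le ha.1 hb.1, fd_sup ha.2.1 hb.2.1, fd_sup ha.2.2 hb.2.2⟩
  le hb _ h2 := ⟨h2.trans hb.1, fd_le hb.2.1 h2.1, fd_le hb.2.2 h2.2⟩
  lt {a b} hb _ hab := by
    have h3 := fr_le hb.2.1 hab.le.1
    have h4 := fr_le hb.2.2 hab.le.2
    rcases Prod.lt_iff.mp hab with h | h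
    · have := fr_lt hb.2.1 h.1
      unfold wG
      omega
    · have := fr_lt hb.2.2 h.2
      unfold wG
      omega
  wmod ha hb := by
    have h1 := fr_mod ha.2.1 hb.2.1
    have h2 := fr_mod ha.2.2 hb.2.2
    unfold wG
    simp only [Prod.fst_inf, Prod.fst_sup, Prod.snd_inf, Prod.snd_sup]
    omega
  cpt D hD hdir a ha h := by
    obtain ⟨_, ⟨d₁, h1, rfl⟩, h2⟩ := fd_cpt (Prod.fst '' D) (hD.image _)
      (hdir.mono_comp (fun _ _ h => h.1)) ha.2.1 (by
        have := h.1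
        rwa [Prod.fst_sSup] at this)
    obtain ⟨_, ⟨d₂, h3, rfl⟩, h4⟩ := fd_cpt (Prod.snd '' D) (hD.image _)
      (hdir.mono_comp (fun _ _ h => h.2)) ha.2.2 (by
        have := h.2
        rwa [Prod.snd_sSup] at this)
    obtain ⟨d, h5, h6, h7⟩ := hdir d₁ h1 d₂ h3
    exact ⟨d, h5, h2.trans h6.1, h4.trans h7.2⟩
  mono h := GG_mono h
  Psup {a b} := GG_sup a b
  Pfin ha := GG_rk ha.2.1 ha.2.2
  Ploc _ hB hT hTB := by
    obtain ⟨V, h1, h2, h3⟩ := GG_loc hB hT hTB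
    exact ⟨V, h1, h2, h3.trans (Matroid.subset_closure_of_subset' _ (Subset.refl _) (by simp))⟩

/-- a family of the right size which covers an algebraically independent family -/
theorem ai_of_cover {R : Type*} [CommRing R] [Algebra R ℂ] {ι κ : Type*} [Fintype ι] [Fintype κ]
    (hcard : Fintype.card κ ≤ Fintype.card ι) {v : ι → ℂ} {g : κ → ℂ} [Nontrivial R] (hv : AlgebraicIndependent R v)
    (h : ∀ i, ∃ k, g k = v i) : AlgebraicIndependent R g := by
  choose e he using h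
  have hinj : Function.Injective e := fun i j hij => hv.injective (by rw [← he, ← he, hij])
  have hbij : Function.Bijective e :=
    (Fintype.bijective_iff_injective_and_card e).mpr ⟨hinj, le_antisymm (Fintype.card_le_of_injective e hinj) hcard⟩
  have h1 := hv.comp (Equiv.ofBijective e hbij).symm (Equiv.injective _)
  convert h1 using 1
  funext k
  change g k = v ((Equiv.ofBijective e hbij).symm k)
  rw [← he]
  congr 1
  exact ((Equiv.ofBijective e hbij).apply_symm_apply k).symm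

/-- exactness over a pair -/
def ExactG (B : Submodule ℚ ℂ × Submodule ℚ ℂ) : Prop :=
  ∀ (s n : ℕ) (a : Fin s → ℂ) (l : Fin n → ℂ), (∀ i, IsAlgebraic ℚ (a i)) → (∀ i, IsAlgebraic ℚ (Complex.exp (l i))) →
    LinearIndependent ℚ (fun i => B.1.mkQ (a i)) → LinearIndependent ℚ (fun i => B.2.mkQ (l i)) →
    AlgebraicIndependent (IntermediateField.adjoin ℚ (GG B)) (Sum.elim (fun i => Complex.exp (a i)) l)

theorem exactG_iff {B : Submodule ℚ ℂ × Submodule ℚ ℂ} (hB : B ≤ (AlgQ, LogQ)) : ExactG B ↔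
    ∀ V, finG V → Us.LSys.dfc (A := GSys) V ≤ Us.LSys.dfc (A := GSys) (V ⊓ B) := by
  constructor
  · intro h V hV
    obtain ⟨Y₁, a1, a2, a3⟩ := exists_cpl hV.2.1 (inf_le_left : V.1 ⊓ B.1 ≤ V.1)
    obtain ⟨Y₂, b1, b2, b3⟩ := exists_cpl hV.2.2 (inf_le_left : V.2 ⊓ B.2 ≤ V.2)
    have f1 : FiniteDimensional ℚ Y₁ := fd_le hV.2.1 a1
    have f2 : FiniteDimensional ℚ Y₂ := fd_le hV.2.2 b1
    obtain ⟨a, t1, t2, t3⟩ := exists_basis_Q Y₁
    obtain ⟨l, h1, h2, h3⟩ := exists_basis_Q Y₂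
    have h5 : Submodule.span ℚ (range l) ⊓ B.2 = ⊥ := by
      rw [h3, eq_bot_iff, ← b2]
      exact le_inf inf_le_left (le_inf (inf_le_left.trans b1) inf_le_right)
    have h6 : Submodule.span ℚ (range a) ⊓ B.1 = ⊥ := by
      rw [t3, eq_bot_iff, ← a2]
      exact le_inf inf_le_left (le_inf (inf_le_left.trans a1) inf_le_right)
    have h7 := h _ _ a l (fun i => hV.1.1 (a1 (t2 i))) (fun i => hV.1.2 (b1 (h2 i))) (li_of_inf_bot t1 h6)
      (li_of_inf_bot h1 h5)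
    refine Us.LSys.concentrated_of_family (A := GSys) bot_le hV (m := finrank ℚ Y₁ + finrank ℚ Y₂) ?_
      (Sum.elim (fun i => Complex.exp (a i)) l ∘ finSumFinEquiv.symm)
      (fun k => ?_) (h7.comp _ (Equiv.injective _))
    · change wG V = wG (V ⊓ B) + _
      unfold wG
      simp only [Prod.fst_inf, Prod.snd_inf]
      omega
    · refine Matroid.mem_closure_of_mem _ ?_ (by simp)
      change Sum.elim (fun i => Complex.exp (a i)) l (finSumFinEquiv.symm k) ∈ GG V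
      rcases finSumFinEquiv.symm k with i | i
      · exact Or.inl ⟨_, a1 (t2 i), rfl⟩
      · exact Or.inr (b1 (h2 i))
  · intro h s n a l ha hl hai hli
    have f1 : finrank ℚ (Submodule.span ℚ (range a)) = s := by
      rw [finrank_span_eq_card (li_of_mod hai), Fintype.card_fin]
    have f2 : finrank ℚ (Submodule.span ℚ (range l)) = n := by
      rw [finrank_span_eq_card (li_of_mod hli), Fintype.card_fin]
    have hfin : finG (Submodule.span ℚ (range a), Submodule.span ℚ (range l)) := by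
      refine ⟨⟨?_, ?_⟩, fd_span (finite_range _), fd_span (finite_range _)⟩
      · change Submodule.span ℚ (range a) ≤ AlgQ
        rw [Submodule.span_le]
        rintro _ ⟨i, rfl⟩
        exact ha i
      · change Submodule.span ℚ (range l) ≤ LogQ
        rw [Submodule.span_le]
        rintro _ ⟨i, rfl⟩
        exact hl i
    obtain ⟨v, h4, h5⟩ := Us.LSys.family_of_concentrated (A := GSys) (B := B) bot_le hB h
      (Q := (Submodule.span ℚ (range a), Submodule.span ℚ (range l))) hfin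
      (Prod.ext (inf_span_eq_bot hai) (inf_span_eq_bot hli)) (m := s + n) (by
        change wG _ = wG ⊥ + (s + n)
        unfold wG
        rw [f1, f2]
        simp) (gl_finite a l)
      ((GG_span a l).trans (Q241.SX.M.closure_subset_closure subset_union_left))
    refine ai_of_cover (by simp) h5 fun i => ?_
    rcases h4 i with ⟨k, hk⟩ | ⟨k, hk⟩
    · exact ⟨Sum.inl k, hk⟩
    · exact ⟨Sum.inr k, hk⟩

/-- the Lindemann-Weierstrass theorem: the defect is at most the dimension of the space of logarithms -/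
theorem dfc_le {V : Submodule ℚ ℂ × Submodule ℚ ℂ} (hV : finG V) :
    Us.LSys.dfc (A := GSys) V ≤ finrank ℚ V.2 := by
  have f1 := hV.2.1
  obtain ⟨a, a1, a2, a3⟩ := exists_basis_Q V.1
  have h1 := Pool.Agent.H327R2.SC.lw_algInd a (fun i => hV.1.1 (a2 i)) a1
  have h2 : (finrank ℚ V.1 : ℕ∞) ≤ Q241.SX.M.eRk (GG V) := by
    have h3 : Q241.SX.M.Indep (range fun i => Complex.exp (a i)) := by
      rw [AlgebraicIndependent.matroid_indep_iff]
      exact h1.coe_range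
    have h4 := h3.encard_le_eRk_of_subset (show range (fun i => Complex.exp (a i)) ⊆ GG V by
      rintro _ ⟨i, rfl⟩
      exact Or.inl ⟨_, a2 i, rfl⟩)
    have h5 : (range fun i => Complex.exp (a i)).encard = (finrank ℚ V.1 : ℕ∞) := by
      rw [← image_univ, h1.injective.encard_image, encard_univ]
      simp
    rwa [h5] at h4
  have h3 := Us.LSys.coe_rk (A := GSys) hV
  change _ = Q241.SX.M.eRk (GG V) at h3
  rw [← h3] at h2
  have h4 : finrank ℚ V.1 ≤ Us.LSys.rk (A := GSys) V := by exact_mod_cast h2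
  unfold Us.LSys.dfc
  change ((finrank ℚ V.1 + finrank ℚ V.2 : ℕ) : ℤ) - _ ≤ _
  push_cast
  omega

/-- the canonical pair -/
def CG : Submodule ℚ ℂ × Submodule ℚ ℂ := Bs.Core (X := GSys.X) GSys.o GSys.fin (Us.LSys.dfc (A := GSys))

theorem CG_le_top : CG ≤ (AlgQ, LogQ) := sSup_le fun _ hT => hT.1.1

theorem conc_CG : ∀ V, finG V → Us.LSys.dfc (A := GSys) V ≤ Us.LSys.dfc (A := GSys) (V ⊓ CG) :=
  fun _ hV => Bs.le_inf_core (Us.LSys.sm (A := GSys)) hV

theorem exact_CG : ExactG CG := (exactG_iff CG_le_top).mpr conc_CG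

theorem CG_le {B : Submodule ℚ ℂ × Submodule ℚ ℂ} (hB : B ≤ (AlgQ, LogQ)) (h : ExactG B) : CG ≤ B :=
  Bs.core_min (Us.LSys.sm (A := GSys)) bot_le ((exactG_iff hB).mp h)

theorem dfc_bot : Us.LSys.dfc (A := GSys) (⊥ : Submodule ℚ ℂ × Submodule ℚ ℂ) = 0 := by
  have h1 := dfc_le (V := ⊥) ⟨bot_le, fd_bot, fd_bot⟩
  have h2 : finrank ℚ (⊥ : Submodule ℚ ℂ × Submodule ℚ ℂ).2 = 0 := finrank_bot ℚ ℂ
  have h3 : Q241.SX.M.eRk (GG ⊥) ≤ 0 := by
    rw [← Q241.SX.M.eRk_empty, ← Q241.SX.M.eRk_closure_eq ∅]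
    refine Q241.SX.M.eRk_mono fun x hx => (mem_clQ (S := ∅)).mpr fun D _ => ?_
    exact kill_GG.mpr ⟨bot_le, bot_le⟩ x hx
  have h4 : Us.LSys.rk (A := GSys) (⊥ : Submodule ℚ ℂ × Submodule ℚ ℂ) = 0 := by
    unfold Us.LSys.rk
    change (Q241.SX.M.eRk (GG ⊥)).toNat = 0
    rw [nonpos_iff_eq_zero.mp h3]
    rfl
  unfold Us.LSys.dfc
  rw [h4]
  change ((wG ⊥ : ℕ) : ℤ) - 0 = 0
  unfold wG
  simp

/-- **If the space of logarithms of the canonical pair vanishes then so does the other space.** -/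
theorem CG_bot (h : CG.2 = ⊥) : CG = ⊥ := by
  refine (Bs.core_base_iff (Us.LSys.sm (A := GSys))).mpr fun V hV => ?_
  obtain ⟨T, h1, h2, h3⟩ := Bs.exists_tight (Us.LSys.sm (A := GSys)) hV
  have h4 : T.2 ≤ ⊥ := by
    rw [← h]
    exact (Bs.Tight.le_core h2).2
  have h5 := dfc_le h2.1
  rw [le_bot_iff.mp h4, finrank_bot] at h5
  have h6 := h3 V bot_le le_rfl
  have h7 := dfc_bot
  change Us.LSys.dfc (A := GSys) V ≤ Us.LSys.dfc (A := GSys) (⊥ : Submodule ℚ ℂ × Submodule ℚ ℂ)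
  rw [h7]
  exact h6.trans (by exact_mod_cast h5)

/-- **If the space of logarithms of the canonical pair is finite dimensional then so is the other space.** -/
theorem CG_fd (h : FiniteDimensional ℚ CG.2) : FiniteDimensional ℚ CG.1 := by
  have h1 : finG CG := (Bs.core_fin_iff (Us.LSys.sm (A := GSys))).mpr ⟨finrank ℚ CG.2, fun V hV => by
    obtain ⟨T, h1, h2, h3⟩ := Bs.exists_tight (Us.LSys.sm (A := GSys)) hV
    have h5 := dfc_le h2.1
    have h4 : finrank ℚ T.2 ≤ finrank ℚ CG.2 := fr_le h (Bs.Tight.le_core h2).2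
    have h6 := h3 V bot_le le_rfl
    exact h6.trans (h5.trans (by exact_mod_cast h4))⟩
  exact h1.2.1

theorem CG_fin_iff : finG CG ↔ ∃ C : ℤ, ∀ V, finG V → Us.LSys.dfc (A := GSys) V ≤ C :=
  Bs.core_fin_iff (Us.LSys.sm (A := GSys))

theorem CG_bot_iff : CG = ⊥ ↔ ∀ V, finG V → Us.LSys.dfc (A := GSys) V ≤ 0 := by
  rw [← dfc_bot]
  exact Bs.core_base_iff (Us.LSys.sm (A := GSys))

end Pool.Agent.Q280.ML
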