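import Pool.Agent.Q280.ML.Gf
import Pool.Agent.Q280.ML.ETC
import Pool.Agent.H297R2.Density

/-!
# Gel'fond's conjecture: growth of pairs, the Lindemann-Weierstrass theorem over finite sets, conjugation
-/

set_option autoImplicit false

open Matroid Set Module

noncomputable section

namespace Pool.Agent.Q280.ML

open Pool.Agent.W252 Pool.Agent.W669.Gel
open Pool.Agent.TH813.Core
open Q88.ETO (mem_clQ cj cj_apply cj_cj eRk_image_le)

/-! ### Infinite dimension -/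

theorem AlgQ_inf : ¬ FiniteDimensional ℚ AlgQ := by
  intro h
  obtain ⟨p, hp1, hp2⟩ := Nat.exists_infinite_primes (finrank ℚ AlgQ + 2)
  obtain ⟨x, hx⟩ : ∃ x : ℂ, IsPrimitiveRoot x p := ⟨_, Complex.isPrimitiveRoot_exp p hp2.ne_zero⟩
  have h0 : IsIntegral ℚ x := hx.isIntegral (hp2.pos) |>.tower_top
  have h1 : (minpoly ℚ x).natDegree = p - 1 := by
    rw [← Polynomial.cyclotomic_eq_minpoly_rat hx hp2.pos, Polynomial.natDegree_cyclotomic, Nat.totient_prime hp2]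
  have h2 := linearIndependent_pow (K := ℚ) x
  let f : Fin (minpoly ℚ x).natDegree → AlgQ := fun i => ⟨x ^ (i : ℕ), (h0.pow _).isAlgebraic⟩
  have h3 : LinearIndependent ℚ f := LinearIndependent.of_comp AlgQ.subtype h2
  have h4 := h3.fintype_card_le_finrank
  rw [Fintype.card_fin, h1] at h4
  omega

theorem LogQ_inf : ¬ FiniteDimensional ℚ LogQ := by
  intro h
  let P : Fin (finrank ℚ LogQ + 1) → ℕ := fun i => Nat.nth Nat.Prime i
  have hP : ∀ i, (P i).Prime := fun i => Nat.nth_mem_of_infinite Nat.infinite_setOfPred_prime _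
  have hinj : Function.Injective P := fun i j hij =>
    Fin.ext (Nat.nth_injective Nat.infinite_setOfPred_prime hij)
  have h2 := Pool.Agent.H297R2.linearIndependent_log_prime P hP hinj
  let f : Fin (finrank ℚ LogQ + 1) → LogQ := fun i => ⟨((Real.log (P i) : ℝ) : ℂ), by
    rw [mem_LogQ, ← Complex.ofReal_exp, Real.exp_log (by exact_mod_cast (hP i).pos)]
    simpa using isAlgebraic_natCast (R := ℚ) (A := ℂ) (P i)⟩
  have h3 : LinearIndependent ℚ f := LinearIndependent.of_comp LogQ.subtype h2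
  have h4 := h3.fintype_card_le_finrank
  rw [Fintype.card_fin] at h4
  omega

theorem exists_grow {U : Submodule ℚ ℂ} (hU : ¬ FiniteDimensional ℚ U) {V : Submodule ℚ ℂ}
    (hV : FiniteDimensional ℚ V) (hVU : V ≤ U) : ∀ k : ℕ, ∃ W : Submodule ℚ ℂ, V ≤ W ∧ W ≤ U ∧
      FiniteDimensional ℚ W ∧ finrank ℚ W = finrank ℚ V + k := by
  intro k
  induction k with
  | zero => exact ⟨V, le_rfl, hVU, hV, rfl⟩
  | succ k ih =>
    obtain ⟨W, h1, h2, h3, h4⟩ := ih
    obtain ⟨x, hx, hxW⟩ : ∃ x ∈ U, x ∉ W := by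
      by_contra hcon
      push Not at hcon
      exact hU (fd_le h3 hcon)
    refine ⟨W ⊔ Submodule.span ℚ {x}, h1.trans le_sup_left,
      sup_le h2 ((Submodule.span_singleton_le_iff_mem _ _).mpr hx), fd_sup h3 (fd_span (finite_singleton x)), ?_⟩
    rw [Q88.ETO.finrank_add_span W hxW, h4]
    ring

/-! ### Monotonicity -/

theorem sup_cpl {A Y W : Submodule ℚ ℂ} (hW : FiniteDimensional ℚ W) (hA : A ≤ W) (hY : Y ≤ W) (h : Y ⊓ A = ⊥)
    (hf : finrank ℚ A + finrank ℚ Y = finrank ℚ W) : A ⊔ Y = W := by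
  apply Submodule.eq_of_le_of_finrank_eq (sup_le hA hY)
  have h1 := fr_mod (fd_le hW hA) (fd_le hW hY)
  rw [inf_comm, h, finrank_bot] at h1
  omega

theorem dfcG_mono {V W : Submodule ℚ ℂ × Submodule ℚ ℂ} (hW : finG W) (h : V ≤ W) :
    Us.LSys.dfc (A := GSys) V ≤ Us.LSys.dfc (A := GSys) W := by
  have hV : finG V := ⟨h.trans hW.1, fd_le hW.2.1 h.1, fd_le hW.2.2 h.2⟩
  obtain ⟨Y₁, a1, a2, a3⟩ := exists_cpl hW.2.1 h.1
  obtain ⟨Y₂, b1, b2, b3⟩ := exists_cpl hW.2.2 h.2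
  have f1 : FiniteDimensional ℚ Y₁ := fd_le hW.2.1 a1
  have f2 : FiniteDimensional ℚ Y₂ := fd_le hW.2.2 b1
  have e1 : V.1 ⊔ Y₁ = W.1 := sup_cpl hW.2.1 h.1 a1 a2 a3
  have e2 : V.2 ⊔ Y₂ = W.2 := sup_cpl hW.2.2 h.2 b1 b2 b3
  obtain ⟨a, t1, t2, t3⟩ := exists_basis_Q Y₁
  obtain ⟨l, h1, h2, h3⟩ := exists_basis_Q Y₂
  have h4 : Q241.SX.M.eRk (GG W) ≤ Q241.SX.M.eRk (GG V) + (finrank ℚ Y₁ + finrank ℚ Y₂ : ℕ) := by
    have h5 : GG W ⊆ Q241.SX.M.closure (GG V ∪ gl a l) := by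
      have h6 : W = V ⊔ (Submodule.span ℚ (range a), Submodule.span ℚ (range l)) := by
        rw [t3, h3]
        exact Prod.ext e1.symm e2.symm
      rw [h6]
      refine (GG_sup _ _).trans (Q241.SX.M.closure_subset_closure_of_subset_closure (union_subset ?_ ?_))
      · exact fun x hx => Matroid.mem_closure_of_mem _ (Or.inl hx) (by simp)
      · exact (GG_span a l).trans (Q241.SX.M.closure_subset_closure subset_union_right)
    refine (Q241.SX.M.eRk_mono h5).trans ?_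
    rw [Matroid.eRk_closure_eq]
    refine (Q241.SX.M.eRk_union_le_eRk_add_eRk _ _).trans (add_le_add le_rfl ?_)
    refine (Matroid.eRk_le_encard _ _).trans ((encard_union_le _ _).trans ?_)
    have h5 : (range fun i => Complex.exp (a i)).encard ≤ (finrank ℚ Y₁ : ℕ∞) := by
      rw [← image_univ]
      exact (encard_image_le _ _).trans (by simp)
    have h6 : (range l).encard ≤ (finrank ℚ Y₂ : ℕ∞) := by
      rw [← image_univ]
      exact (encard_image_le _ _).trans (by simp)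
    refine (add_le_add h5 h6).trans ?_
    rw [Nat.cast_add]
  have r1 := Us.LSys.coe_rk (A := GSys) hV
  have r2 := Us.LSys.coe_rk (A := GSys) hW
  change _ = Q241.SX.M.eRk (GG V) at r1
  change _ = Q241.SX.M.eRk (GG W) at r2
  rw [← r1, ← r2] at h4
  have h5 : Us.LSys.rk (A := GSys) W ≤ Us.LSys.rk (A := GSys) V + (finrank ℚ Y₁ + finrank ℚ Y₂) := by
    exact_mod_cast h4
  unfold Us.LSys.dfc
  change ((finrank ℚ V.1 + finrank ℚ V.2 : ℕ) : ℤ) - _ ≤ ((finrank ℚ W.1 + finrank ℚ W.2 : ℕ) : ℤ) - _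
  omega

/-! ### The Lindemann-Weierstrass theorem over finite sets -/

/-- the numbers of a space of algebraic numbers, over a set -/
def WW (S : Set ℂ) (A : Submodule ℚ ℂ) : Set ℂ := S ∪ Complex.exp '' (A : Set ℂ)

theorem kill_WW {D : Derivation ℚ ℂ ℂ} {S : Set ℂ} {A : Submodule ℚ ℂ} :
    (∀ x ∈ WW S A, D x = 0) ↔ (∀ x ∈ S, D x = 0) ∧ A ≤ LinearMap.ker (dl D) := by
  constructor
  · intro h
    exact ⟨fun x hx => h x (Or.inl hx), fun t ht => dlog_eq_zero.2 (h _ (Or.inr ⟨t, ht, rfl⟩))⟩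
  · rintro ⟨h1, h2⟩ x (hx | ⟨t, ht, rfl⟩)
    · exact h1 x hx
    · exact dlog_eq_zero.1 (h2 ht)

theorem WW_mono {S : Set ℂ} {V W : Submodule ℚ ℂ} (h : V ≤ W) : WW S V ⊆ WW S W :=
  union_subset_union_right _ (image_mono h)

theorem WW_span {S : Set ℂ} {s : ℕ} (a : Fin s → ℂ) :
    WW S (Submodule.span ℚ (range a)) ⊆ Q241.SX.M.closure (S ∪ range fun i => Complex.exp (a i)) := by
  intro x hx
  refine (mem_clQ (S := S ∪ range fun i => Complex.exp (a i))).mpr fun D hD => ?_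
  refine kill_WW.mpr ⟨fun x hx => hD x (Or.inl hx), ?_⟩ x hx
  rw [Submodule.span_le]
  rintro _ ⟨i, rfl⟩
  exact dlog_eq_zero.2 (hD _ (Or.inr ⟨i, rfl⟩))

theorem WW_loc {S : Set ℂ} {B : Submodule ℚ ℂ} {T : Set ℂ} (hT : T.Finite)
    (hTB : T ⊆ WW S B) : ∃ V ≤ B, FiniteDimensional ℚ V ∧ T ⊆ WW S V := by
  have key : ∀ a ∈ WW S B, ∃ V ≤ B, FiniteDimensional ℚ V ∧ a ∈ WW S V := by
    rintro a (ha | ⟨w, hw, rfl⟩)
    · exact ⟨⊥, bot_le, fd_bot, Or.inl ha⟩
    · exact ⟨_, (Submodule.span_singleton_le_iff_mem _ _).mpr hw, fd_span (finite_singleton w),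
        Or.inr ⟨w, Submodule.mem_span_singleton_self w, rfl⟩⟩
  induction T, hT using Set.Finite.induction_on with
  | empty => exact ⟨⊥, bot_le, fd_bot, empty_subset _⟩
  | insert _ _ ih =>
    obtain ⟨V, h1, h2, h3⟩ := ih ((subset_insert _ _).trans hTB)
    obtain ⟨W, h4, h5, h6⟩ := key _ (hTB (mem_insert _ _))
    refine ⟨V ⊔ W, sup_le h1 h4, fd_sup h2 h5, insert_subset ?_ ?_⟩
    · exact WW_mono (le_sup_right : W ≤ V ⊔ W) h6
    · exact h3.trans (WW_mono (le_sup_left : V ≤ V ⊔ W))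

/-- the system of the spaces of algebraic numbers over a finite set -/
@[reducible] def WSys (S : Set ℂ) (hS : S.Finite) : Us.LSys where
  X := Submodule ℚ ℂ
  o := ⊥
  u := AlgQ
  fin A := A ≤ AlgQ ∧ FiniteDimensional ℚ A
  w A := finrank ℚ A
  P := WW S
  base := ⟨bot_le, fd_bot⟩
  ge _ := bot_le
  top h := h.1
  sup ha hb := ⟨sup_le ha.1 hb.1, fd_sup ha.2 hb.2⟩
  le hb _ h2 := ⟨h2.trans hb.1, fd_le hb.2 h2⟩
  lt hb _ hab := fr_lt hb.2 hab
  wmod ha hb := fr_mod ha.2 hb.2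
  cpt D hD hdir a ha h := fd_cpt D hD hdir ha.2 h
  mono h := WW_mono h
  Psup {a b} := by
    intro x hx
    refine (mem_clQ (S := WW S a ∪ WW S b)).mpr fun D hD => ?_
    obtain ⟨h1, h2⟩ := kill_WW.mp fun x hx => hD x (Or.inl hx)
    obtain ⟨h3, h4⟩ := kill_WW.mp fun x hx => hD x (Or.inr hx)
    exact kill_WW.mpr ⟨h1, sup_le h2 h4⟩ x hx
  Pfin {A} hA := by
    have := hA.2
    obtain ⟨a, -, -, ha⟩ := exists_basis_Q A
    have h4 := WW_span (S := S) a
    rw [ha] at h4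
    have h5 : Q241.SX.M.eRk (WW S A) ≤ (S ∪ range fun i => Complex.exp (a i)).encard := by
      refine (Q241.SX.M.eRk_mono h4).trans ?_
      rw [Matroid.eRk_closure_eq]
      exact Matroid.eRk_le_encard _ _
    exact ne_top_of_le_ne_top (encard_ne_top_iff.mpr (hS.union (finite_range _))) h5
  Ploc _ hB hT hTB := by
    obtain ⟨V, h1, h2, h3⟩ := WW_loc hT hTB
    exact ⟨V, h1, ⟨h1.trans hB, h2⟩, h3.trans (Matroid.subset_closure_of_subset' _ (Subset.refl _) (by simp))⟩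

/-- exactness over a set -/
def ExactW (S : Set ℂ) (B : Submodule ℚ ℂ) : Prop :=
  ∀ (n : ℕ) (a : Fin n → ℂ), (∀ i, IsAlgebraic ℚ (a i)) → LinearIndependent ℚ (fun i => B.mkQ (a i)) →
    AlgebraicIndependent (IntermediateField.adjoin ℚ (WW S B)) (fun i => Complex.exp (a i))

theorem exactW_iff {S : Set ℂ} (hS : S.Finite) {B : Submodule ℚ ℂ} (hB : B ≤ AlgQ) : ExactW S B ↔
    ∀ V, (V ≤ AlgQ ∧ FiniteDimensional ℚ V) →
      Us.LSys.dfc (A := WSys S hS) V ≤ Us.LSys.dfc (A := WSys S hS) (V ⊓ B) := by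
  constructor
  · intro h V hV
    obtain ⟨Y₁, a1, a2, a3⟩ := exists_cpl hV.2 (inf_le_left : V ⊓ B ≤ V)
    have f1 : FiniteDimensional ℚ Y₁ := fd_le hV.2 a1
    obtain ⟨a, t1, t2, t3⟩ := exists_basis_Q Y₁
    have h6 : Submodule.span ℚ (range a) ⊓ B = ⊥ := by
      rw [t3, eq_bot_iff, ← a2]
      exact le_inf inf_le_left (le_inf (inf_le_left.trans a1) inf_le_right)
    have h7 := h _ a (fun i => hV.1 (a1 (t2 i))) (li_of_inf_bot t1 h6)
    refine Us.LSys.concentrated_of_family (A := WSys S hS) bot_le hV (m := finrank ℚ Y₁) ?_ _ (fun k => ?_) h7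
    · change finrank ℚ V = finrank ℚ (V ⊓ B : Submodule ℚ ℂ) + finrank ℚ Y₁
      omega
    · exact Matroid.mem_closure_of_mem _ (Or.inr ⟨_, a1 (t2 k), rfl⟩) (by simp)
  · intro h s a ha hai
    have f1 : finrank ℚ (Submodule.span ℚ (range a)) = s := by
      rw [finrank_span_eq_card (li_of_mod hai), Fintype.card_fin]
    have hfin : Submodule.span ℚ (range a) ≤ AlgQ ∧ FiniteDimensional ℚ (Submodule.span ℚ (range a)) := by
      refine ⟨?_, fd_span (finite_range _)⟩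
      rw [Submodule.span_le]
      rintro _ ⟨i, rfl⟩
      exact ha i
    obtain ⟨v, h4, h5⟩ := Us.LSys.family_of_concentrated (A := WSys S hS) (B := B) bot_le hB h
      (Q := Submodule.span ℚ (range a)) hfin (inf_span_eq_bot hai) (m := s) (by
        change finrank ℚ (Submodule.span ℚ (range a)) = finrank ℚ (⊥ : Submodule ℚ ℂ) + s
        rw [f1, finrank_bot, zero_add]) (Z := range fun i => Complex.exp (a i)) (finite_range _)
      ((WW_span a).trans (Q241.SX.M.closure_subset_closure (by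
        rintro x (hx | hx)
        · exact Or.inr (Or.inl hx)
        · exact Or.inl hx)))
    exact ai_of_cover le_rfl h5 fun i => h4 i

/-- the exceptional space of a finite set -/
def AS (S : Set ℂ) (hS : S.Finite) : Submodule ℚ ℂ :=
  Bs.Core (X := (WSys S hS).X) (WSys S hS).o (WSys S hS).fin (Us.LSys.dfc (A := WSys S hS))

variable {S : Set ℂ} (hS : S.Finite)

theorem AS_alg : AS S hS ≤ AlgQ := sSup_le fun _ hT => hT.1.1

theorem exact_AS : ExactW S (AS S hS) :=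
  (exactW_iff hS (AS_alg hS)).mpr fun _ hV => Bs.le_inf_core (Us.LSys.sm (A := WSys S hS)) hV

theorem AS_le {B : Submodule ℚ ℂ} (hB : B ≤ AlgQ) (h : ExactW S B) : AS S hS ≤ B :=
  Bs.core_min (Us.LSys.sm (A := WSys S hS)) bot_le ((exactW_iff hS hB).mp h)

/-- the Lindemann-Weierstrass theorem -/
theorem AS_fd : FiniteDimensional ℚ (AS S hS) := by
  refine ((Bs.core_fin_iff (Us.LSys.sm (A := WSys S hS))).mpr ⟨0, fun V hV => ?_⟩).2
  have f1 := hV.2
  obtain ⟨a, a1, a2, a3⟩ := exists_basis_Q V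
  have h1 := Pool.Agent.H327R2.SC.lw_algInd a (fun i => hV.1 (a2 i)) a1
  have h2 : (finrank ℚ V : ℕ∞) ≤ Q241.SX.M.eRk (WW S V) := by
    have h3 : Q241.SX.M.Indep (range fun i => Complex.exp (a i)) := by
      rw [AlgebraicIndependent.matroid_indep_iff]
      exact h1.coe_range
    have h4 := h3.encard_le_eRk_of_subset (show range (fun i => Complex.exp (a i)) ⊆ WW S V by
      rintro _ ⟨i, rfl⟩
      exact Or.inr ⟨_, a2 i, rfl⟩)
    have h5 : (range fun i => Complex.exp (a i)).encard = (finrank ℚ V : ℕ∞) := by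
      rw [← image_univ, h1.injective.encard_image, encard_univ]
      simp
    rwa [h5] at h4
  have h3 := Us.LSys.coe_rk (A := WSys S hS) hV
  change _ = Q241.SX.M.eRk (WW S V) at h3
  rw [← h3] at h2
  have h4 : finrank ℚ V ≤ Us.LSys.rk (A := WSys S hS) V := by exact_mod_cast h2
  unfold Us.LSys.dfc
  change ((finrank ℚ V : ℕ) : ℤ) - _ ≤ _
  omega

theorem ai_mono {Y Z : Set ℂ} (h : Y ⊆ Z) {ι : Type} {v : ι → ℂ}
    (hv : AlgebraicIndependent (IntermediateField.adjoin ℚ Z) v) :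
    AlgebraicIndependent (IntermediateField.adjoin ℚ Y) v := by
  have h1 : IntermediateField.adjoin ℚ Y ≤ IntermediateField.adjoin ℚ Z := IntermediateField.adjoin.mono ℚ _ _ h
  exact Q88.ETO.ai_of_le (R := IntermediateField.adjoin ℚ Y) (K := IntermediateField.adjoin ℚ Z)
    (fun r => ⟨⟨r.1, h1 r.2⟩, rfl⟩) hv

theorem AS_mono {S' : Set ℂ} (hS' : S'.Finite) (h : S ⊆ S') : AS S hS ≤ AS S' hS' := by
  refine AS_le hS (AS_alg hS') fun n a ha hai => ?_
  exact ai_mono (union_subset_union_left _ h) (exact_AS hS' n a ha hai)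

/-- **The exceptional spaces of sets of logarithms lie in the canonical pair.** -/
theorem AS_le_CG (hSL : S ⊆ LogQ) : AS S hS ≤ CG.1 := by
  refine AS_le hS CG_le_top.1 fun n a ha hai => ?_
  -- a basis of the span of `S` modulo the logarithms of the canonical pair
  obtain ⟨Y, y1, y2, y3⟩ := exists_cpl (fd_span (K := ℚ) hS) (inf_le_left : Submodule.span ℚ S ⊓ CG.2 ≤ _)
  have f2 : FiniteDimensional ℚ Y := fd_le (fd_span (K := ℚ) hS) y1
  obtain ⟨l, l1, l2, l3⟩ := exists_basis_Q Y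
  have hSL' : Submodule.span ℚ S ≤ LogQ := Submodule.span_le.mpr hSL
  have h5 : Submodule.span ℚ (range l) ⊓ CG.2 = ⊥ := by
    rw [l3, eq_bot_iff, ← y2]
    exact le_inf inf_le_left (le_inf (inf_le_left.trans y1) inf_le_right)
  have h6 := exact_CG _ _ a l ha (fun i => hSL' (y1 (l2 i))) hai (li_of_inf_bot l1 h5)
  -- the exponentials are independent over the numbers of the canonical pair and `l`
  by_contra hcon
  obtain ⟨i, hi⟩ := Pool.Agent.Q280.MD.exists_dep _ hcon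
  apply Pool.Agent.Q280.MD.notMem_of_indep h6 (Sum.inl i)
  refine (mem_clQ (S := GG CG ∪ Sum.elim (fun i => Complex.exp (a i)) l '' {Sum.inl i}ᶜ)).mpr fun D hD => ?_
  obtain ⟨h7, h8⟩ := kill_GG.mp fun x hx => hD x (Or.inl hx)
  have h9 : ∀ k, D (l k) = 0 := fun k => hD _ (Or.inr ⟨Sum.inr k, by simp, rfl⟩)
  have h10 : ∀ k, k ≠ i → D (Complex.exp (a k)) = 0 := fun k hk =>
    hD _ (Or.inr ⟨Sum.inl k, by simpa using hk, rfl⟩)
  refine (mem_clQ (S := WW S CG.1 ∪ (fun i => Complex.exp (a i)) '' {i}ᶜ)).mp hi D ?_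
  rintro x ((hx | ⟨t, ht, rfl⟩) | ⟨k, hk, rfl⟩)
  · have e1 : Submodule.span ℚ S ≤ (Submodule.span ℚ S ⊓ CG.2) ⊔ Y :=
      (sup_cpl (fd_span (K := ℚ) hS) inf_le_left y1 y2 y3).ge
    have e2 : (Submodule.span ℚ S ⊓ CG.2) ⊔ Y ≤ LinearMap.ker (D : ℂ →ₗ[ℚ] ℂ) := by
      refine sup_le (inf_le_right.trans h8) ?_
      rw [← l3, Submodule.span_le]
      rintro _ ⟨k, rfl⟩
      exact h9 k
    exact e2 (e1 (Submodule.subset_span hx))
  · exact dlog_eq_zero.1 (h7 ht)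
  · exact h10 k hk

/-- the union of the exceptional spaces of the finite sets of logarithms -/
def UA : Submodule ℚ ℂ where
  carrier := {a | ∃ (S : Set ℂ) (hS : S.Finite), S ⊆ LogQ ∧ a ∈ AS S hS}
  add_mem' := by
    rintro a b ⟨S, hS, h1, h2⟩ ⟨S', hS', h3, h4⟩
    exact ⟨S ∪ S', hS.union hS', union_subset h1 h3, Submodule.add_mem _ (AS_mono hS _ subset_union_left h2)
      (AS_mono hS' _ subset_union_right h4)⟩
  zero_mem' := ⟨∅, finite_empty, empty_subset _, Submodule.zero_mem _⟩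
  smul_mem' := by
    rintro q a ⟨S, hS, h1, h2⟩
    exact ⟨S, hS, h1, Submodule.smul_mem _ q h2⟩

theorem exists_AS {V : Submodule ℚ ℂ} (hV : FiniteDimensional ℚ V) (h : V ≤ UA) {S₀ : Set ℂ} (hS₀ : S₀.Finite)
    (hS₀L : S₀ ⊆ LogQ) : ∃ (S : Set ℂ) (hS : S.Finite), S₀ ⊆ S ∧ S ⊆ LogQ ∧ V ≤ AS S hS := by
  obtain ⟨a, a1, a2, a3⟩ := exists_basis_Q V
  choose T hT h1 h2 using fun i => h (a2 i)
  refine ⟨S₀ ∪ ⋃ i, T i, hS₀.union (finite_iUnion hT), subset_union_left, union_subset hS₀L (iUnion_subset h1), ?_⟩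
  refine a3.symm.le.trans ?_
  rw [Submodule.span_le]
  rintro _ ⟨i, rfl⟩
  exact AS_mono (hT i) _ ((subset_iUnion T i).trans subset_union_right) (h2 i)

/-- **The algebraic numbers of the canonical pair: the union of the exceptional spaces.** -/
theorem CG_eq_UA : CG.1 = UA := by
  have h0 : UA ≤ CG.1 := by
    rintro a ⟨S, hS, h1, h2⟩
    exact AS_le_CG hS h1 h2
  refine le_antisymm ?_ h0
  have hle : ((UA, CG.2) : Submodule ℚ ℂ × Submodule ℚ ℂ) ≤ (AlgQ, LogQ) :=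
    ⟨h0.trans CG_le_top.1, CG_le_top.2⟩
  refine (CG_le hle ((exactG_iff hle).mpr fun V hV => ?_)).1
  obtain ⟨Y₁, a1, a2, a3⟩ := exists_cpl hV.2.1 (inf_le_left : V.1 ⊓ UA ≤ V.1)
  obtain ⟨Y₂, b1, b2, b3⟩ := exists_cpl hV.2.2 (inf_le_left : V.2 ⊓ CG.2 ≤ V.2)
  have f1 : FiniteDimensional ℚ Y₁ := fd_le hV.2.1 a1
  have f2 : FiniteDimensional ℚ Y₂ := fd_le hV.2.2 b1
  have fV2 := hV.2.2
  obtain ⟨a, t1, t2, t3⟩ := exists_basis_Q Y₁
  obtain ⟨l, k1, k2, k3⟩ := exists_basis_Q Y₂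
  obtain ⟨m, m1, m2, m3⟩ := exists_basis_Q V.2
  obtain ⟨S, hS, s1, s2, s3⟩ := exists_AS (fd_le hV.2.1 inf_le_left) (inf_le_right : V.1 ⊓ UA ≤ UA)
    (finite_range m) (by
      rintro _ ⟨i, rfl⟩
      exact hV.1.2 (m2 i))
  -- the first step
  have r1 : Q241.SX.M.eRk (GG (V.1 ⊓ UA, V.2 ⊓ CG.2)) + (finrank ℚ Y₂ : ℕ) ≤
      Q241.SX.M.eRk (GG (V.1 ⊓ UA, V.2)) := by
    have h5 : Submodule.span ℚ (range l) ⊓ CG.2 = ⊥ := by
      rw [k3, eq_bot_iff, ← b2]
      exact le_inf inf_le_left (le_inf (inf_le_left.trans b1) inf_le_right)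
    have h6 := exact_CG 0 _ Fin.elim0 l (fun i => i.elim0) (fun i => hV.1.2 (b1 (k2 i)))
      (linearIndependent_empty_type) (li_of_inf_bot k1 h5)
    have h7 := h6.comp Sum.inr Sum.inr_injective
    have h8 := Pool.Agent.Q280.MD.rank_of_indep (T := GG (V.1 ⊓ UA, V.2 ⊓ CG.2)) (Y := GG CG)
      ((GG_mono ⟨inf_le_right.trans h0, inf_le_right⟩).trans (Q241.SX.subset_cl _)) _ _ h7
    refine h8.trans (Q241.SX.M.eRk_mono (union_subset (GG_mono ⟨le_rfl, inf_le_left⟩) ?_))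
    rintro _ ⟨i, rfl⟩
    exact Or.inr (b1 (k2 i))
  -- the second step
  have r2 : Q241.SX.M.eRk (GG (V.1 ⊓ UA, V.2)) + (finrank ℚ Y₁ : ℕ) ≤ Q241.SX.M.eRk (GG V) := by
    have h5 : Submodule.span ℚ (range a) ⊓ AS S hS = ⊥ := by
      rw [t3, eq_bot_iff, ← a2]
      exact le_inf inf_le_left (le_inf (inf_le_left.trans a1) (inf_le_right.trans fun x hx => ⟨S, hS, s2, hx⟩))
    have h6 := exact_AS hS _ a (fun i => hV.1.1 (a1 (t2 i))) (li_of_inf_bot t1 h5)
    have h8 := Pool.Agent.Q280.MD.rank_of_indep (T := GG (V.1 ⊓ UA, V.2)) (Y := WW S (AS S hS)) (by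
      intro x hx
      refine (mem_clQ (S := WW S (AS S hS))).mpr fun D hD => ?_
      obtain ⟨e1, e2⟩ := kill_WW.mp hD
      refine kill_GG.mpr ⟨s3.trans e2, ?_⟩ x hx
      change V.2 ≤ _
      rw [← m3, Submodule.span_le]
      rintro _ ⟨i, rfl⟩
      exact e1 _ (s1 ⟨i, rfl⟩)) _ _ h6
    refine h8.trans (Q241.SX.M.eRk_mono (union_subset (GG_mono ⟨inf_le_left, le_rfl⟩) ?_))
    rintro _ ⟨i, rfl⟩
    exact Or.inl ⟨_, a1 (t2 i), rfl⟩
  have c1 := Us.LSys.coe_rk (A := GSys) hV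
  have c2 := Us.LSys.coe_rk (A := GSys) (V := V ⊓ (UA, CG.2))
    ⟨inf_le_left.trans hV.1, fd_le hV.2.1 inf_le_left, fd_le hV.2.2 inf_le_left⟩
  change _ = Q241.SX.M.eRk (GG V) at c1
  change _ = Q241.SX.M.eRk (GG (V.1 ⊓ UA, V.2 ⊓ CG.2)) at c2
  have r3 := (add_le_add r1 (le_refl ((finrank ℚ Y₁ : ℕ) : ℕ∞))).trans r2
  rw [← c1, ← c2] at r3
  have r4 : Us.LSys.rk (A := GSys) (V ⊓ (UA, CG.2)) + finrank ℚ Y₂ + finrank ℚ Y₁ ≤ Us.LSys.rk (A := GSys) V := by
    exact_mod_cast r3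
  unfold Us.LSys.dfc
  change ((finrank ℚ V.1 + finrank ℚ V.2 : ℕ) : ℤ) - _ ≤
    ((finrank ℚ (V.1 ⊓ UA : Submodule ℚ ℂ) + finrank ℚ (V.2 ⊓ CG.2 : Submodule ℚ ℂ) : ℕ) : ℤ) - _
  omega

end Pool.Agent.Q280.ML
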