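import Pool.Agent.Q280.ML.SysU
import Pool.Agent.Q280.ML.ETX

/-!
# Families of spaces of logarithms and of elliptic logarithms for arbitrarily many elliptic curves
-/

set_option autoImplicit false

open Matroid Set Module
open scoped PeriodPair ComplexConjugate

noncomputable section

namespace Pool.Agent.Q280.ML.OM

open H667R3 Pool.Agent.W245.EB Pool.Agent.TH813.Ell
open Pool.Agent.W252 Pool.Agent.W669.Gel
open Pool.Agent.TH813.Core
open Pool.Agent.Y776.Et (ζ)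
open Q88.ETO (mem_clQ)

variable {ι : Type} {Λ : ι → PeriodPair}

/-- families of spaces -/
abbrev Fam (Λ : ι → PeriodPair) : Type := Submodule ℚ ℂ × (∀ c, Submodule (kL (Λ c)) ℂ)

/-- the families in which every space of elliptic logarithms is zero or contains the periods -/
def Adm (Λ : ι → PeriodPair) : CompleteSublattice (Fam Λ) :=
  CompleteSublattice.mk' {F | ∀ c, F.2 c = ⊥ ∨ P₂ (Λ c) ≤ F.2 c}
    (fun s hs => by
      intro c
      by_cases h : ∀ F ∈ s, F.2 c = ⊥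
      · left
        rw [Prod.snd_sSup, sSup_apply, eq_bot_iff]
        refine iSup_le fun f => ?_
        obtain ⟨f, F, hF, rfl⟩ := f
        exact (h F hF).le
      · right
        push Not at h
        obtain ⟨F, hF, hFc⟩ := h
        have h1 : P₂ (Λ c) ≤ F.2 c := (hs hF c).resolve_left hFc
        exact h1.trans ((le_sSup hF : F ≤ sSup s).2 c))
    (fun s hs => by
      intro c
      by_cases h : ∃ F ∈ s, F.2 c = ⊥
      · left
        obtain ⟨F, hF, hFc⟩ := h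
        rw [eq_bot_iff, ← hFc]
        exact (sInf_le hF : sInf s ≤ F).2 c
      · right
        push Not at h
        rw [Prod.snd_sInf, sInf_apply]
        refine le_iInf fun f => ?_
        obtain ⟨f, F, hF, rfl⟩ := f
        exact (hs hF c).resolve_left (h F hF))

theorem mem_Adm {F : Fam Λ} : F ∈ Adm Λ ↔ ∀ c, F.2 c = ⊥ ∨ P₂ (Λ c) ≤ F.2 c := Iff.rfl

/-- the lattice of the families -/
abbrev XX (Λ : ι → PeriodPair) : Type := Adm Λ

instance pi_mod {κ : Type*} {α : κ → Type*} [∀ i, Lattice (α i)] [∀ i, IsModularLattice (α i)] :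
    IsModularLattice (∀ i, α i) where
  sup_inf_le_assoc_of_le := fun {_} y {_} h i => IsModularLattice.sup_inf_le_assoc_of_le (y i) (h i)

instance XX_mod : IsModularLattice (XX Λ) where
  sup_inf_le_assoc_of_le := fun {x} y {z} h =>
    (IsModularLattice.sup_inf_le_assoc_of_le (x := x.1) y.1 (z := z.1) h : (x.1 ⊔ y.1) ⊓ z.1 ≤ x.1 ⊔ y.1 ⊓ z.1)

theorem XX_inf_fst (F G : XX Λ) : (F ⊓ G).1.1 = F.1.1 ⊓ G.1.1 := rfl
theorem XX_sup_fst (F G : XX Λ) : (F ⊔ G).1.1 = F.1.1 ⊔ G.1.1 := rfl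
theorem XX_inf_snd (F G : XX Λ) (c : ι) : (F ⊓ G).1.2 c = F.1.2 c ⊓ G.1.2 c := rfl
theorem XX_sup_snd (F G : XX Λ) (c : ι) : (F ⊔ G).1.2 c = F.1.2 c ⊔ G.1.2 c := rfl

theorem P₂_ne (L : PeriodPair) : P₂ L ≠ ⊥ := by
  intro h
  have h1 : L.ω₁ ∈ P₂ L := lattice_le_P₂ L.ω₁_mem_lattice
  rw [h, Submodule.mem_bot] at h1
  have h2 := half₁ L
  rw [h1, zero_div] at h2
  exact h2 L.lattice.zero_mem

/-- the numbers of a family -/
def PN (F : XX Λ) : Set ℂ :=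
  ((F.1.1 : Set ℂ) ∪ Complex.exp '' (F.1.1 : Set ℂ)) ∪ {x | ∃ c, F.1.2 c ≠ ⊥ ∧ x ∈ Nums (Λ c) (F.1.2 c)}

theorem PN_mono {F G : XX Λ} (h : F ≤ G) : PN F ⊆ PN G := by
  have h' : F.1 ≤ G.1 := h
  rintro x (hx | ⟨c, hc, hx⟩)
  · exact Or.inl (union_subset_union h'.1 (image_mono h'.1) hx)
  · refine Or.inr ⟨c, fun h0 => hc ?_, Nums_mono (SetLike.coe_subset_coe.mpr (h'.2 c)) hx⟩
    have := h'.2 c
    rw [h0] at this
    exact le_bot_iff.mp this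

theorem kill_T {D : Derivation ℚ ℂ ℂ} {T : Submodule ℚ ℂ} :
    (∀ x ∈ (T : Set ℂ) ∪ Complex.exp '' (T : Set ℂ), D x = 0) ↔
      T ≤ LinearMap.ker (D : ℂ →ₗ[ℚ] ℂ) ∧ T ≤ LinearMap.ker (dl D) := by
  constructor
  · intro h
    exact ⟨fun t ht => h _ (Or.inl ht), fun t ht => dlog_eq_zero.2 (h _ (Or.inr ⟨t, ht, rfl⟩))⟩
  · rintro ⟨h1, h2⟩ x (hx | ⟨t, ht, rfl⟩)
    · exact h1 hx
    · exact dlog_eq_zero.1 (h2 ht)

theorem T_sup (T T' : Submodule ℚ ℂ) :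
    ((T ⊔ T' : Submodule ℚ ℂ) : Set ℂ) ∪ Complex.exp '' ((T ⊔ T' : Submodule ℚ ℂ) : Set ℂ) ⊆
      Q241.SX.M.closure (((T : Set ℂ) ∪ Complex.exp '' (T : Set ℂ)) ∪ ((T' : Set ℂ) ∪ Complex.exp '' (T' : Set ℂ))) := by
  intro x hx
  refine (mem_clQ (S := _)).mpr fun D hD => ?_
  obtain ⟨h1, h2⟩ := kill_T.mp fun x hx => hD x (Or.inl hx)
  obtain ⟨h3, h4⟩ := kill_T.mp fun x hx => hD x (Or.inr hx)
  exact kill_T.mpr ⟨sup_le h1 h3, sup_le h2 h4⟩ x hx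

theorem T_span {s : ℕ} (t : Fin s → ℂ) :
    ((Submodule.span ℚ (range t) : Submodule ℚ ℂ) : Set ℂ) ∪
      Complex.exp '' ((Submodule.span ℚ (range t) : Submodule ℚ ℂ) : Set ℂ) ⊆ Q241.SX.M.closure (ex t) := by
  intro x hx
  refine (mem_clQ (S := ex t)).mpr fun D hD => ?_
  refine kill_T.mpr ⟨?_, ?_⟩ x hx
  · rw [Submodule.span_le]
    rintro _ ⟨i, rfl⟩
    exact hD _ (mem_iUnion.mpr ⟨i, Or.inl rfl⟩)
  · rw [Submodule.span_le]
    rintro _ ⟨i, rfl⟩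
    exact dlog_eq_zero.2 (hD _ (mem_iUnion.mpr ⟨i, Or.inr rfl⟩))

theorem PN_sup (F G : XX Λ) : PN (F ⊔ G) ⊆ Q241.SX.M.closure (PN F ∪ PN G) := by
  rintro x (hx | ⟨c, hc, hx⟩)
  · refine Q241.SX.M.closure_subset_closure ?_ (T_sup F.1.1 G.1.1 hx)
    exact union_subset_union subset_union_left subset_union_left
  · rw [XX_sup_snd] at hc hx
    by_cases hF : F.1.2 c = ⊥
    · rw [hF, bot_sup_eq] at hc hx
      exact Matroid.mem_closure_of_mem _ (Or.inr (Or.inr ⟨c, hc, hx⟩)) (by simp)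
    by_cases hG : G.1.2 c = ⊥
    · rw [hG, sup_bot_eq] at hc hx
      exact Matroid.mem_closure_of_mem _ (Or.inl (Or.inr ⟨c, hc, hx⟩)) (by simp)
    refine Q241.SX.M.closure_subset_closure ?_ (Nums_sup _ _ hx)
    exact union_subset_union (fun x hx => Or.inr ⟨c, hF, hx⟩) (fun x hx => Or.inr ⟨c, hG, hx⟩)

/-- finite families between the periods and a given family -/
def finO (u F : XX Λ) : Prop :=
  P₁ ≤ F.1.1 ∧ F ≤ u ∧ FiniteDimensional ℚ F.1.1 ∧ (∀ c, FiniteDimensional (kL (Λ c)) (F.1.2 c)) ∧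
    {c | F.1.2 c ≠ ⊥}.Finite

/-- the family of `2πi ℚ` and of the zero spaces -/
def oo (Λ : ι → PeriodPair) : XX Λ := ⟨(P₁, ⊥), fun _ => Or.inl rfl⟩

theorem oo_le {F : XX Λ} : oo Λ ≤ F ↔ P₁ ≤ F.1.1 := ⟨fun h => h.1, fun h => ⟨h, bot_le⟩⟩

theorem finO_oo {u : XX Λ} (hu : P₁ ≤ u.1.1) : finO u (oo Λ) :=
  ⟨le_rfl, oo_le.mpr hu, fd_P₁, fun _ => fd_bot, by
    have : {c | (oo Λ).1.2 c ≠ ⊥} = ∅ := by
      ext c
      simp [oo]
    rw [this]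
    exact finite_empty⟩

theorem PN_fg {u F : XX Λ} (hF : finO u F) : ∃ Z : Set ℂ, Z.Finite ∧ PN F ⊆ Q241.SX.M.closure Z := by
  obtain ⟨-, -, h1, h2, h3⟩ := hF
  obtain ⟨t, -, -, ht⟩ := exists_basis_Q F.1.1
  have key : ∀ c, ∃ Z : Set ℂ, Z.Finite ∧ Nums (Λ c) (F.1.2 c) ⊆ Q241.SX.M.closure Z := fun c => by
    have := h2 c
    obtain ⟨p, p1, p2, p3⟩ := exists_basis_off (L := Λ c) (F.1.2 c)
    have h4 := Nums_span p3
    rw [span_eq (h2 c) p1 p2] at h4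
    exact ⟨_, (pts_finite p).union Nums_bot_fin, h4⟩
  choose Z hZ1 hZ2 using key
  refine ⟨ex t ∪ ⋃ c ∈ {c | F.1.2 c ≠ ⊥}, Z c, (ex_finite t).union (h3.biUnion fun c _ => hZ1 c), ?_⟩
  rintro x (hx | ⟨c, hc, hx⟩)
  · rw [← ht] at hx
    exact Q241.SX.M.closure_subset_closure subset_union_left (T_span t hx)
  · exact Q241.SX.M.closure_subset_closure ((subset_biUnion_of_mem (u := Z) hc).trans subset_union_right) (hZ2 c hx)

theorem PN_rk {u F : XX Λ} (hF : finO u F) : Q241.SX.M.eRk (PN F) ≠ ⊤ := by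
  obtain ⟨Z, hZ, h⟩ := PN_fg hF
  have h5 : Q241.SX.M.eRk (PN F) ≤ Z.encard := by
    refine (Q241.SX.M.eRk_mono h).trans ?_
    rw [Matroid.eRk_closure_eq]
    exact Matroid.eRk_le_encard _ _
  exact ne_top_of_le_ne_top (encard_ne_top_iff.mpr hZ) h5

/-! ### The weight -/

/-- the weight of one component -/
def wc (L : PeriodPair) (V : Submodule (kL L) ℂ) : ℕ := 2 * finrank (kL L) V - 1

theorem wc_bot (L : PeriodPair) : wc L ⊥ = 0 := by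
  unfold wc
  rw [finrank_bot]

/-- the weight -/
def wO (F : XX Λ) : ℕ := finrank ℚ F.1.1 + ∑ᶠ c, wc (Λ c) (F.1.2 c)

theorem supp_sub (F : XX Λ) : Function.support (fun c => wc (Λ c) (F.1.2 c)) ⊆ {c | F.1.2 c ≠ ⊥} := by
  intro c hc h
  rw [Function.mem_support] at hc
  exact hc (by rw [h, wc_bot])

theorem wO_eq (F : XX Λ) (S : Finset ι) (hS : {c | F.1.2 c ≠ ⊥} ⊆ S) :
    wO F = finrank ℚ F.1.1 + ∑ c ∈ S, wc (Λ c) (F.1.2 c) := by
  unfold wO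
  rw [finsum_eq_sum_of_support_subset _ ((supp_sub F).trans hS)]

theorem fr_pos {L : PeriodPair} {V : Submodule (kL L) ℂ} (hV : FiniteDimensional (kL L) V) (h : V ≠ ⊥) :
    1 ≤ finrank (kL L) V := by
  have h1 := fr_lt hV (bot_lt_iff_ne_bot.mpr h)
  omega

theorem wc_mono {L : PeriodPair} {V W : Submodule (kL L) ℂ} (hW : FiniteDimensional (kL L) W) (h : V ≤ W) :
    wc L V ≤ wc L W := by
  have := fr_le hW h
  unfold wc
  omega

theorem wc_lt {L : PeriodPair} {V W : Submodule (kL L) ℂ} (hW : FiniteDimensional (kL L) W) (h : V < W) :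
    wc L V < wc L W := by
  have := fr_lt hW h
  unfold wc
  omega

theorem wc_mod {L : PeriodPair} {V W : Submodule (kL L) ℂ} (hV : FiniteDimensional (kL L) V)
    (hW : FiniteDimensional (kL L) W) (h1 : V = ⊥ ∨ P₂ L ≤ V) (h2 : W = ⊥ ∨ P₂ L ≤ W) :
    wc L V + wc L W = wc L (V ⊓ W) + wc L (V ⊔ W) := by
  rcases h1 with rfl | h1
  · rw [bot_inf_eq, bot_sup_eq]
  rcases h2 with rfl | h2
  · rw [inf_bot_eq, sup_bot_eq, add_comm]
  have h3 := fr_mod hV hW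
  have h4 := fr_pos (L := L) (fd_P₂ (L := L)) (P₂_ne L)
  have h5 := fr_le hV h1
  have h6 := fr_le hW h2
  have h7 := fr_le (fd_le hV (inf_le_left : V ⊓ W ≤ V)) (le_inf h1 h2)
  have h8 := fr_le (fd_sup hV hW) (le_sup_left : V ≤ V ⊔ W)
  unfold wc
  omega

theorem exists_S {u F G : XX Λ} (hF : finO u F) (hG : finO u G) :
    ∃ S : Finset ι, {c | F.1.2 c ≠ ⊥} ⊆ S ∧ {c | G.1.2 c ≠ ⊥} ⊆ S := by
  classical
  refine ⟨hF.2.2.2.2.toFinset ∪ hG.2.2.2.2.toFinset, ?_, ?_⟩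
  · intro c hc
    simp only [Finset.coe_union, Finite.coe_toFinset]
    exact Or.inl hc
  · intro c hc
    simp only [Finset.coe_union, Finite.coe_toFinset]
    exact Or.inr hc

theorem wO_mod {u F G : XX Λ} (hF : finO u F) (hG : finO u G) : wO F + wO G = wO (F ⊓ G) + wO (F ⊔ G) := by
  obtain ⟨S, h1, h2⟩ := exists_S hF hG
  have h3 : {c | (F ⊓ G).1.2 c ≠ ⊥} ⊆ S := fun c hc => h1 fun h => hc (by
    rw [XX_inf_snd, h, bot_inf_eq])
  have h4 : {c | (F ⊔ G).1.2 c ≠ ⊥} ⊆ S := fun c hc => by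
    by_contra hcon
    have e1 : F.1.2 c = ⊥ := by
      by_contra h
      exact hcon (h1 h)
    have e2 : G.1.2 c = ⊥ := by
      by_contra h
      exact hcon (h2 h)
    exact hc (by rw [XX_sup_snd, e1, e2, bot_sup_eq])
  rw [wO_eq F S h1, wO_eq G S h2, wO_eq _ S h3, wO_eq _ S h4, XX_inf_fst, XX_sup_fst]
  have h5 := fr_mod hF.2.2.1 hG.2.2.1
  have h6 : ∑ c ∈ S, wc (Λ c) (F.1.2 c) + ∑ c ∈ S, wc (Λ c) (G.1.2 c) =
      ∑ c ∈ S, wc (Λ c) ((F ⊓ G).1.2 c) + ∑ c ∈ S, wc (Λ c) ((F ⊔ G).1.2 c) := by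
    rw [← Finset.sum_add_distrib, ← Finset.sum_add_distrib]
    refine Finset.sum_congr rfl fun c _ => ?_
    exact wc_mod (hF.2.2.2.1 c) (hG.2.2.2.1 c) (F.2 c) (G.2 c)
  omega

theorem finO_le {u F G : XX Λ} (hG : finO u G) (h0 : P₁ ≤ F.1.1) (h : F ≤ G) : finO u F := by
  have h' : F.1 ≤ G.1 := h
  refine ⟨h0, h.trans hG.2.1, fd_le hG.2.2.1 h'.1, fun c => fd_le (hG.2.2.2.1 c) (h'.2 c), hG.2.2.2.2.subset ?_⟩
  intro c hc h1
  have h2 := h'.2 c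
  rw [h1] at h2
  exact hc (le_bot_iff.mp h2)

theorem finO_sup {u F G : XX Λ} (hF : finO u F) (hG : finO u G) : finO u (F ⊔ G) := by
  refine ⟨hF.1.trans le_sup_left, sup_le hF.2.1 hG.2.1, fd_sup hF.2.2.1 hG.2.2.1,
    fun c => fd_sup (hF.2.2.2.1 c) (hG.2.2.2.1 c), (hF.2.2.2.2.union hG.2.2.2.2).subset fun c hc => ?_⟩
  by_contra hcon
  rw [mem_union, not_or] at hcon
  have e1 : F.1.2 c = ⊥ := not_not.mp hcon.1
  have e2 : G.1.2 c = ⊥ := not_not.mp hcon.2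
  exact hc (by rw [XX_sup_snd, e1, e2, bot_sup_eq])

theorem wO_lt {u F G : XX Λ} (hG : finO u G) (h0 : P₁ ≤ F.1.1) (h : F < G) : wO F < wO G := by
  have hF := finO_le hG h0 h.le
  have h' : F.1 ≤ G.1 := h.le
  obtain ⟨S, h1, h2⟩ := exists_S hF hG
  rw [wO_eq F S h1, wO_eq G S h2]
  have h3 := fr_le hG.2.2.1 h'.1
  have h4 : ∑ c ∈ S, wc (Λ c) (F.1.2 c) ≤ ∑ c ∈ S, wc (Λ c) (G.1.2 c) :=
    Finset.sum_le_sum fun c _ => wc_mono (hG.2.2.2.1 c) (h'.2 c)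
  by_cases h5 : F.1.1 = G.1.1
  · have h6 : ∃ c, F.1.2 c ≠ G.1.2 c := by
      by_contra hcon
      push Not at hcon
      exact h.ne (Subtype.ext (Prod.ext h5 (funext hcon)))
    obtain ⟨c, hc⟩ := h6
    have h7 : F.1.2 c < G.1.2 c := lt_of_le_of_ne (h'.2 c) hc
    have h8 : c ∈ S := h2 fun h => by
      have h9 : F.1.2 c < G.1.2 c := h7
      rw [h] at h9
      exact not_lt_bot h9
    have h9 : ∑ c ∈ S, wc (Λ c) (F.1.2 c) < ∑ c ∈ S, wc (Λ c) (G.1.2 c) :=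
      Finset.sum_lt_sum (fun c _ => wc_mono (hG.2.2.2.1 c) (h'.2 c)) ⟨c, h8, wc_lt (hG.2.2.2.1 c) h7⟩
    omega
  · have h6 := fr_lt hG.2.2.1 (lt_of_le_of_ne h'.1 h5)
    omega

/-! ### Compactness -/

theorem cptO {u : XX Λ} (D : Set (XX Λ)) (hD : D.Nonempty) (hdir : DirectedOn (· ≤ ·) D) {a : XX Λ} (ha : finO u a)
    (h : a ≤ sSup D) : ∃ d ∈ D, a ≤ d := by
  classical
  have h' : a.1 ≤ sSup (Subtype.val '' D) := h
  obtain ⟨_, ⟨d₁, h1, rfl⟩, h2⟩ := fd_cpt ((fun F : XX Λ => F.1.1) '' D) (hD.image _)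
    (hdir.mono_comp (g := fun F : XX Λ => F.1.1) (fun _ _ h => h.1)) ha.2.2.1 (by
      have := h'.1
      rw [Prod.fst_sSup, image_image] at this
      exact this)
  have key : ∀ c, ∃ d ∈ D, a.1.2 c ≤ d.1.2 c := by
    intro c
    obtain ⟨_, ⟨d₂, h3, rfl⟩, h4⟩ := fd_cpt ((fun F : XX Λ => F.1.2 c) '' D) (hD.image _)
      (hdir.mono_comp (g := fun F : XX Λ => F.1.2 c) (fun _ _ h => h.2 c)) (ha.2.2.2.1 c) (by
      have h5 := h'.2 c
      rw [Prod.snd_sSup, sSup_apply] at h5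
      refine h5.trans (iSup_le fun f => ?_)
      obtain ⟨f, F, ⟨G, hG, rfl⟩, rfl⟩ := f
      exact le_sSup ⟨G, hG, rfl⟩)
    exact ⟨d₂, h3, h4⟩
  have key2 : ∀ S : Finset ι, ∃ d ∈ D, d₁ ≤ d ∧ ∀ c ∈ S, a.1.2 c ≤ d.1.2 c := by
    intro S
    induction S using Finset.induction_on with
    | empty => exact ⟨d₁, h1, le_rfl, fun c hc => absurd hc (Finset.notMem_empty c)⟩
    | insert b S _ ih =>
      obtain ⟨d, e1, e2, e3⟩ := ih
      obtain ⟨d', e4, e5⟩ := key b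
      obtain ⟨d'', e6, e7, e8⟩ := hdir d e1 d' e4
      have e7' : d.1 ≤ d''.1 := e7
      have e8' : d'.1 ≤ d''.1 := e8
      refine ⟨d'', e6, e2.trans e7, fun c hc => ?_⟩
      rcases Finset.mem_insert.mp hc with rfl | hc
      · exact e5.trans (e8'.2 c)
      · exact (e3 c hc).trans (e7'.2 c)
  obtain ⟨d, e1, e2, e3⟩ := key2 ha.2.2.2.2.toFinset
  have e2' : d₁.1 ≤ d.1 := e2
  refine ⟨d, e1, ?_⟩
  refine (⟨h2.trans e2'.1, fun c => ?_⟩ : a.1 ≤ d.1)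
  by_cases hc : a.1.2 c = ⊥
  · rw [hc]
    exact bot_le
  · exact e3 c (by rw [Finite.mem_toFinset]; exact hc)

end Pool.Agent.Q280.ML.OM
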