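import Pool.Agent.Q280.ML.OMY
import Pool.Agent.W245.EB.CMz2
import Pool.Agent.Q280.ML.Gf

/-!
# Families of spaces of logarithms and of elliptic logarithms of algebraic points
-/

set_option autoImplicit false

open Matroid Set Module
open scoped PeriodPair ComplexConjugate

noncomputable section

namespace Pool.Agent.Q280.ML.OM

open H667R3 Pool.Agent.W245.EB Pool.Agent.TH813.Ell
open Pool.Agent.TH813.Core
open Q88.ETO (mem_clQ)

variable {L : PeriodPair}

theorem alg_of_cl {x : ℂ} (h : x ∈ Q241.SX.M.closure ∅) : IsAlgebraic ℚ x := by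
  rw [Q241.SX.mem_cl, Algebra.adjoin_empty] at h
  exact Subalgebra.isAlgebraic_of_isAlgebraic_bot h

theorem der_of_alg {x : ℂ} (h : IsAlgebraic ℚ x) (D : Derivation ℚ ℂ ℂ) : D x = 0 :=
  (mem_clQ (S := ∅)).mp (Q241.SX.cl_alg h) D (fun y hy => absurd hy (notMem_empty y))

theorem alg_of_der {x : ℂ} (h : ∀ D : Derivation ℚ ℂ ℂ, D x = 0) : IsAlgebraic ℚ x :=
  alg_of_cl ((mem_clQ (S := ∅)).mpr fun D _ => h D)

theorem smul_EL (h2 : IsAlgebraic ℚ L.g₂) (h3 : IsAlgebraic ℚ L.g₃) {c p : ℂ} (hc : c ∈ kL L) (hp : p ∈ EL L) :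
    c * p ∈ EL L := by
  by_cases h : 2 * (c * p) ∈ L.lattice
  · exact half_EL h2 h3 (Or.inl h)
  right
  have h' : c * p ∉ L.lattice := fun h0 => h (by
    rw [two_mul]
    exact add_mem h0 h0)
  refine alg_of_der fun D => ?_
  obtain ⟨κ, hE⟩ := exists_eig L
  have k2 : D L.g₂ = 0 := der_of_alg h2 D
  have k3 : D L.g₃ = 0 := der_of_alg h3 D
  have h4 : om L D p = 0 := by
    rcases hp with hp | hp
    · exact om_of_two_mul_mem L _ (by
        rw [two_mul]
        exact add_mem hp hp)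
    · unfold om
      rw [der_of_alg hp, zero_div]
  have h5 := hE.om_mul D k2 k3 c hc p
  rw [h4, mul_zero] at h5
  have h6 := (D_wp L D k2 k3 h').1
  rw [h5, zero_mul] at h6
  exact h6

/-- the elliptic logarithms of algebraic points -/
def ELs (L : PeriodPair) (h2 : IsAlgebraic ℚ L.g₂) (h3 : IsAlgebraic ℚ L.g₃) : Submodule (kL L) ℂ where
  carrier := EL L
  add_mem' := fun ha hb => add_mem_EL h2 h3 ha hb
  zero_mem' := Or.inl (zero_mem _)
  smul_mem' := fun c _ hp => smul_EL h2 h3 c.2 hp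

end Pool.Agent.Q280.ML.OM
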