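import Pool.Agent.Q280.ML.OM

/-!
# Exactness over a family of spaces of logarithms and elliptic logarithms
-/

set_option autoImplicit false

open Matroid Set Module
open scoped PeriodPair ComplexConjugate

noncomputable section

namespace Pool.Agent.Q280.ML

namespace Us.LSys

open Q241.SX
open Pool.Agent.Q280.MD (rank_of_indep exists_family_over)

variable {A : Us.LSys}

/-- from the concentration of the defect to independent families over the field of `B` -/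
theorem family_gen {B : A.X} (hoB : A.o ≤ B) (hBu : B ≤ A.u) (hB : ∀ V, A.fin V → A.dfc V ≤ A.dfc (V ⊓ B))
    {Q : A.X} (hQ : A.fin Q) {m : ℕ} (hm : A.w Q = A.w (Q ⊓ B) + m) {Z : Set ℂ} (hZ : Z.Finite)
    (hQZ : A.P Q ⊆ M.closure (Z ∪ A.P (Q ⊓ B))) :
    ∃ v : Fin m → ℂ, (∀ k, v k ∈ Z) ∧ AlgebraicIndependent (IntermediateField.adjoin ℚ (A.P B)) v := by
  have hQB : A.fin (Q ⊓ B) := A.le hQ (le_inf (A.ge hQ) hoB) inf_le_left
  refine exists_family_over hZ fun T hT hTB => ?_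
  obtain ⟨V₀, hV1, hV2, hV3⟩ := A.Ploc hoB hBu hT hTB
  obtain ⟨V, hV⟩ : ∃ V, V = V₀ ⊔ Q ⊓ B := ⟨_, rfl⟩
  have hVf : A.fin V := by
    rw [hV]
    exact A.sup hV2 hQB
  have hVB : V ≤ B := by
    rw [hV]
    exact sup_le hV1 inf_le_right
  have hVT : T ⊆ M.closure (A.P V) :=
    hV3.trans (M.closure_subset_closure (A.mono (by rw [hV]; exact le_sup_left)))
  obtain ⟨T', hT'⟩ : ∃ T' : Set ℂ, T' = T ∪ A.P V := ⟨_, rfl⟩
  have hcl : M.closure T' = M.closure (A.P V) := by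
    rw [hT']
    refine subset_antisymm ?_ (M.closure_subset_closure subset_union_right)
    exact M.closure_subset_closure_of_subset_closure (union_subset hVT (subset_cl _))
  have hrk : M.eRk T' = M.eRk (A.P V) := by
    rw [← M.eRk_closure_eq T', hcl, M.eRk_closure_eq]
  refine ⟨T', by rw [hT']; exact subset_union_left, ?_, ?_, ?_⟩
  · rw [hT']
    exact union_subset (hTB.trans (subset_cl _)) ((A.mono hVB).trans (subset_cl _))
  · rw [hrk]
    exact A.Pfin hVf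
  have h1 := hB (V ⊔ Q) (A.sup hVf hQ)
  have hQV : Q ⊓ B ≤ V := by
    rw [hV]
    exact le_sup_right
  have h2 : (V ⊔ Q) ⊓ B = V := by
    rw [sup_inf_assoc_of_le _ hVB]
    exact sup_eq_left.mpr hQV
  have h3 : V ⊓ Q = Q ⊓ B := by
    apply le_antisymm
    · exact le_inf inf_le_right (inf_le_left.trans hVB)
    · exact le_inf hQV inf_le_left
  have h4 := A.wmod hVf hQ
  rw [h3] at h4
  rw [h2] at h1
  unfold dfc at h1
  have h5 : A.rk V + m ≤ A.rk (V ⊔ Q) := by omega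
  have h6 : ((A.rk V + m : ℕ) : ℕ∞) ≤ ((A.rk (V ⊔ Q) : ℕ) : ℕ∞) := by exact_mod_cast h5
  rw [Nat.cast_add, coe_rk hVf, coe_rk (A.sup hVf hQ)] at h6
  rw [hrk]
  refine h6.trans ?_
  rw [← M.eRk_closure_eq (Z ∪ T')]
  refine M.eRk_mono (A.Psup.trans (M.closure_subset_closure_of_subset_closure (union_subset ?_ ?_)))
  · refine Subset.trans ?_ (subset_cl _)
    rw [hT']
    exact subset_union_right.trans subset_union_right
  · refine hQZ.trans (M.closure_subset_closure (union_subset_union_right _ ?_))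
    rw [hT']
    exact (A.mono hQV).trans subset_union_right

end Us.LSys

namespace OM

open H667R3 Pool.Agent.W245.EB Pool.Agent.TH813.Ell
open Pool.Agent.W252 Pool.Agent.W669.Gel
open Pool.Agent.TH813.Core
open Pool.Agent.Y776.Et (ζ dimMod T₀ P₀)
open Q88.ETO (mem_clQ kill_NK half_mem finrank_mod)

variable {ι : Type} {Λ : ι → PeriodPair}

/-! ### Families with a given finite set of curves -/

open Classical in
/-- the family of the space `T` and of the spaces `P₂ ⊔ W c`, `c ∈ S` -/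
def mkF (T : Submodule ℚ ℂ) (S : Finset ι) (W : ∀ c, Submodule (kL (Λ c)) ℂ) : XX Λ :=
  ⟨(T, fun c => if c ∈ S then P₂ (Λ c) ⊔ W c else ⊥), fun c => by
    by_cases h : c ∈ S
    · right
      simp only [h, if_true]
      exact le_sup_left
    · left
      simp only [h, if_false]⟩

variable {T : Submodule ℚ ℂ} {S : Finset ι} {W : ∀ c, Submodule (kL (Λ c)) ℂ}

theorem mkF_fst : (mkF T S W).1.1 = T := rfl

theorem mkF_mem {c : ι} (hc : c ∈ S) : (mkF T S W).1.2 c = P₂ (Λ c) ⊔ W c := by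
  classical
  change (if c ∈ S then P₂ (Λ c) ⊔ W c else ⊥) = _
  rw [if_pos hc]

theorem mkF_not {c : ι} (hc : c ∉ S) : (mkF T S W).1.2 c = ⊥ := by
  classical
  change (if c ∈ S then P₂ (Λ c) ⊔ W c else ⊥) = _
  rw [if_neg hc]

theorem sup_ne {L : PeriodPair} (W : Submodule (kL L) ℂ) : P₂ L ⊔ W ≠ ⊥ := fun h =>
  P₂_ne L (le_bot_iff.mp (h ▸ le_sup_left))

theorem mkF_supp : {c | (mkF T S W).1.2 c ≠ ⊥} ⊆ S := by
  intro c hc
  by_contra hcon
  exact hc (mkF_not hcon)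

theorem mkF_le {F : XX Λ} (h1 : T ≤ F.1.1) (h2 : ∀ c ∈ S, F.1.2 c ≠ ⊥) (h3 : ∀ c ∈ S, W c ≤ F.1.2 c) :
    mkF T S W ≤ F := by
  refine (⟨h1, fun c => ?_⟩ : (mkF T S W).1 ≤ F.1)
  by_cases hc : c ∈ S
  · rw [mkF_mem hc]
    exact sup_le ((F.2 c).resolve_left (h2 c hc)) (h3 c hc)
  · rw [mkF_not hc]
    exact bot_le

theorem fin_mkF {u : XX Λ} (hT : P₁ ≤ T) (hf : FiniteDimensional ℚ T)
    (hW : ∀ c ∈ S, FiniteDimensional (kL (Λ c)) (W c)) (h : mkF T S W ≤ u) : finO u (mkF T S W) := by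
  refine ⟨hT, h, hf, fun c => ?_, S.finite_toSet.subset mkF_supp⟩
  by_cases hc : c ∈ S
  · rw [mkF_mem hc]
    exact fd_sup fd_P₂ (hW c hc)
  · rw [mkF_not hc]
    exact fd_bot

/-- every finite family is of this form -/
theorem eq_mkF {u F : XX Λ} (hF : finO u F) : F = mkF F.1.1 hF.2.2.2.2.toFinset F.1.2 := by
  apply Subtype.ext
  refine Prod.ext rfl (funext fun c => ?_)
  by_cases hc : F.1.2 c = ⊥
  · have h1 : c ∉ hF.2.2.2.2.toFinset := by
      rw [Finite.mem_toFinset]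
      exact fun h => h hc
    exact hc.trans (mkF_not h1).symm
  · have h1 : c ∈ hF.2.2.2.2.toFinset := by
      rw [Finite.mem_toFinset]
      exact hc
    exact (sup_eq_right.mpr ((F.2 c).resolve_left hc)).symm.trans (mkF_mem h1).symm

theorem locO {B u : XX Λ} {T : Set ℂ} (h0 : P₁ ≤ B.1.1) (hBu : B ≤ u) (hT : T.Finite) (hTB : T ⊆ PN B) :
    ∃ V ≤ B, finO u V ∧ T ⊆ PN V := by
  have key : ∀ a ∈ PN B, ∃ V ≤ B, finO u V ∧ a ∈ PN V := by
    have k1 : ∀ w ∈ B.1.1, ∃ V ≤ B, finO u V ∧ w ∈ V.1.1 := fun w hw => by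
      have h1 : mkF (P₁ ⊔ Submodule.span ℚ {w}) ∅ (fun _ => ⊥) ≤ B :=
        mkF_le (sup_le h0 ((Submodule.span_singleton_le_iff_mem _ _).mpr hw))
          (fun c hc => absurd hc (Finset.notMem_empty c)) (fun c hc => absurd hc (Finset.notMem_empty c))
      refine ⟨_, h1, fin_mkF le_sup_left (fd_sup fd_P₁ (fd_span (finite_singleton w)))
        (fun c hc => absurd hc (Finset.notMem_empty c)) (h1.trans hBu), ?_⟩
      exact (le_sup_right : Submodule.span ℚ {w} ≤ _) (Submodule.mem_span_singleton_self w)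
    have k2 : ∀ c, ∀ w ∈ B.1.2 c, B.1.2 c ≠ ⊥ → ∃ V ≤ B, finO u V ∧ V.1.2 c ≠ ⊥ ∧ w ∈ V.1.2 c :=
      fun c w hw hc => by
        classical
        have h1 : mkF P₁ {c} (fun d => if h : d = c then Submodule.span (kL (Λ d)) {w} else ⊥) ≤ B := by
          refine mkF_le h0 (fun d hd => ?_) (fun d hd => ?_)
          · rw [Finset.mem_singleton] at hd
            rw [hd]
            exact hc
          · rw [Finset.mem_singleton] at hd
            subst hd
            rw [dif_pos rfl]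
            exact (Submodule.span_singleton_le_iff_mem _ _).mpr hw
        have h2 := mkF_mem (T := P₁) (S := {c})
          (W := fun d => if h : d = c then Submodule.span (kL (Λ d)) {w} else ⊥) (Finset.mem_singleton_self c)
        rw [dif_pos rfl] at h2
        refine ⟨_, h1, fin_mkF le_rfl fd_P₁ (fun d hd => ?_) (h1.trans hBu), ?_, ?_⟩
        · by_cases h : d = c
          · rw [dif_pos h]
            exact fd_span (finite_singleton w)
          · rw [dif_neg h]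
            exact fd_bot
        · rw [h2]
          exact sup_ne _
        · rw [h2]
          exact (le_sup_right : Submodule.span (kL (Λ c)) {w} ≤ _) (Submodule.mem_span_singleton_self w)
    rintro a ((ha | ⟨w, hw, rfl⟩) | ⟨c, hc, (ha | (ha | (⟨w, hw, rfl⟩ | ⟨w, hw, rfl⟩)))⟩)
    · obtain ⟨V, h1, h2, h3⟩ := k1 a ha
      exact ⟨V, h1, h2, Or.inl (Or.inl h3)⟩
    · obtain ⟨V, h1, h2, h3⟩ := k1 w hw
      exact ⟨V, h1, h2, Or.inl (Or.inr ⟨w, h3, rfl⟩)⟩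
    · obtain ⟨V, h1, h2, h3, h4⟩ := k2 c 0 (Submodule.zero_mem _) hc
      exact ⟨V, h1, h2, Or.inr ⟨c, h3, Or.inl ha⟩⟩
    · obtain ⟨V, h1, h2, h3, h4⟩ := k2 c a ha hc
      exact ⟨V, h1, h2, Or.inr ⟨c, h3, Or.inr (Or.inl h4)⟩⟩
    · obtain ⟨V, h1, h2, h3, h4⟩ := k2 c w hw.1 hc
      exact ⟨V, h1, h2, Or.inr ⟨c, h3, Or.inr (Or.inr (Or.inl ⟨w, ⟨h4, hw.2⟩, rfl⟩))⟩⟩
    · obtain ⟨V, h1, h2, h3, h4⟩ := k2 c w hw.1 hc
      exact ⟨V, h1, h2, Or.inr ⟨c, h3, Or.inr (Or.inr (Or.inr ⟨w, ⟨h4, hw.2⟩, rfl⟩))⟩⟩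
  induction T, hT using Set.Finite.induction_on with
  | empty => exact ⟨oo Λ, oo_le.mpr h0, finO_oo (h0.trans (show B.1 ≤ u.1 from hBu).1), empty_subset _⟩
  | insert _ _ ih =>
    obtain ⟨V, h1, h2, h3⟩ := ih ((subset_insert _ _).trans hTB)
    obtain ⟨W, h4, h5, h6⟩ := key _ (hTB (mem_insert _ _))
    refine ⟨V ⊔ W, sup_le h1 h4, finO_sup h2 h5, insert_subset ?_ ?_⟩
    · exact PN_mono (le_sup_right : W ≤ V ⊔ W) h6
    · exact h3.trans (PN_mono (le_sup_left : V ≤ V ⊔ W))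

/-- the system of the families between `oo` and `u` -/
@[reducible] def OSys (u : XX Λ) (hu : P₁ ≤ u.1.1) : Us.LSys where
  X := XX Λ
  o := oo Λ
  u := u
  fin := finO u
  w := wO
  P := PN
  base := finO_oo hu
  ge h := oo_le.mpr h.1
  top h := h.2.1
  sup ha hb := finO_sup ha hb
  le hb h1 h2 := finO_le hb h1.1 h2
  lt hb h1 hab := wO_lt hb h1.1 hab
  wmod ha hb := wO_mod ha hb
  cpt D hD hdir _ ha h := cptO D hD hdir ha h
  mono h := PN_mono h
  Psup {a b} := PN_sup a b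
  Pfin ha := PN_rk ha
  Ploc h0 hB hT hTB := by
    obtain ⟨V, h1, h2, h3⟩ := locO (oo_le.mp h0) hB hT hTB
    exact ⟨V, h1, h2, h3.trans (Matroid.subset_closure_of_subset' _ (Subset.refl _) (by simp))⟩

/-! ### Periods -/

/-- the invariants, periods and quasi-periods of a lattice -/
def perO (L : PeriodPair) : Set ℂ :=
  {L.g₂, L.g₃, L.ω₁, L.ω₂, 2 * ζ L (L.ω₁ / 2), 2 * ζ L (L.ω₂ / 2)}

theorem perO_finite (L : PeriodPair) : (perO L).Finite := by
  unfold perO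
  exact toFinite _

theorem perO_sub {L : PeriodPair} {V : Submodule (kL L) ℂ} (hV : P₂ L ≤ V) :
    perO L ⊆ Q241.SX.M.closure (Nums L V) := by
  intro x hx
  refine (mem_clQ (S := Nums L V)).mpr fun D hD => ?_
  have h2 : ∀ x, D x = 0 → D (2 * x) = 0 := fun x hx => by
    rw [two_mul, map_add, hx, add_zero]
  have hz : ∀ w ∈ V, w ∉ L.lattice → D (ζ L w) = 0 := fun w hw hw' =>
    hD _ (Or.inr (Or.inr (Or.inl ⟨w, ⟨hw, hw'⟩, rfl⟩)))
  have hl : ∀ w ∈ L.lattice, w ∈ V := fun w hw => hV (lattice_le_P₂ hw)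
  have hhalf : ∀ w ∈ L.lattice, w / 2 ∈ V := fun w hw => half_mem hV hw
  rcases hx with rfl | rfl | rfl | rfl | rfl | hx
  · exact hD _ (Or.inl (Or.inl rfl))
  · exact hD _ (Or.inl (Or.inr rfl))
  · exact hD _ (Or.inr (Or.inl (hl _ L.ω₁_mem_lattice)))
  · exact hD _ (Or.inr (Or.inl (hl _ L.ω₂_mem_lattice)))
  · exact h2 _ (hz _ (hhalf _ L.ω₁_mem_lattice) (half₁ L))
  · rw [mem_singleton_iff.mp hx]
    exact h2 _ (hz _ (hhalf _ L.ω₂_mem_lattice) (half₂ L))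

theorem Nums_P₂ (L : PeriodPair) : Nums L (P₂ L) ⊆ Q241.SX.M.closure (perO L) := by
  intro x hx
  refine (mem_clQ (S := perO L)).mpr fun D hD => ?_
  have h2 : D L.g₂ = 0 := hD _ (Or.inl rfl)
  have h3 : D L.g₃ = 0 := hD _ (Or.inr (Or.inl rfl))
  obtain ⟨k1, k2⟩ := per_killed h2 h3 (hD _ (Or.inr (Or.inr (Or.inl rfl))))
    (hD _ (Or.inr (Or.inr (Or.inr (Or.inl rfl))))) (hD _ (Or.inr (Or.inr (Or.inr (Or.inr (Or.inl rfl))))))
    (hD _ (Or.inr (Or.inr (Or.inr (Or.inr (Or.inr rfl))))))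
  refine kill_NK.mpr ⟨h2, h3, fun t ht => ?_, k2⟩ x (Nums_sub_NK _ hx)
  rw [Submodule.mem_bot] at ht
  rw [ht, map_zero, map_zero]
  exact ⟨rfl, rfl⟩

theorem Nums_P₂_span {L : PeriodPair} {n : ℕ} {p : Fin n → ℂ} (hp : ∀ i, p i ∉ L.lattice) {X : Set ℂ}
    (hX : Nums L (P₂ L) ⊆ Q241.SX.M.closure X) :
    Nums L (P₂ L ⊔ Submodule.span (kL L) (range p) : Submodule (kL L) ℂ) ⊆ Q241.SX.M.closure (pts L p ∪ X) := by
  refine (Nums_sup _ _).trans (Q241.SX.M.closure_subset_closure_of_subset_closure (union_subset ?_ ?_))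
  · exact hX.trans (Q241.SX.M.closure_subset_closure subset_union_right)
  · refine (Nums_span hp).trans (Q241.SX.M.closure_subset_closure_of_subset_closure (union_subset ?_ ?_))
    · exact fun x hx => Matroid.mem_closure_of_mem _ (Or.inl hx) (by simp)
    · refine (Nums_mono ?_).trans (hX.trans (Q241.SX.M.closure_subset_closure subset_union_right))
      exact SetLike.coe_subset_coe.mpr bot_le

/-! ### Exactness -/

open Classical in
/-- the number of new periods -/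
def nw (B : XX Λ) (c : ι) : ℕ := if B.1.2 c = ⊥ then wc (Λ c) (P₂ (Λ c)) else 0

/-- the numbers from which the independent ones are taken -/
def ZO (B : XX Λ) (S : Finset ι) {s : ℕ} {n : ι → ℕ} (t : Fin s → ℂ) (p : ∀ c, Fin (n c) → ℂ) : Set ℂ :=
  ex t ∪ {x | ∃ c ∈ S, x ∈ pts (Λ c) (p c) ∨ (B.1.2 c = ⊥ ∧ x ∈ perO (Λ c))}

/-- exactness over a family -/
def ExactO (u B : XX Λ) : Prop :=
  ∀ (S : Finset ι) (s : ℕ) (n : ι → ℕ) (t : Fin s → ℂ) (p : ∀ c, Fin (n c) → ℂ), (∀ i, t i ∈ u.1.1) →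
    (∀ c ∈ S, ∀ i, p c i ∈ u.1.2 c ∧ p c i ∉ (Λ c).lattice) → LinearIndependent ℚ (fun i => B.1.1.mkQ (t i)) →
    (∀ c ∈ S, LinearIndependent (kL (Λ c)) (fun i => (B.1.2 c ⊔ P₂ (Λ c)).mkQ (p c i))) →
    ∃ w : Fin (s + ∑ c ∈ S, (2 * n c + nw B c)) → ℂ, (∀ l, w l ∈ ZO B S t p) ∧
      AlgebraicIndependent (IntermediateField.adjoin ℚ (PN B)) w

theorem ZO_finite (B : XX Λ) (S : Finset ι) {s : ℕ} {n : ι → ℕ} (t : Fin s → ℂ) (p : ∀ c, Fin (n c) → ℂ) :
    (ZO B S t p).Finite := by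
  refine (ex_finite t).union ?_
  have h1 : {x | ∃ c ∈ S, x ∈ pts (Λ c) (p c) ∨ (B.1.2 c = ⊥ ∧ x ∈ perO (Λ c))} ⊆
      ⋃ c ∈ (S : Set ι), (pts (Λ c) (p c) ∪ perO (Λ c)) := by
    rintro x ⟨c, hc, hx⟩
    exact mem_biUnion (Finset.mem_coe.mpr hc) (hx.imp id fun h => h.2)
  exact (S.finite_toSet.biUnion fun c _ => (pts_finite _).union (perO_finite _)).subset h1

/-- the family generated by exponents and points -/
def QO (S : Finset ι) {s : ℕ} {n : ι → ℕ} (t : Fin s → ℂ) (p : ∀ c, Fin (n c) → ℂ) : XX Λ :=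
  mkF (P₁ ⊔ Submodule.span ℚ (range t)) S (fun c => Submodule.span (kL (Λ c)) (range (p c)))

variable {s : ℕ} {n : ι → ℕ} {t : Fin s → ℂ} {p : ∀ c, Fin (n c) → ℂ}

theorem QO_le {u : XX Λ} (hu : P₁ ≤ u.1.1) (hu' : ∀ c, P₂ (Λ c) ≤ u.1.2 c) (ht : ∀ i, t i ∈ u.1.1)
    (hp : ∀ c ∈ S, ∀ i, p c i ∈ u.1.2 c) : QO (Λ := Λ) S t p ≤ u := by
  refine mkF_le (sup_le hu ?_) (fun c _ h => ?_) (fun c hc => ?_)
  · rw [Submodule.span_le]
    rintro _ ⟨i, rfl⟩
    exact ht i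
  · have := hu' c
    rw [h] at this
    exact P₂_ne _ (le_bot_iff.mp this)
  · rw [Submodule.span_le]
    rintro _ ⟨i, rfl⟩
    exact hp c hc i

theorem fin_QO {u : XX Λ} (h : QO (Λ := Λ) S t p ≤ u) : finO u (QO (Λ := Λ) S t p) :=
  fin_mkF le_sup_left (fd_sup fd_P₁ (fd_span (finite_range t))) (fun _ _ => fd_span (finite_range _)) h

end OM

end Pool.Agent.Q280.ML
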