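import Pool.Agent.Q280.ML.OMX
import Pool.Agent.H327R2.SC.ExpLat

/-!
# The canonical family
-/

set_option autoImplicit false

open Matroid Set Module
open scoped PeriodPair ComplexConjugate

noncomputable section

namespace Pool.Agent.Q280.ML.OM

open H667R3 Pool.Agent.W245.EB Pool.Agent.TH813.Ell
open Pool.Agent.W252 Pool.Agent.W669.Gel
open Pool.Agent.TH813.Core
open Pool.Agent.Y776.Et (ζ dimMod T₀ P₀)
open Q88.ETO (mem_clQ kill_NK half_mem finrank_mod)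

variable {ι : Type} {Λ : ι → PeriodPair}
variable {S : Finset ι} {s : ℕ} {n : ι → ℕ} {t : Fin s → ℂ} {p : ∀ c, Fin (n c) → ℂ}

theorem PN_QO {B : XX Λ} (hB : P₁ ≤ B.1.1) (hp : ∀ c ∈ S, ∀ i, p c i ∉ (Λ c).lattice) :
    PN (QO (Λ := Λ) S t p) ⊆ Q241.SX.M.closure (ZO B S t p ∪ PN (QO S t p ⊓ B)) := by
  rintro x (hx | ⟨c, hc, hx⟩)
  · refine Q241.SX.M.closure_subset_closure_of_subset_closure ?_ (T_sup P₁ (Submodule.span ℚ (range t)) hx)
    refine union_subset ?_ ?_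
    · intro y hy
      refine Matroid.mem_closure_of_mem _ (Or.inr (Or.inl ?_)) (by simp)
      have h1 : P₁ ≤ (QO (Λ := Λ) S t p ⊓ B).1.1 := le_inf le_sup_left hB
      exact union_subset_union h1 (image_mono h1) hy
    · refine (T_span t).trans (Q241.SX.M.closure_subset_closure ?_)
      exact subset_union_left.trans subset_union_left
  · have hcS : c ∈ S := mkF_supp hc
    have e1 : (QO (Λ := Λ) S t p).1.2 c = P₂ (Λ c) ⊔ Submodule.span (kL (Λ c)) (range (p c)) := mkF_mem hcS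
    rw [e1] at hx
    by_cases hBc : B.1.2 c = ⊥
    · refine Q241.SX.M.closure_subset_closure ?_ (Nums_P₂_span (hp c hcS) (Nums_P₂ (Λ c)) hx)
      rintro y (hy | hy)
      · exact Or.inl (Or.inr ⟨c, hcS, Or.inl hy⟩)
      · exact Or.inl (Or.inr ⟨c, hcS, Or.inr ⟨hBc, hy⟩⟩)
    · refine Q241.SX.M.closure_subset_closure ?_ (Nums_P₂_span (hp c hcS) (Q241.SX.subset_cl _) hx)
      rintro y (hy | hy)
      · exact Or.inl (Or.inr ⟨c, hcS, Or.inl hy⟩)
      · have h1 : P₂ (Λ c) ≤ (QO (Λ := Λ) S t p ⊓ B).1.2 c := by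
          rw [XX_inf_snd, e1]
          exact le_inf le_sup_left ((B.2 c).resolve_left hBc)
        refine Or.inr (Or.inr ⟨c, fun h => ?_, Nums_mono (SetLike.coe_subset_coe.mpr h1) hy⟩)
        rw [h] at h1
        exact P₂_ne _ (le_bot_iff.mp h1)

theorem wO_QO {B : XX Λ} (hB : P₁ ≤ B.1.1) (ht : LinearIndependent ℚ (fun i => B.1.1.mkQ (t i)))
    (hp : ∀ c ∈ S, LinearIndependent (kL (Λ c)) (fun i => (B.1.2 c ⊔ P₂ (Λ c)).mkQ (p c i))) :
    wO (QO (Λ := Λ) S t p) = wO (QO S t p ⊓ B) + (s + ∑ c ∈ S, (2 * n c + nw B c)) := by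
  have h1 : {c | (QO (Λ := Λ) S t p).1.2 c ≠ ⊥} ⊆ S := mkF_supp
  have h2 : {c | (QO (Λ := Λ) S t p ⊓ B).1.2 c ≠ ⊥} ⊆ S := fun c hc => h1 fun h => hc (by
    rw [XX_inf_snd, h, bot_inf_eq])
  rw [wO_eq _ S h1, wO_eq _ S h2, XX_inf_fst]
  have e1 : finrank ℚ (QO (Λ := Λ) S t p).1.1 = finrank ℚ P₁ + s := finrank_sup_span fd_P₁ hB ht
  have e2 : (QO (Λ := Λ) S t p).1.1 ⊓ B.1.1 = P₁ := by
    change (P₁ ⊔ Submodule.span ℚ (range t)) ⊓ B.1.1 = P₁
    rw [sup_inf_assoc_of_le _ hB, inf_span_eq_bot ht, sup_bot_eq]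
  have e3 : ∑ c ∈ S, wc (Λ c) ((QO (Λ := Λ) S t p).1.2 c) =
      ∑ c ∈ S, wc (Λ c) ((QO (Λ := Λ) S t p ⊓ B).1.2 c) + ∑ c ∈ S, (2 * n c + nw B c) := by
    rw [← Finset.sum_add_distrib]
    refine Finset.sum_congr rfl fun c hc => ?_
    have f1 : (QO (Λ := Λ) S t p).1.2 c = P₂ (Λ c) ⊔ Submodule.span (kL (Λ c)) (range (p c)) := mkF_mem hc
    have f2 := finrank_sup_span (fd_P₂ (L := Λ c)) (le_sup_right : P₂ (Λ c) ≤ B.1.2 c ⊔ P₂ (Λ c)) (hp c hc)
    have f3 := fr_pos (fd_P₂ (L := Λ c)) (P₂_ne (Λ c))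
    rw [XX_inf_snd, f1]
    unfold nw
    by_cases hBc : B.1.2 c = ⊥
    · rw [if_pos hBc, hBc, inf_bot_eq, wc_bot]
      unfold wc
      omega
    · rw [if_neg hBc]
      have h3 : P₂ (Λ c) ≤ B.1.2 c := (B.2 c).resolve_left hBc
      have h4 := hp c hc
      rw [sup_eq_left.mpr h3] at h4
      rw [sup_inf_assoc_of_le _ h3, inf_span_eq_bot h4, sup_bot_eq]
      unfold wc
      omega
  rw [e1, e2, e3]
  omega

theorem exactO_iff {u B : XX Λ} (hu : P₁ ≤ u.1.1) (hu' : ∀ c, P₂ (Λ c) ≤ u.1.2 c) (hB : P₁ ≤ B.1.1) (hBu : B ≤ u) :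
    ExactO u B ↔ ∀ V, finO u V → Us.LSys.dfc (A := OSys u hu) V ≤ Us.LSys.dfc (A := OSys u hu) (V ⊓ B) := by
  constructor
  · intro h V hV
    have hVu : V.1 ≤ u.1 := hV.2.1
    obtain ⟨Y₁, a1, a2, a3⟩ := exists_cpl hV.2.2.1 (inf_le_left : V.1.1 ⊓ B.1.1 ≤ V.1.1)
    have f1 : FiniteDimensional ℚ Y₁ := fd_le hV.2.2.1 a1
    obtain ⟨t, t1, t2, t3⟩ := exists_basis_Q Y₁
    have h6 : Submodule.span ℚ (range t) ⊓ B.1.1 = ⊥ := by
      rw [t3, eq_bot_iff, ← a2]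
      exact le_inf inf_le_left (le_inf (inf_le_left.trans a1) inf_le_right)
    have key : ∀ c, ∃ (m : ℕ) (q : Fin m → ℂ), (∀ i, q i ∈ V.1.2 c ∧ q i ∉ (Λ c).lattice) ∧
        LinearIndependent (kL (Λ c)) (fun i => (B.1.2 c ⊔ P₂ (Λ c)).mkQ (q i)) ∧
        finrank (kL (Λ c)) (V.1.2 c ⊓ (B.1.2 c ⊔ P₂ (Λ c)) : Submodule (kL (Λ c)) ℂ) + m =
          finrank (kL (Λ c)) (V.1.2 c) := fun c => by
      obtain ⟨Y₂, b1, b2, b3⟩ := exists_cpl (hV.2.2.2.1 c)
        (inf_le_left : V.1.2 c ⊓ (B.1.2 c ⊔ P₂ (Λ c)) ≤ V.1.2 c)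
      have f2 : FiniteDimensional (kL (Λ c)) Y₂ := fd_le (hV.2.2.2.1 c) b1
      obtain ⟨q, h1, h2, h3⟩ := exists_basis_off (L := Λ c) Y₂
      have h4 := span_eq f2 h1 h2
      have h5 : Submodule.span (kL (Λ c)) (range q) ⊓ (B.1.2 c ⊔ P₂ (Λ c)) = ⊥ := by
        rw [h4, eq_bot_iff, ← b2]
        exact le_inf inf_le_left (le_inf (inf_le_left.trans b1) inf_le_right)
      exact ⟨_, q, fun i => ⟨b1 (h2 i), h3 i⟩, li_of_inf_bot h1 h5, b3⟩
    choose n p p1 p2 p3 using key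
    obtain ⟨S, hS⟩ : ∃ S : Finset ι, S = hV.2.2.2.2.toFinset := ⟨_, rfl⟩
    have hS1 : ∀ c, c ∈ S ↔ V.1.2 c ≠ ⊥ := fun c => by
      rw [hS, Finite.mem_toFinset]
      rfl
    obtain ⟨w, h7, h8⟩ := h S _ n t p (fun i => hVu.1 (a1 (t2 i)))
      (fun c _ i => ⟨hVu.2 c (p1 c i).1, (p1 c i).2⟩) (li_of_inf_bot t1 h6) (fun c _ => p2 c)
    refine Us.LSys.concentrated_of_family (A := OSys u hu) (oo_le.mpr hB) hV
      (m := finrank ℚ Y₁ + ∑ c ∈ S, (2 * n c + nw B c)) ?_ w (fun k => ?_) h8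
    · change wO V = wO (V ⊓ B) + _
      have g1 : {c | V.1.2 c ≠ ⊥} ⊆ S := fun c hc => (hS1 c).mpr hc
      have g2 : {c | (V ⊓ B).1.2 c ≠ ⊥} ⊆ S := fun c hc => g1 fun h => hc (by
        rw [XX_inf_snd, h, bot_inf_eq])
      rw [wO_eq _ S g1, wO_eq _ S g2, XX_inf_fst]
      have e3 : ∑ c ∈ S, wc (Λ c) (V.1.2 c) =
          ∑ c ∈ S, wc (Λ c) ((V ⊓ B).1.2 c) + ∑ c ∈ S, (2 * n c + nw B c) := by
        rw [← Finset.sum_add_distrib]
        refine Finset.sum_congr rfl fun c hc => ?_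
        have f3 := fr_pos (fd_P₂ (L := Λ c)) (P₂_ne (Λ c))
        have f4 : P₂ (Λ c) ≤ V.1.2 c := (V.2 c).resolve_left ((hS1 c).mp hc)
        have f5 := p3 c
        rw [XX_inf_snd]
        unfold nw
        by_cases hBc : B.1.2 c = ⊥
        · rw [hBc, bot_sup_eq, inf_eq_right.mpr f4] at f5
          rw [if_pos hBc, hBc, inf_bot_eq, wc_bot]
          unfold wc
          omega
        · rw [if_neg hBc]
          have h3 : P₂ (Λ c) ≤ B.1.2 c := (B.2 c).resolve_left hBc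
          rw [sup_eq_left.mpr h3] at f5
          have h4 := fr_le (fd_le (hV.2.2.2.1 c) (inf_le_left : V.1.2 c ⊓ B.1.2 c ≤ V.1.2 c)) (le_inf f4 h3)
          unfold wc
          omega
      rw [e3]
      omega
    · change w k ∈ Q241.SX.M.closure (PN V)
      rcases h7 k with hk | ⟨c, hc, hk | ⟨hBc, hk⟩⟩
      · obtain ⟨i, hi | hi⟩ := mem_iUnion.mp hk
        · rw [hi]
          exact Matroid.mem_closure_of_mem _ (Or.inl (Or.inl (a1 (t2 i)))) (by simp)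
        · rw [mem_singleton_iff.mp hi]
          exact Matroid.mem_closure_of_mem _ (Or.inl (Or.inr ⟨_, a1 (t2 i), rfl⟩)) (by simp)
      · refine Matroid.mem_closure_of_mem _ (Or.inr ⟨c, (hS1 c).mp hc, ?_⟩) (by simp)
        exact pts_sub (fun i => (p1 c i).2) (fun i => (p1 c i).1) hk
      · refine Q241.SX.M.closure_subset_closure ?_ (perO_sub ((V.2 c).resolve_left ((hS1 c).mp hc)) hk)
        exact fun y hy => Or.inr ⟨c, (hS1 c).mp hc, hy⟩
  · intro h S s n t p ht hp hti hpi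
    have hQu : QO (Λ := Λ) S t p ≤ u := QO_le hu hu' ht fun c hc i => (hp c hc i).1
    exact Us.LSys.family_gen (A := OSys u hu) (B := B) (oo_le.mpr hB) hBu h (Q := QO S t p) (fin_QO hQu)
      (wO_QO hB hti hpi) (ZO_finite B S t p) (PN_QO hB fun c hc i => (hp c hc i).2)

/-! ### The canonical family -/

/-- the canonical family -/
def CO (u : XX Λ) (hu : P₁ ≤ u.1.1) : XX Λ :=
  Bs.Core (X := (OSys u hu).X) (OSys u hu).o (OSys u hu).fin (Us.LSys.dfc (A := OSys u hu))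

variable {u : XX Λ} (hu : P₁ ≤ u.1.1)

theorem oo_le_CO : oo Λ ≤ CO u hu := Bs.base_le_core (Us.LSys.sm (A := OSys u hu))

theorem CO_le_top : CO u hu ≤ u := sSup_le fun _ hT => hT.1.2.1

theorem conc_CO : ∀ V, finO u V →
    Us.LSys.dfc (A := OSys u hu) V ≤ Us.LSys.dfc (A := OSys u hu) (V ⊓ CO u hu) :=
  fun _ hV => Bs.le_inf_core (Us.LSys.sm (A := OSys u hu)) hV

theorem exact_CO (hu' : ∀ c, P₂ (Λ c) ≤ u.1.2 c) : ExactO u (CO u hu) :=
  (exactO_iff hu hu' (oo_le_CO hu).1 (CO_le_top hu)).mpr (conc_CO hu)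

theorem CO_le (hu' : ∀ c, P₂ (Λ c) ≤ u.1.2 c) {B : XX Λ} (hB : P₁ ≤ B.1.1) (hBu : B ≤ u) (h : ExactO u B) :
    CO u hu ≤ B :=
  Bs.core_min (Us.LSys.sm (A := OSys u hu)) (oo_le.mpr hB) ((exactO_iff hu hu' hB hBu).mp h)

theorem CO_fin_iff : finO u (CO u hu) ↔ ∃ C : ℤ, ∀ V, finO u V → Us.LSys.dfc (A := OSys u hu) V ≤ C :=
  Bs.core_fin_iff (Us.LSys.sm (A := OSys u hu))

theorem CO_base_iff : CO u hu = oo Λ ↔ ∀ V, finO u V →
    Us.LSys.dfc (A := OSys u hu) V ≤ Us.LSys.dfc (A := OSys u hu) (oo Λ) :=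
  Bs.core_base_iff (Us.LSys.sm (A := OSys u hu))

/-! ### The inequality of the conjecture -/

/-- `2πi` -/
theorem P₁_cl : (P₁ : Set ℂ) ∪ Complex.exp '' (P₁ : Set ℂ) ⊆ Q241.SX.M.closure {2 * Real.pi * Complex.I} := by
  intro x hx
  refine (mem_clQ (S := {2 * Real.pi * Complex.I})).mpr fun D hD => ?_
  have e1 : D per = 0 := hD _ rfl
  refine kill_T.mpr ⟨?_, ?_⟩ x hx
  · unfold P₁
    rw [Submodule.span_singleton_le_iff_mem]
    exact e1
  · unfold P₁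
    rw [Submodule.span_singleton_le_iff_mem]
    refine dlog_eq_zero.2 ?_
    have h1 : Complex.exp per = 1 := Complex.exp_two_pi_mul_I
    rw [h1]
    exact D.map_one_eq_zero

/-- the numbers of the conjecture -/
def GO (S : Finset ι) {s : ℕ} {n : ι → ℕ} (Λ : ι → PeriodPair) (t : Fin s → ℂ) (p : ∀ c, Fin (n c) → ℂ) : Set ℂ :=
  {2 * Real.pi * Complex.I} ∪ (ex t ∪ {x | ∃ c ∈ S, x ∈ perO (Λ c) ∨ x ∈ pts (Λ c) (p c)})

theorem GO_finite : (GO S Λ t p).Finite := by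
  refine (finite_singleton _).union ((ex_finite t).union ?_)
  have h1 : {x | ∃ c ∈ S, x ∈ perO (Λ c) ∨ x ∈ pts (Λ c) (p c)} ⊆
      ⋃ c ∈ (S : Set ι), (perO (Λ c) ∪ pts (Λ c) (p c)) := by
    rintro x ⟨c, hc, hx⟩
    exact mem_biUnion (Finset.mem_coe.mpr hc) hx
  exact (S.finite_toSet.biUnion fun c _ => (perO_finite _).union (pts_finite _)).subset h1

theorem rk_GO (hp : ∀ c ∈ S, ∀ i, p c i ∉ (Λ c).lattice) :
    Q241.SX.M.eRk (GO S Λ t p) = Q241.SX.M.eRk (PN (QO (Λ := Λ) S t p)) := by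
  apply le_antisymm
  · rw [← Q241.SX.M.eRk_closure_eq (PN (QO (Λ := Λ) S t p))]
    refine Q241.SX.M.eRk_mono ?_
    rintro x (hx | hx | ⟨c, hc, hx | hx⟩)
    · rw [mem_singleton_iff.mp hx]
      refine Matroid.mem_closure_of_mem _ (Or.inl (Or.inl ?_)) (by simp)
      exact (le_sup_left : P₁ ≤ P₁ ⊔ Submodule.span ℚ (range t)) (Submodule.mem_span_singleton_self _)
    · have h1 : ∀ i, t i ∈ (QO (Λ := Λ) S t p).1.1 := fun i =>
        (le_sup_right : Submodule.span ℚ (range t) ≤ P₁ ⊔ Submodule.span ℚ (range t)) (Submodule.subset_span ⟨i, rfl⟩)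
      obtain ⟨i, hi | hi⟩ := mem_iUnion.mp hx
      · rw [hi]
        exact Matroid.mem_closure_of_mem _ (Or.inl (Or.inl (h1 i))) (by simp)
      · rw [mem_singleton_iff.mp hi]
        exact Matroid.mem_closure_of_mem _ (Or.inl (Or.inr ⟨_, h1 i, rfl⟩)) (by simp)
    · have e1 : (QO (Λ := Λ) S t p).1.2 c = P₂ (Λ c) ⊔ Submodule.span (kL (Λ c)) (range (p c)) := mkF_mem hc
      refine Q241.SX.M.closure_subset_closure ?_ (perO_sub (V := (QO (Λ := Λ) S t p).1.2 c) (e1.ge.trans' le_sup_left) hx)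
      exact fun y hy => Or.inr ⟨c, by rw [e1]; exact sup_ne _, hy⟩
    · have e1 : (QO (Λ := Λ) S t p).1.2 c = P₂ (Λ c) ⊔ Submodule.span (kL (Λ c)) (range (p c)) := mkF_mem hc
      refine Matroid.mem_closure_of_mem _ (Or.inr ⟨c, by rw [e1]; exact sup_ne _, ?_⟩) (by simp)
      refine pts_sub (hp c hc) (fun i => ?_) hx
      rw [e1]
      exact (le_sup_right : Submodule.span (kL (Λ c)) (range (p c)) ≤ _) (Submodule.subset_span ⟨i, rfl⟩)
  · rw [← Q241.SX.M.eRk_closure_eq (GO S Λ t p)]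
    refine Q241.SX.M.eRk_mono ?_
    rintro x (hx | ⟨c, hc, hx⟩)
    · refine Q241.SX.M.closure_subset_closure_of_subset_closure ?_ (T_sup P₁ (Submodule.span ℚ (range t)) hx)
      refine union_subset ?_ ?_
      · exact P₁_cl.trans (Q241.SX.M.closure_subset_closure subset_union_left)
      · exact (T_span t).trans (Q241.SX.M.closure_subset_closure (subset_union_left.trans subset_union_right))
    · have hcS : c ∈ S := mkF_supp hc
      have e1 : (QO (Λ := Λ) S t p).1.2 c = P₂ (Λ c) ⊔ Submodule.span (kL (Λ c)) (range (p c)) := mkF_mem hcS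
      rw [e1] at hx
      refine Q241.SX.M.closure_subset_closure ?_ (Nums_P₂_span (hp c hcS) (Nums_P₂ (Λ c)) hx)
      rintro y (hy | hy)
      · exact Or.inr (Or.inr ⟨c, hcS, Or.inr hy⟩)
      · exact Or.inr (Or.inr ⟨c, hcS, Or.inl hy⟩)

/-- the dimension of the motivic Galois group -/
def gd (S : Finset ι) {s : ℕ} {n : ι → ℕ} (Λ : ι → PeriodPair) (t : Fin s → ℂ) (p : ∀ c, Fin (n c) → ℂ) : ℕ :=
  1 + dimMod T₀ t + ∑ c ∈ S, (4 / finrank ℚ (kL (Λ c)) - 1 + 2 * dimMod (P₀ (Λ c)) (p c))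

theorem wO_gd : wO (QO (Λ := Λ) S t p) = gd S Λ t p := by
  rw [wO_eq (QO (Λ := Λ) S t p) S (show {c | (QO (Λ := Λ) S t p).1.2 c ≠ ⊥} ⊆ S from mkF_supp)]
  have e1 := finrank_mod P₁ t
  rw [finrank_P₁] at e1
  have e1' : dimMod T₀ t + 1 = finrank ℚ (QO (Λ := Λ) S t p).1.1 := e1
  have e2 : ∑ c ∈ S, wc (Λ c) ((QO (Λ := Λ) S t p).1.2 c) =
      ∑ c ∈ S, (4 / finrank ℚ (kL (Λ c)) - 1 + 2 * dimMod (P₀ (Λ c)) (p c)) := by
    refine Finset.sum_congr rfl fun c hc => ?_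
    have f1 : (QO (Λ := Λ) S t p).1.2 c = P₂ (Λ c) ⊔ Submodule.span (kL (Λ c)) (range (p c)) := mkF_mem hc
    have : FiniteDimensional (kL (Λ c)) (P₂ (Λ c)) := fd_P₂
    have f2 := finrank_mod (P₂ (Λ c)) (p c)
    have f2' : dimMod (P₀ (Λ c)) (p c) + finrank (kL (Λ c)) (P₂ (Λ c)) = finrank (kL (Λ c)) (P₂ (Λ c) ⊔
      Submodule.span (kL (Λ c)) (Set.range (p c)) : Submodule (kL (Λ c)) ℂ) := f2
    have f3 := fr_pos (fd_P₂ (L := Λ c)) (P₂_ne (Λ c))
    rw [f1, four_div]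
    unfold wc
    omega
  rw [e2]
  unfold gd
  omega

/-- every finite family is generated by exponents and points -/
theorem exists_QO {V : XX Λ} (hV : finO u V) : ∃ (S : Finset ι) (s : ℕ) (n : ι → ℕ) (t : Fin s → ℂ)
    (p : ∀ c, Fin (n c) → ℂ), (∀ c, ∀ i, p c i ∉ (Λ c).lattice) ∧ V = QO S t p := by
  have f1 := hV.2.2.1
  obtain ⟨t, t1, t2, t3⟩ := exists_basis_Q V.1.1
  have key : ∀ c, ∃ (m : ℕ) (q : Fin m → ℂ), (∀ i, q i ∉ (Λ c).lattice) ∧
      Submodule.span (kL (Λ c)) (range q) = V.1.2 c := fun c => by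
    have f2 := hV.2.2.2.1 c
    obtain ⟨q, h1, h2, h3⟩ := exists_basis_off (L := Λ c) (V.1.2 c)
    exact ⟨_, q, h3, span_eq f2 h1 h2⟩
  choose n p p1 p2 using key
  refine ⟨hV.2.2.2.2.toFinset, _, n, t, p, p1, ?_⟩
  have h1 := eq_mkF hV
  have h2 : V.1.1 = P₁ ⊔ Submodule.span ℚ (range t) := by
    rw [t3]
    exact (sup_eq_right.mpr hV.1).symm
  have h3 : V.1.2 = fun c => Submodule.span (kL (Λ c)) (range (p c)) := funext fun c => (p2 c).symm
  unfold QO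
  rw [← h2, ← h3]
  exact h1

/-- the bound for all tuples in terms of families -/
theorem boundO_iff (hu' : ∀ c, P₂ (Λ c) ≤ u.1.2 c) (C : ℕ) :
    (∀ (S : Finset ι) (s : ℕ) (n : ι → ℕ) (t : Fin s → ℂ) (p : ∀ c, Fin (n c) → ℂ), (∀ i, t i ∈ u.1.1) →
      (∀ c ∈ S, ∀ i, p c i ∈ u.1.2 c ∧ p c i ∉ (Λ c).lattice) →
      ((gd S Λ t p : ℕ) : ℕ∞) ≤ Q241.SX.M.eRk (GO S Λ t p) + C) ↔
    ∀ V, finO u V → Us.LSys.dfc (A := OSys u hu) V ≤ C := by
  have key : ∀ (S : Finset ι) (s : ℕ) (n : ι → ℕ) (t : Fin s → ℂ) (p : ∀ c, Fin (n c) → ℂ),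
      (∀ c ∈ S, ∀ i, p c i ∉ (Λ c).lattice) → finO u (QO (Λ := Λ) S t p) →
      (((gd S Λ t p : ℕ) : ℕ∞) ≤ Q241.SX.M.eRk (GO S Λ t p) + C ↔
        Us.LSys.dfc (A := OSys u hu) (QO S t p) ≤ C) := by
    intro S s n t p hp hf
    have h1 := Us.LSys.coe_rk (A := OSys u hu) hf
    change _ = Q241.SX.M.eRk (PN (QO (Λ := Λ) S t p)) at h1
    rw [rk_GO hp, ← h1]
    unfold Us.LSys.dfc
    change _ ↔ ((wO (QO (Λ := Λ) S t p) : ℕ) : ℤ) - _ ≤ _
    rw [wO_gd]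
    constructor
    · intro h
      have h3 : gd S Λ t p ≤ Us.LSys.rk (A := OSys u hu) (QO S t p) + C := by exact_mod_cast h
      omega
    · intro h
      have h3 : gd S Λ t p ≤ Us.LSys.rk (A := OSys u hu) (QO S t p) + C := by omega
      exact_mod_cast h3
  constructor
  · intro h V hV
    obtain ⟨S, s, n, t, p, hp, rfl⟩ := exists_QO hV
    have hVu : (QO (Λ := Λ) S t p).1 ≤ u.1 := hV.2.1
    refine (key S s n t p (fun c _ => hp c) hV).mp (h S s n t p (fun i => ?_) fun c hc i => ⟨?_, hp c i⟩)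
    · exact hVu.1 ((le_sup_right : Submodule.span ℚ (range t) ≤ P₁ ⊔ Submodule.span ℚ (range t))
        (Submodule.subset_span ⟨i, rfl⟩))
    · have e1 : (QO (Λ := Λ) S t p).1.2 c = P₂ (Λ c) ⊔ Submodule.span (kL (Λ c)) (range (p c)) := mkF_mem hc
      refine hVu.2 c ?_
      rw [e1]
      exact (le_sup_right : Submodule.span (kL (Λ c)) (range (p c)) ≤ _) (Submodule.subset_span ⟨i, rfl⟩)
  · intro h S s n t p ht hp
    have hf := fin_QO (QO_le (S := S) hu hu' ht fun c hc i => (hp c hc i).1)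
    exact (key S s n t p (fun c hc i => (hp c hc i).2) hf).mpr (h _ hf)

theorem bound_CO (C : ℤ) : (∀ V, finO u V → Us.LSys.dfc (A := OSys u hu) V ≤ C) ↔
    finO u (CO u hu) ∧ Us.LSys.dfc (A := OSys u hu) (CO u hu) ≤ C := by
  constructor
  · intro h
    have h1 : finO u (CO u hu) := (CO_fin_iff hu).mpr ⟨C, h⟩
    exact ⟨h1, h _ h1⟩
  · rintro ⟨h1, h2⟩ V hV
    exact (Bs.le_core (Us.LSys.sm (A := OSys u hu)) (V := V) h1 hV).trans h2

/-- the transcendence of `π` -/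
theorem dfc_oo : Us.LSys.dfc (A := OSys u hu) (oo Λ) = 0 := by
  have h1 := Us.LSys.coe_rk (A := OSys u hu) (finO_oo hu)
  change _ = Q241.SX.M.eRk (PN (oo Λ)) at h1
  have h2 : Q241.SX.M.eRk (PN (oo Λ)) = 1 := by
    apply le_antisymm
    · have h3 : PN (oo Λ) ⊆ Q241.SX.M.closure {2 * Real.pi * Complex.I} := by
        rintro x (hx | ⟨c, hc, -⟩)
        · exact P₁_cl hx
        · exact absurd rfl hc
      refine (Q241.SX.M.eRk_mono h3).trans ?_
      rw [Matroid.eRk_closure_eq]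
      exact (Matroid.eRk_le_encard _ _).trans (by simp)
    · have h3 : Q241.SX.M.Indep {per} := by
        rw [AlgebraicIndependent.matroid_indep_iff]
        have h4 : ¬ IsAlgebraic ℚ per := by
          intro h
          have h5 := Pool.Agent.H327R2.SC.lw_algInd (fun _ : Fin 1 => per) (fun _ => h)
            (linearIndependent_unique_iff.mpr per_ne)
          have h6 := h5.transcendental 0
          refine h6 ?_
          have h7 : Complex.exp per = 1 := Complex.exp_two_pi_mul_I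
          change IsAlgebraic ℚ (Complex.exp per)
          rw [h7]
          exact isAlgebraic_one
        have h5 : AlgebraicIndependent ℚ (fun _ : Unit => per) :=
          (algebraicIndependent_unique_type_iff (ι := Unit)).mpr h4
        have h6 := h5.coe_range
        have h7 : Set.range (fun _ : Unit => per) = {per} := Set.range_const
        rwa [h7] at h6
      have h4 := h3.encard_le_eRk_of_subset (show {per} ⊆ PN (oo Λ) from by
        rintro x hx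
        rw [mem_singleton_iff.mp hx]
        exact Or.inl (Or.inl (Submodule.mem_span_singleton_self _)))
      rwa [encard_singleton] at h4
  rw [h2] at h1
  have h3 : Us.LSys.rk (A := OSys u hu) (oo Λ) = 1 := by exact_mod_cast h1
  unfold Us.LSys.dfc
  rw [h3]
  change ((wO (oo Λ) : ℕ) : ℤ) - _ = 0
  have h4 : wO (oo Λ) = 1 := by
    rw [wO_eq _ ∅ (by
      intro c hc
      exact absurd rfl hc)]
    change finrank ℚ P₁ + _ = _
    rw [finrank_P₁]
    simp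
  rw [h4]
  rfl

end Pool.Agent.Q280.ML.OM
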