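import Pool.Agent.Q280.ML.GfB
import Pool.Agent.Q280.ML.EllC

/-!
# Logarithms of algebraic numbers and special points of an elliptic curve
-/

set_option autoImplicit false

open Matroid Set Module
open scoped PeriodPair ComplexConjugate

noncomputable section

namespace Pool.Agent.Q280.ML

open H667R3 Pool.Agent.W245.EB Pool.Agent.TH813.Ell
open Pool.Agent.TH813.Core
open Pool.Agent.Y776.Et (ζ)
open Q88.ETO (mem_clQ cj cj_apply cj_cj conj_G conj_zeta conj_wp conj_notMem bar mem_bar fin_bar finrank_bar eRk_image_le)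

variable {L : PeriodPair}

/-- the special points: outside the lattice, with `℘` or `ζ` algebraic -/
def Special (L : PeriodPair) (p : ℂ) : Prop :=
  p ∉ L.lattice ∧ (IsAlgebraic ℚ (℘[L] p) ∨ IsAlgebraic ℚ (ζ L p))

/-- their span -/
def YY (L : PeriodPair) : Submodule (kL L) ℂ := Submodule.span (kL L) {p | Special L p}

/-- the numbers of a pair -/
def SS (V : Pr L) : Set ℂ := (V.1 : Set ℂ) ∪ (V.2 : Set ℂ)

/-- the kernel of a derivation as a space over the field of multiplications -/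
def kerK (L : PeriodPair) (D : Derivation ℚ ℂ ℂ) : Submodule (kL L) ℂ where
  carrier := {x | D x = 0}
  add_mem' := fun {a b} ha hb => by
    rw [Set.mem_ofPred_eq] at ha hb ⊢
    rw [map_add, ha, hb, add_zero]
  zero_mem' := map_zero D
  smul_mem' := fun a x hx => by
    rw [Set.mem_ofPred_eq] at hx ⊢
    change D ((a : ℂ) * x) = 0
    rw [Derivation.leibniz, der_kL D a.2, hx, smul_zero, smul_zero, add_zero]

theorem kill_SS {D : Derivation ℚ ℂ ℂ} {V : Pr L} :
    (∀ x ∈ SS V, D x = 0) ↔ V.1 ≤ LinearMap.ker (D : ℂ →ₗ[ℚ] ℂ) ∧ V.2 ≤ kerK L D := by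
  constructor
  · intro h
    exact ⟨fun t ht => h _ (Or.inl ht), fun t ht => h _ (Or.inr ht)⟩
  · rintro ⟨h1, h2⟩ x (hx | hx)
    · exact h1 hx
    · exact h2 hx

theorem SS_mono {V W : Pr L} (h : V ≤ W) : SS V ⊆ SS W := union_subset_union h.1 h.2

theorem SS_sup (V W : Pr L) : SS (V ⊔ W) ⊆ Q241.SX.M.closure (SS V ∪ SS W) := by
  intro x hx
  refine (mem_clQ (S := SS V ∪ SS W)).mpr fun D hD => ?_
  obtain ⟨h1, h2⟩ := kill_SS.mp fun x hx => hD x (Or.inl hx)
  obtain ⟨h3, h4⟩ := kill_SS.mp fun x hx => hD x (Or.inr hx)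
  exact kill_SS.mpr ⟨sup_le h1 h3, sup_le h2 h4⟩ x hx

theorem SS_span {s n : ℕ} (l : Fin s → ℂ) (p : Fin n → ℂ) :
    SS ((Submodule.span ℚ (range l), Submodule.span (kL L) (range p)) : Pr L) ⊆
      Q241.SX.M.closure (range l ∪ range p) := by
  intro x hx
  refine (mem_clQ (S := range l ∪ range p)).mpr fun D hD => ?_
  refine kill_SS.mpr ⟨?_, ?_⟩ x hx
  · change Submodule.span ℚ (range l) ≤ _
    rw [Submodule.span_le]
    rintro _ ⟨i, rfl⟩
    exact hD _ (Or.inl ⟨i, rfl⟩)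
  · change Submodule.span (kL L) (range p) ≤ _
    rw [Submodule.span_le]
    rintro _ ⟨i, rfl⟩
    exact hD _ (Or.inr ⟨i, rfl⟩)

/-- a basis of a finite dimensional space -/
theorem exists_basis_k (P : Submodule (kL L) ℂ) [FiniteDimensional (kL L) P] :
    ∃ t : Fin (finrank (kL L) P) → ℂ, LinearIndependent (kL L) t ∧ (∀ i, t i ∈ P) ∧
      Submodule.span (kL L) (range t) = P := by
  let b := finBasis (kL L) P
  have hb : LinearIndependent (kL L) (fun i => (b i : ℂ)) :=
    b.linearIndependent.map' P.subtype (Submodule.ker_subtype _)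
  refine ⟨fun i => (b i : ℂ), hb, fun i => (b i).2, ?_⟩
  have h3 : Set.range (fun i => (b i : ℂ)) = P.subtype '' Set.range b := by
    rw [← Set.range_comp]
    rfl
  rw [h3, Submodule.span_image, b.span_eq, Submodule.map_top, Submodule.range_subtype]

theorem SS_rk {V : Pr L} (h1 : FiniteDimensional ℚ V.1) (h2 : FiniteDimensional (kL L) V.2) :
    Q241.SX.M.eRk (SS V) ≠ ⊤ := by
  obtain ⟨a, -, -, ha⟩ := exists_basis_Q V.1
  obtain ⟨l, -, -, hl⟩ := exists_basis_k V.2
  have h4 := SS_span (L := L) a l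
  rw [ha, hl] at h4
  have h5 : Q241.SX.M.eRk (SS V) ≤ (range a ∪ range l).encard := by
    refine (Q241.SX.M.eRk_mono h4).trans ?_
    rw [Matroid.eRk_closure_eq]
    exact Matroid.eRk_le_encard _ _
  exact ne_top_of_le_ne_top (encard_ne_top_iff.mpr ((finite_range _).union (finite_range _))) h5

/-- finite dimensional pairs -/
def finS (V : Pr L) : Prop :=
  V ≤ (LogQ, YY L) ∧ FiniteDimensional ℚ V.1 ∧ FiniteDimensional (kL L) V.2

theorem SS_loc {B : Pr L} {T : Set ℂ} (hB : B ≤ (LogQ, YY L)) (hT : T.Finite)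
    (hTB : T ⊆ SS B) : ∃ V ≤ B, finS V ∧ T ⊆ SS V := by
  have key : ∀ a ∈ SS B, ∃ V ≤ B, finS V ∧ a ∈ SS V := by
    rintro a (ha | ha)
    · have h1 : ((Submodule.span ℚ {a}, ⊥) : Pr L) ≤ B :=
        ⟨(Submodule.span_singleton_le_iff_mem _ _).mpr ha, bot_le⟩
      exact ⟨_, h1, ⟨h1.trans hB, fd_span (finite_singleton a), fd_bot⟩,
        Or.inl (Submodule.mem_span_singleton_self a)⟩
    · have h1 : ((⊥, Submodule.span (kL L) {a}) : Pr L) ≤ B :=
        ⟨bot_le, (Submodule.span_singleton_le_iff_mem _ _).mpr ha⟩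
      exact ⟨_, h1, ⟨h1.trans hB, fd_bot, fd_span (finite_singleton a)⟩,
        Or.inr (Submodule.mem_span_singleton_self a)⟩
  induction T, hT using Set.Finite.induction_on with
  | empty => exact ⟨⊥, bot_le, ⟨bot_le, fd_bot, fd_bot⟩, empty_subset _⟩
  | insert _ _ ih =>
    obtain ⟨V, h1, h2, h3⟩ := ih ((subset_insert _ _).trans hTB)
    obtain ⟨W, h4, h5, h6⟩ := key _ (hTB (mem_insert _ _))
    refine ⟨V ⊔ W, sup_le h1 h4, ⟨sup_le h2.1 h5.1, fd_sup h2.2.1 h5.2.1, fd_sup h2.2.2 h5.2.2⟩,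
      insert_subset ?_ ?_⟩
    · exact SS_mono (le_sup_right : W ≤ V ⊔ W) h6
    · exact h3.trans (SS_mono (le_sup_left : V ≤ V ⊔ W))

/-- the weight -/
def wS (V : Pr L) : ℕ := finrank ℚ V.1 + finrank (kL L) V.2

/-- the system of the pairs -/
@[reducible] def SSys (L : PeriodPair) : Us.LSys where
  X := Pr L
  o := ⊥
  u := (LogQ, YY L)
  fin := finS
  w := wS
  P := SS
  base := ⟨bot_le, fd_bot, fd_bot⟩
  ge _ := bot_le
  top h := h.1
  sup ha hb := ⟨sup_le ha.1 hb.1, fd_sup ha.2.1 hb.2.1, fd_sup ha.2.2 hb.2.2⟩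
  le hb _ h2 := ⟨h2.trans hb.1, fd_le hb.2.1 h2.1, fd_le hb.2.2 h2.2⟩
  lt {a b} hb _ hab := by
    have h3 := fr_le hb.2.1 hab.le.1
    have h4 := fr_le hb.2.2 hab.le.2
    rcases Prod.lt_iff.mp hab with h | h
    · have := fr_lt hb.2.1 h.1
      unfold wS
      omega
    · have := fr_lt hb.2.2 h.2
      unfold wS
      omega
  wmod ha hb := by
    have h1 := fr_mod ha.2.1 hb.2.1
    have h2 := fr_mod ha.2.2 hb.2.2
    unfold wS
    simp only [Prod.fst_inf, Prod.fst_sup, Prod.snd_inf, Prod.snd_sup]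
    omega
  cpt D hD hdir a ha h := by
    obtain ⟨_, ⟨d₁, h1, rfl⟩, h2⟩ := fd_cpt (Prod.fst '' D) (hD.image _)
      (hdir.mono_comp (fun _ _ h => h.1)) ha.2.1 (by
        have := h.1
        rwa [Prod.fst_sSup] at this)
    obtain ⟨_, ⟨d₂, h3, rfl⟩, h4⟩ := fd_cpt (Prod.snd '' D) (hD.image _)
      (hdir.mono_comp (fun _ _ h => h.2)) ha.2.2 (by
        have := h.2
        rwa [Prod.snd_sSup] at this)
    obtain ⟨d, h5, h6, h7⟩ := hdir d₁ h1 d₂ h3
    exact ⟨d, h5, h2.trans h6.1, h4.trans h7.2⟩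
  mono h := SS_mono h
  Psup {a b} := SS_sup a b
  Pfin ha := SS_rk ha.2.1 ha.2.2
  Ploc _ hB hT hTB := by
    obtain ⟨V, h1, h2, h3⟩ := SS_loc hB hT hTB
    exact ⟨V, h1, h2, h3.trans (Matroid.subset_closure_of_subset' _ (Subset.refl _) (by simp))⟩

/-- the defect is monotone -/
theorem dfcS_mono {V W : Pr L} (hW : finS W) (h : V ≤ W) :
    Us.LSys.dfc (A := SSys L) V ≤ Us.LSys.dfc (A := SSys L) W := by
  have hV : finS V := ⟨h.trans hW.1, fd_le hW.2.1 h.1, fd_le hW.2.2 h.2⟩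
  obtain ⟨Y₁, a1, a2, a3⟩ := exists_cpl hW.2.1 h.1
  obtain ⟨Y₂, b1, b2, b3⟩ := exists_cpl hW.2.2 h.2
  have f1 : FiniteDimensional ℚ Y₁ := fd_le hW.2.1 a1
  have f2 : FiniteDimensional (kL L) Y₂ := fd_le hW.2.2 b1
  have e1 : V.1 ⊔ Y₁ = W.1 := sup_cpl hW.2.1 h.1 a1 a2 a3
  have e2 : V.2 ⊔ Y₂ = W.2 := by
    have := hW.2.2
    apply Submodule.eq_of_le_of_finrank_eq (sup_le h.2 b1)
    have h1 := fr_mod hV.2.2 f2
    rw [inf_comm, b2, finrank_bot] at h1
    omega
  obtain ⟨a, t1, t2, t3⟩ := exists_basis_Q Y₁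
  obtain ⟨l, h1, h2, h3⟩ := exists_basis_k Y₂
  have h4 : Q241.SX.M.eRk (SS W) ≤ Q241.SX.M.eRk (SS V) + (finrank ℚ Y₁ + finrank (kL L) Y₂ : ℕ) := by
    have h5 : SS W ⊆ Q241.SX.M.closure (SS V ∪ (range a ∪ range l)) := by
      have h6 : W = V ⊔ (Submodule.span ℚ (range a), Submodule.span (kL L) (range l)) := by
        rw [t3, h3]
        exact Prod.ext e1.symm e2.symm
      rw [h6]
      refine (SS_sup _ _).trans (Q241.SX.M.closure_subset_closure_of_subset_closure (union_subset ?_ ?_))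
      · exact fun x hx => Matroid.mem_closure_of_mem _ (Or.inl hx) (by simp)
      · exact (SS_span a l).trans (Q241.SX.M.closure_subset_closure subset_union_right)
    refine (Q241.SX.M.eRk_mono h5).trans ?_
    rw [Matroid.eRk_closure_eq]
    refine (Q241.SX.M.eRk_union_le_eRk_add_eRk _ _).trans (add_le_add le_rfl ?_)
    refine (Matroid.eRk_le_encard _ _).trans ((encard_union_le _ _).trans ?_)
    have h5 : (range a).encard ≤ (finrank ℚ Y₁ : ℕ∞) := by
      rw [← image_univ]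
      exact (encard_image_le _ _).trans (by simp)
    have h6 : (range l).encard ≤ (finrank (kL L) Y₂ : ℕ∞) := by
      rw [← image_univ]
      exact (encard_image_le _ _).trans (by simp)
    refine (add_le_add h5 h6).trans ?_
    rw [Nat.cast_add]
  have r1 := Us.LSys.coe_rk (A := SSys L) hV
  have r2 := Us.LSys.coe_rk (A := SSys L) hW
  change _ = Q241.SX.M.eRk (SS V) at r1
  change _ = Q241.SX.M.eRk (SS W) at r2
  rw [← r1, ← r2] at h4
  have h5 : Us.LSys.rk (A := SSys L) W ≤ Us.LSys.rk (A := SSys L) V + (finrank ℚ Y₁ + finrank (kL L) Y₂) := by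
    exact_mod_cast h4
  unfold Us.LSys.dfc
  change ((finrank ℚ V.1 + finrank (kL L) V.2 : ℕ) : ℤ) - _ ≤ ((finrank ℚ W.1 + finrank (kL L) W.2 : ℕ) : ℤ) - _
  omega

/-- exactness over a pair -/
def ExactS (B : Pr L) : Prop :=
  ∀ (s n : ℕ) (l : Fin s → ℂ) (p : Fin n → ℂ), (∀ i, IsAlgebraic ℚ (Complex.exp (l i))) → (∀ i, Special L (p i)) →
    LinearIndependent ℚ (fun i => B.1.mkQ (l i)) → LinearIndependent (kL L) (fun i => B.2.mkQ (p i)) →
    AlgebraicIndependent (IntermediateField.adjoin ℚ (SS B)) (Sum.elim l p)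

/-- every finite dimensional space is contained in one spanned by a finite set of special points -/
theorem exists_special {V : Pr L} (hV : finS V) : ∃ G : Set ℂ, G.Finite ∧ (∀ p ∈ G, Special L p) ∧
    V.2 ≤ Submodule.span (kL L) G := by
  have f2 := hV.2.2
  obtain ⟨p, h1, h2, h3⟩ := exists_basis_k V.2
  have h4 : ∀ i, ∃ T : Finset ℂ, (T : Set ℂ) ⊆ {p | Special L p} ∧ p i ∈ Submodule.span (kL L) (T : Set ℂ) :=
    fun i => Submodule.mem_span_finite_of_mem_span (hV.1.2 (h2 i))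
  choose T hT1 hT2 using h4
  refine ⟨⋃ i, (T i : Set ℂ), finite_iUnion fun i => (T i).finite_toSet, ?_, ?_⟩
  · intro x hx
    obtain ⟨i, hi⟩ := mem_iUnion.mp hx
    exact hT1 i hi
  · refine h3.symm.le.trans ?_
    rw [Submodule.span_le]
    rintro _ ⟨i, rfl⟩
    exact Submodule.span_mono (subset_iUnion (fun i => (T i : Set ℂ)) i) (hT2 i)

/-- a family of elements of `G` which is a basis of the span of `G` modulo a subspace -/
theorem exists_mod_basis {K E : Type*} [Field K] [AddCommGroup E] [Module K E] {G : Set E} (hG : G.Finite)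
    (B : Submodule K E) :
    ∃ (n : ℕ) (p : Fin n → E), (∀ i, p i ∈ G) ∧ LinearIndependent K (fun i => B.mkQ (p i)) ∧
      finrank K (Submodule.span K G) = finrank K (Submodule.span K G ⊓ B : Submodule K E) + n := by
  classical
  obtain ⟨b, hb1, hb2, hb3⟩ := exists_linearIndependent K (B.mkQ '' G)
  have hbf : b.Finite := (hG.image _).subset hb1
  have : Fintype b := hbf.fintype
  have h1 : ∀ y : b, ∃ x ∈ G, B.mkQ x = (y : E ⧸ B) := fun y => hb1 y.2
  choose q hq1 hq2 using h1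
  let e := (Fintype.equivFin b).symm
  let p : Fin (Fintype.card b) → E := fun i => q (e i)
  have hp : LinearIndependent K (fun i => B.mkQ (p i)) := by
    have h2 := hb3.comp e e.injective
    have h3 : (fun i => B.mkQ (p i)) = Subtype.val ∘ e := funext fun i => hq2 (e i)
    rw [h3]
    exact h2
  have hpG : ∀ i, p i ∈ G := fun i => hq1 (e i)
  refine ⟨_, p, hpG, hp, ?_⟩
  have f1 : FiniteDimensional K (Submodule.span K G) := fd_span hG
  have f2 : finrank K (Submodule.span K (range p)) = Fintype.card b := by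
    rw [finrank_span_eq_card (li_of_mod hp), Fintype.card_fin]
  have hle : Submodule.span K (range p) ≤ Submodule.span K G := by
    refine Submodule.span_mono ?_
    rintro _ ⟨i, rfl⟩
    exact hpG i
  have h3 : (Submodule.span K G ⊓ B) ⊔ Submodule.span K (range p) = Submodule.span K G := by
    refine le_antisymm (sup_le inf_le_left hle) fun x hx => ?_
    have h4 : B.mkQ x ∈ Submodule.span K (B.mkQ '' G) := by
      rw [Submodule.span_image]
      exact ⟨x, hx, rfl⟩
    rw [← hb2] at h4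
    have h5 : b ⊆ B.mkQ '' (Submodule.span K (range p) : Set E) := by
      intro y hy
      refine ⟨q ⟨y, hy⟩, Submodule.subset_span ⟨e.symm ⟨y, hy⟩, ?_⟩, hq2 ⟨y, hy⟩⟩
      change q (e (e.symm ⟨y, hy⟩)) = _
      rw [Equiv.apply_symm_apply]
    have h6 : Submodule.span K b ≤ (Submodule.span K (range p)).map B.mkQ := Submodule.span_le.mpr h5
    obtain ⟨y, hy, hxy⟩ := h6 h4
    have h7 : x - y ∈ B := by
      rw [← Submodule.Quotient.mk_eq_zero B, ← Submodule.mkQ_apply, map_sub, hxy, sub_self]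
    have h8 : x = (x - y) + y := by abel
    rw [h8]
    exact Submodule.add_mem_sup ⟨Submodule.sub_mem _ hx (hle hy), h7⟩ hy
  have h9 := fr_mod (a := Submodule.span K G ⊓ B) (b := Submodule.span K (range p)) (fd_le f1 inf_le_left)
    (fd_le f1 hle)
  rw [h3, f2] at h9
  have h10 : Submodule.span K G ⊓ B ⊓ Submodule.span K (range p) = ⊥ := by
    rw [eq_bot_iff, ← inf_span_eq_bot hp]
    exact le_inf inf_le_right (inf_le_left.trans inf_le_right)
  rw [h10, finrank_bot] at h9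
  omega

theorem exactS_iff {B : Pr L} (hB : B ≤ (LogQ, YY L)) : ExactS B ↔
    ∀ V, finS V → Us.LSys.dfc (A := SSys L) V ≤ Us.LSys.dfc (A := SSys L) (V ⊓ B) := by
  constructor
  · intro h V hV
    obtain ⟨G, hG1, hG2, hG3⟩ := exists_special hV
    obtain ⟨W, hW⟩ : ∃ W : Pr L, W = (V.1, Submodule.span (kL L) G) := ⟨_, rfl⟩
    have hW1 : W.1 = V.1 := by rw [hW]
    have hW2 : W.2 = Submodule.span (kL L) G := by rw [hW]
    have hfW : finS W := by
      rw [hW]
      refine ⟨⟨hV.1.1, ?_⟩, hV.2.1, fd_span hG1⟩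
      exact Submodule.span_mono fun x hx => hG2 x hx
    have hVW : V ≤ W := ⟨hW1.ge, by rw [hW2]; exact hG3⟩
    -- the inequality for `W`
    have key : Us.LSys.dfc (A := SSys L) W ≤ Us.LSys.dfc (A := SSys L) (W ⊓ B) := by
      obtain ⟨Y₁, a1, a2, a3⟩ := exists_cpl hfW.2.1 (inf_le_left : W.1 ⊓ B.1 ≤ W.1)
      have f1 : FiniteDimensional ℚ Y₁ := fd_le hfW.2.1 a1
      obtain ⟨l, t1, t2, t3⟩ := exists_basis_Q Y₁
      have h6 : Submodule.span ℚ (range l) ⊓ B.1 = ⊥ := by
        rw [t3, eq_bot_iff, ← a2]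
        exact le_inf inf_le_left (le_inf (inf_le_left.trans a1) inf_le_right)
      obtain ⟨n, p, p1, p2, p3⟩ := exists_mod_basis hG1 B.2
      have h7 := h _ _ l p (fun i => hfW.1.1 (a1 (t2 i))) (fun i => hG2 _ (p1 i)) (li_of_inf_bot t1 h6) p2
      refine Us.LSys.concentrated_of_family (A := SSys L) bot_le hfW (m := finrank ℚ Y₁ + n) ?_
        (Sum.elim l p ∘ finSumFinEquiv.symm)
        (fun k => ?_) (h7.comp _ (Equiv.injective _))
      · change wS W = wS (W ⊓ B) + _
        unfold wS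
        rw [← hW2] at p3
        change finrank (kL L) W.2 = finrank (kL L) (W ⊓ B).2 + n at p3
        change finrank ℚ (W ⊓ B).1 + finrank ℚ Y₁ = finrank ℚ W.1 at a3
        omega
      · refine Matroid.mem_closure_of_mem _ ?_ (by simp)
        change Sum.elim l p (finSumFinEquiv.symm k) ∈ SS W
        rcases finSumFinEquiv.symm k with i | i
        · exact Or.inl (a1 (t2 i))
        · refine Or.inr ?_
          rw [hW2]
          exact Submodule.subset_span (p1 i)
    -- supermodularity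
    have hfWB : finS (W ⊓ B) := ⟨inf_le_left.trans hfW.1, fd_le hfW.2.1 inf_le_left, fd_le hfW.2.2 inf_le_left⟩
    have h1 := (Us.LSys.sm (A := SSys L)).sm hV hfWB
    have h2 : V ⊓ (W ⊓ B) = V ⊓ B := by
      rw [← inf_assoc, inf_eq_left.mpr hVW]
    have h3 := dfcS_mono hfW (sup_le hVW (inf_le_left : W ⊓ B ≤ W))
    change Us.LSys.dfc (A := SSys L) V + Us.LSys.dfc (A := SSys L) (W ⊓ B) ≤
      Us.LSys.dfc (A := SSys L) (V ⊓ (W ⊓ B)) + Us.LSys.dfc (A := SSys L) (V ⊔ W ⊓ B) at h1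
    rw [h2] at h1
    linarith
  · intro h s n l p hl hp hli hpi
    have f1 : finrank ℚ (Submodule.span ℚ (range l)) = s := by
      rw [finrank_span_eq_card (li_of_mod hli), Fintype.card_fin]
    have f2 : finrank (kL L) (Submodule.span (kL L) (range p)) = n := by
      rw [finrank_span_eq_card (li_of_mod hpi), Fintype.card_fin]
    have hfin : finS ((Submodule.span ℚ (range l), Submodule.span (kL L) (range p)) : Pr L) := by
      refine ⟨⟨?_, ?_⟩, fd_span (finite_range _), fd_span (finite_range _)⟩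
      · change Submodule.span ℚ (range l) ≤ LogQ
        rw [Submodule.span_le]
        rintro _ ⟨i, rfl⟩
        exact hl i
      · change Submodule.span (kL L) (range p) ≤ YY L
        refine Submodule.span_mono ?_
        rintro _ ⟨i, rfl⟩
        exact hp i
    obtain ⟨v, h4, h5⟩ := Us.LSys.family_of_concentrated (A := SSys L) (B := B) bot_le hB h
      (Q := (Submodule.span ℚ (range l), Submodule.span (kL L) (range p))) hfin
      (Prod.ext (inf_span_eq_bot hli) (inf_span_eq_bot hpi)) (m := s + n) (by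
        change wS _ = wS ⊥ + (s + n)
        unfold wS
        rw [f1, f2]
        simp) ((finite_range l).union (finite_range p))
      ((SS_span l p).trans (Q241.SX.M.closure_subset_closure subset_union_left))
    refine ai_of_cover (by simp) h5 fun i => ?_
    rcases h4 i with ⟨k, hk⟩ | ⟨k, hk⟩
    · exact ⟨Sum.inl k, hk⟩
    · exact ⟨Sum.inr k, hk⟩

/-- the canonical pair -/
def CS (L : PeriodPair) : Pr L := Bs.Core (X := (SSys L).X) (SSys L).o (SSys L).fin (Us.LSys.dfc (A := SSys L))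

theorem CS_le_top : CS L ≤ (LogQ, YY L) := sSup_le fun _ hT => hT.1.1

theorem conc_CS : ∀ V, finS V → Us.LSys.dfc (A := SSys L) V ≤ Us.LSys.dfc (A := SSys L) (V ⊓ CS L) :=
  fun _ hV => Bs.le_inf_core (Us.LSys.sm (A := SSys L)) hV

theorem exact_CS : ExactS (CS L) := (exactS_iff CS_le_top).mpr conc_CS

theorem CS_le {B : Pr L} (hB : B ≤ (LogQ, YY L)) (h : ExactS B) : CS L ≤ B :=
  Bs.core_min (Us.LSys.sm (A := SSys L)) bot_le ((exactS_iff hB).mp h)

theorem CS_fin_iff : finS (CS L) ↔ ∃ C : ℤ, ∀ V, finS V → Us.LSys.dfc (A := SSys L) V ≤ C :=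
  Bs.core_fin_iff (Us.LSys.sm (A := SSys L))

theorem SS_bot_rk : Q241.SX.M.eRk (SS (⊥ : Pr L)) = 0 := by
  have h3 : Q241.SX.M.eRk (SS (⊥ : Pr L)) ≤ 0 := by
    rw [← Q241.SX.M.eRk_empty, ← Q241.SX.M.eRk_closure_eq ∅]
    refine Q241.SX.M.eRk_mono fun x hx => (mem_clQ (S := ∅)).mpr fun D _ => ?_
    exact kill_SS.mpr ⟨bot_le, bot_le⟩ x hx
  exact nonpos_iff_eq_zero.mp h3

theorem dfcS_bot : Us.LSys.dfc (A := SSys L) (⊥ : Pr L) = 0 := by
  have h4 : Us.LSys.rk (A := SSys L) (⊥ : Pr L) = 0 := by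
    unfold Us.LSys.rk
    change (Q241.SX.M.eRk (SS (⊥ : Pr L))).toNat = 0
    rw [SS_bot_rk]
    rfl
  unfold Us.LSys.dfc
  rw [h4]
  change ((wS (⊥ : Pr L) : ℕ) : ℤ) - 0 = 0
  unfold wS
  simp

theorem CS_bot_iff : CS L = ⊥ ↔ ∀ V : Pr L, finS V → Us.LSys.dfc (A := SSys L) V ≤ 0 := by
  rw [← dfcS_bot (L := L)]
  exact Bs.core_base_iff (Us.LSys.sm (A := SSys L))

end Pool.Agent.Q280.ML
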