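import Pool.Agent.Q280.ML.SE
import Pool.Agent.Q280.ML.ETC

/-!
# Split semi-elliptic logarithms: conjugation, the order of the points
-/

set_option autoImplicit false

open Matroid Set Module
open scoped PeriodPair ComplexConjugate

noncomputable section

namespace Pool.Agent.Q280.ML

open Pool.Agent.TH813.Ell
open Pool.Agent.Y776.Et (ζ)
open Q88.ETO (mem_clQ cj cj_apply cj_cj conj_zeta conj_wp conj_notMem bar mem_bar fin_bar finrank_bar eRk_image_le)

variable {L : PeriodPair}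

theorem alg_conj {x : ℂ} (hx : IsAlgebraic ℚ x) : IsAlgebraic ℚ (conj x) := hx.algHom (cj : ℂ →ₐ[ℚ] ℂ)

theorem special_conj (hL : ∀ w ∈ L.lattice, conj w ∈ L.lattice) {p : ℂ} (hp : Special L p) : Special L (conj p) := by
  refine ⟨conj_notMem hL hp.1, ?_⟩
  rw [conj_wp hL, conj_zeta hL]
  exact hp.2.imp alg_conj alg_conj

/-- the conjugate pair -/
theorem barP_top (hL : ∀ w ∈ L.lattice, conj w ∈ L.lattice) {V : Pr L} (hV : V ≤ (LogQ, YY L)) :
    barP V ≤ (LogQ, YY L) := by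
  constructor
  · intro x hx
    have h1 := hV.1 (mem_barQ.mp hx)
    rw [mem_LogQ, Complex.exp_conj] at h1
    have h2 := alg_conj h1
    rw [Complex.conj_conj] at h2
    exact h2
  · intro x hx
    have h1 := hV.2 ((mem_bar (hc := ckL)).mp hx)
    have h2 : YY L ≤ bar ckL (YY L) := by
      refine Submodule.span_le.mpr fun p hp => ?_
      exact Submodule.subset_span (special_conj hL hp)
    have h3 := h2 h1
    rw [mem_bar, Complex.conj_conj] at h3
    exact h3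

theorem SS_bar (V : Pr L) : Q241.SX.M.eRk (SS (barP V)) = Q241.SX.M.eRk (SS V) := by
  have key : ∀ V : Pr L, Q241.SX.M.eRk (SS (barP V)) ≤ Q241.SX.M.eRk (SS V) := fun V => by
    refine (eRk_image_le _).trans (Q241.SX.M.eRk_mono ?_)
    rintro _ ⟨x, (hx | hx), rfl⟩
    · exact Or.inl (mem_barQ.mp hx)
    · exact Or.inr ((mem_bar (hc := ckL)).mp hx)
  apply le_antisymm (key V)
  have h1 := key (barP V)
  rwa [barP_barP] at h1

theorem finS_bar (hL : ∀ w ∈ L.lattice, conj w ∈ L.lattice) {V : Pr L} (hV : finS V) : finS (barP V) := by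
  have h2 := hV.2.2
  exact ⟨barP_top hL hV.1, fd_barQ hV.2.1, fin_bar ckL V.2⟩

theorem dfcS_bar {V : Pr L} (hV : finS V) :
    Us.LSys.dfc (A := SSys L) (barP V) = Us.LSys.dfc (A := SSys L) V := by
  have h0 := hV.2.2
  unfold Us.LSys.dfc Us.LSys.rk
  change ((finrank ℚ (barQ V.1) + finrank (kL L) (bar ckL V.2) : ℕ) : ℤ) -
    ((Q241.SX.M.eRk (SS (barP V))).toNat : ℤ) =
    ((finrank ℚ V.1 + finrank (kL L) V.2 : ℕ) : ℤ) - ((Q241.SX.M.eRk (SS V)).toNat : ℤ)
  rw [finrank_barQ, finrank_bar, SS_bar]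

theorem conj_CS (hL : ∀ w ∈ L.lattice, conj w ∈ L.lattice) : CS L ≤ barP (CS L) := by
  have h0 : barP (CS L) ≤ (LogQ, YY L) := barP_top hL CS_le_top
  refine CS_le h0 ((exactS_iff h0).mpr fun V hV => ?_)
  have h2 := conc_CS (barP V) (finS_bar hL hV)
  rw [dfcS_bar hV] at h2
  have h3 : barP V ⊓ CS L = barP (V ⊓ barP (CS L)) := by
    rw [barP_inf, barP_barP]
  have h4 : finS (V ⊓ barP (CS L)) := ⟨inf_le_left.trans hV.1, fd_le hV.2.1 inf_le_left, fd_le hV.2.2 inf_le_left⟩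
  rw [h3, dfcS_bar h4] at h2
  exact h2

/-- the order of the points -/
theorem exists_order {n : ℕ} (p : Fin n → ℂ) (hp : ∀ i, Special L (p i)) :
    ∃ (σ : Equiv.Perm (Fin n)) (m : ℕ), m ≤ n ∧ (∀ i : Fin n, (i : ℕ) < m → IsAlgebraic ℚ (℘[L] (p (σ i)))) ∧
      ∀ i : Fin n, m ≤ (i : ℕ) → IsAlgebraic ℚ (ζ L (p (σ i))) := by
  classical
  let f : Fin n → ℕ := fun i => if IsAlgebraic ℚ (℘[L] (p i)) then 0 else 1
  obtain ⟨σ, hσ⟩ : ∃ σ : Equiv.Perm (Fin n), Monotone (f ∘ σ) := ⟨_, Tuple.monotone_sort f⟩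
  have h1 : ∀ i, f (σ i) = 0 → IsAlgebraic ℚ (℘[L] (p (σ i))) := fun i hi => by
    by_contra hcon
    simp only [f, if_neg hcon] at hi
    omega
  have h2 : ∀ i, 1 ≤ f (σ i) → IsAlgebraic ℚ (ζ L (p (σ i))) := fun i hi => by
    have h3 : ¬ IsAlgebraic ℚ (℘[L] (p (σ i))) := fun hcon => by
      simp only [f, if_pos hcon] at hi
      omega
    exact (hp (σ i)).2.resolve_left h3
  by_cases h : ∃ k : ℕ, ∃ hk : k < n, 1 ≤ f (σ ⟨k, hk⟩)
  · refine ⟨σ, Nat.find h, ?_, fun i hi => ?_, fun i hi => ?_⟩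
    · obtain ⟨hk, -⟩ := Nat.find_spec h
      exact hk.le
    · refine h1 i ?_
      have h3 := Nat.find_min h hi
      by_contra hcon
      exact h3 ⟨i.2, by
        change 1 ≤ f (σ i)
        omega⟩
    · refine h2 i ?_
      obtain ⟨hk, h3⟩ := Nat.find_spec h
      exact h3.trans (hσ (show (⟨Nat.find h, hk⟩ : Fin n) ≤ i from hi))
  · refine ⟨σ, n, le_rfl, fun i _ => ?_, fun i hi => absurd i.2 (by omega)⟩
    refine h1 i ?_
    by_contra hcon
    exact h ⟨i, i.2, by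
      change 1 ≤ f (σ i)
      omega⟩

end Pool.Agent.Q280.ML
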