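import Pool.Agent.Q280.ML.Core
import Pool.Agent.Q280.MD.Over

/-!
# Predimensions on modular lattices, with values in the numbers attached to the elements
-/

set_option autoImplicit false

open Matroid Set Q241.SX

namespace Pool.Agent.Q280.ML

open Pool.Agent.Q280.MD (rank_of_indep exists_family_over)

/-- A modular lattice whose elements `V` (for example spaces, or pairs of spaces) have a weight and
carry a set `P V` of complex numbers. -/
structure LSys where
  X : Type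
  [lat : CompleteLattice X]
  [mod : IsModularLattice X]
  fin : X → Prop
  w : X → ℕ
  P : X → Set ℂ
  bot : fin ⊥
  sup : ∀ {a b : X}, fin a → fin b → fin (a ⊔ b)
  le : ∀ {a b : X}, fin b → a ≤ b → fin a
  lt : ∀ {a b : X}, fin b → a < b → w a < w b
  wmod : ∀ {a b : X}, fin a → fin b → w a + w b = w (a ⊓ b) + w (a ⊔ b)
  cpt : ∀ (D : Set X), D.Nonempty → DirectedOn (· ≤ ·) D → ∀ {a : X}, fin a → a ≤ sSup D → ∃ d ∈ D, a ≤ d
  mono : ∀ {a b : X}, a ≤ b → P a ⊆ P b
  Psup : ∀ {a b : X}, P (a ⊔ b) ⊆ M.closure (P a ∪ P b)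
  Pfin : ∀ {a : X}, fin a → M.eRk (P a) ≠ ⊤
  Ploc : ∀ {B : X} {T : Set ℂ}, T.Finite → T ⊆ P B → ∃ V ≤ B, fin V ∧ T ⊆ M.closure (P V)

attribute [instance] LSys.lat LSys.mod

namespace LSys

variable {A : LSys}

/-- the rank -/
noncomputable def rk (V : A.X) : ℕ := (M.eRk (A.P V)).toNat

theorem coe_rk {V : A.X} (hV : A.fin V) : ((A.rk V : ℕ) : ℕ∞) = M.eRk (A.P V) :=
  ENat.coe_toNat (A.Pfin hV)

/-- the defect -/
noncomputable def dfc (V : A.X) : ℤ := (A.w V : ℤ) - (A.rk V : ℤ)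

theorem rk_submod {V W : A.X} (hV : A.fin V) (hW : A.fin W) : A.rk (V ⊓ W) + A.rk (V ⊔ W) ≤ A.rk V + A.rk W := by
  have h1 : M.eRk (A.P (V ⊓ W)) ≤ M.eRk (A.P V ∩ A.P W) :=
    M.eRk_mono (subset_inter (A.mono inf_le_left) (A.mono inf_le_right))
  have h2 : M.eRk (A.P (V ⊔ W)) ≤ M.eRk (A.P V ∪ A.P W) := by
    rw [← M.eRk_closure_eq (A.P V ∪ A.P W)]
    exact M.eRk_mono A.Psup
  have h3 := (add_le_add h1 h2).trans (M.eRk_inter_add_eRk_union_le _ _)
  rw [← coe_rk (A.le hV inf_le_left), ← coe_rk (A.sup hV hW), ← coe_rk hV, ← coe_rk hW] at h3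
  exact_mod_cast h3

theorem sm : Sm A.fin A.dfc A.w where
  bot := A.bot
  sup := A.sup
  le := A.le
  lt := A.lt
  fle _ := by unfold dfc; omega
  sm {a b} ha hb := by
    have h1 := rk_submod ha hb
    have h2 := A.wmod ha hb
    unfold dfc
    omega
  cpt := A.cpt

/-- from the concentration of the defect to independent families over the field of `B` -/
theorem family_of_concentrated {B : A.X} (hB : ∀ V, A.fin V → A.dfc V ≤ A.dfc (V ⊓ B))
    {Q : A.X} (hQ : A.fin Q) (hQB : Q ⊓ B = ⊥) (hw0 : A.w ⊥ = 0) {Z : Set ℂ} (hZ : Z.Finite)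
    (hQZ : A.P Q ⊆ M.closure (Z ∪ A.P ⊥)) :
    ∃ v : Fin (A.w Q) → ℂ, (∀ k, v k ∈ Z) ∧ AlgebraicIndependent (IntermediateField.adjoin ℚ (A.P B)) v := by
  refine exists_family_over hZ fun T hT hTB => ?_
  obtain ⟨V, hV1, hV2, hV3⟩ := A.Ploc hT hTB
  obtain ⟨T', hT'⟩ : ∃ T' : Set ℂ, T' = T ∪ A.P V := ⟨_, rfl⟩
  have hcl : M.closure T' = M.closure (A.P V) := by
    rw [hT']
    refine subset_antisymm ?_ (M.closure_subset_closure subset_union_right)
    exact M.closure_subset_closure_of_subset_closure (union_subset hV3 (subset_cl _))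
  have hrk : M.eRk T' = M.eRk (A.P V) := by
    rw [← M.eRk_closure_eq T', hcl, M.eRk_closure_eq]
  refine ⟨T', by rw [hT']; exact subset_union_left, ?_, ?_, ?_⟩
  · rw [hT']
    exact union_subset (hTB.trans (subset_cl _)) ((A.mono hV1).trans (subset_cl _))
  · rw [hrk]
    exact A.Pfin hV2
  have h1 := hB (V ⊔ Q) (A.sup hV2 hQ)
  have h2 : (V ⊔ Q) ⊓ B = V := by
    rw [sup_inf_assoc_of_le _ hV1, hQB, sup_bot_eq]
  have h3 : V ⊓ Q = ⊥ := by
    rw [eq_bot_iff, ← hQB]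
    exact le_inf inf_le_right (inf_le_left.trans hV1)
  have h4 := A.wmod hV2 hQ
  rw [h3, hw0, zero_add] at h4
  rw [h2] at h1
  unfold dfc at h1
  have h5 : A.rk V + A.w Q ≤ A.rk (V ⊔ Q) := by omega
  have h6 : ((A.rk V + A.w Q : ℕ) : ℕ∞) ≤ ((A.rk (V ⊔ Q) : ℕ) : ℕ∞) := by exact_mod_cast h5
  rw [Nat.cast_add, coe_rk hV2, coe_rk (A.sup hV2 hQ)] at h6
  rw [hrk]
  refine h6.trans ?_
  rw [← M.eRk_closure_eq (Z ∪ T')]
  refine M.eRk_mono (A.Psup.trans (M.closure_subset_closure_of_subset_closure (union_subset ?_ ?_)))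
  · refine Subset.trans ?_ (subset_cl _)
    rw [hT']
    exact subset_union_right.trans subset_union_right
  · refine hQZ.trans (M.closure_subset_closure (union_subset_union_right _ ?_))
    rw [hT']
    exact (A.mono bot_le).trans subset_union_right

/-- the converse -/
theorem concentrated_of_family {B V : A.X} (hV : A.fin V) {m : ℕ} (hm : A.w V = A.w (V ⊓ B) + m)
    (v : Fin m → ℂ) (hv : ∀ k, v k ∈ M.closure (A.P V))
    (hi : AlgebraicIndependent (IntermediateField.adjoin ℚ (A.P B)) v) : A.dfc V ≤ A.dfc (V ⊓ B) := by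
  have h1 := rank_of_indep (T := A.P (V ⊓ B)) ((A.mono inf_le_right).trans (subset_cl _)) _ v hi
  have h2 : M.eRk (A.P (V ⊓ B) ∪ range v) ≤ M.eRk (A.P V) := by
    rw [← M.eRk_closure_eq (A.P V)]
    refine M.eRk_mono (union_subset ((A.mono inf_le_left).trans (subset_cl _)) ?_)
    rintro _ ⟨k, rfl⟩
    exact hv k
  have h3 := h1.trans h2
  rw [← coe_rk hV, ← coe_rk (A.le hV inf_le_left)] at h3
  have h4 : A.rk (V ⊓ B) + m ≤ A.rk V := by exact_mod_cast h3
  unfold dfc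
  omega

end LSys

end Pool.Agent.Q280.ML
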